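import Pool.Agent.Q60.TP.LMain
import Pool.Agent.Q60.NP.MainT
import Pool.Agent.Q60.FI.Cmb

/-!
# The main theorem over the coefficient field
-/

set_option linter.unusedSectionVars false

namespace Pool.Agent.Q60.TP

open Module Matrix Pool.Agent.Q60.ED Pool.Agent.Q60.TD Pool.Agent.Q60.NP Pool.Agent.Q60.FI
open Pool.Agent.Q55.Ke (Aut mem_Aut)

variable {K : Type} [Field K] [CharZero K] {ι : Type} [Fintype ι] [DecidableEq ι] {Γ : Type*}
  [Group Γ]

/-- The form is preserved up to a power of the character, and it is graded symmetric. -/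
structure KPres (R : MRep K ι Γ) (Q : Matrix ι ι K) (d : ℕ) : Prop where
  det : Q.det ≠ 0
  inv : ∀ g, (R.A g)ᵀ * Q * R.A g = (R.χ g : K) ^ d • Q
  deg : ∀ i j, R.a i + R.a j ≠ 2 * d → Q i j = 0
  symm : ∀ i j, Q j i = Q i j * (-1) ^ R.a j

variable {R : MRep K ι Γ} {Q : Matrix ι ι K} {d : ℕ} {L : Type} [Field L] [Algebra K L]
  [IsAlgClosed L] {b dX : ℕ} (hM : R.M ≤ 2 * dX)

include hM in
/-- The form over the algebraic closure. -/
lemma KPres.pres (h : KPres R Q d) :
    Pres (toT (b := b) R L hM) (Q.map (algebraMap K L)) where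
  det := by
    have h3 : (Q.map (algebraMap K L)).det = algebraMap K L Q.det :=
      ((algebraMap K L).map_det _).symm
    rw [h3]
    exact (map_ne_zero _).2 h.det
  aut x := by
    change rr R L x ∈ Aut _
    rw [mem_Aut]
    have h1 : rr R L x = R.AL L x.1.1 * diagonal (fun i => ((x.1.2 : L)⁻¹) ^ (R.a i)) := by
      rw [rr_apply, R.AL_comm x.1.1 fun m => ((x.1.2 : L)⁻¹) ^ m]
    have h2 : (R.AL L x.1.1)ᵀ * Q.map (algebraMap K L) * R.AL L x.1.1 =
        (algebraMap K L (R.χ x.1.1)) ^ d • Q.map (algebraMap K L) := by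
      have h3 := congrArg (fun M : Matrix ι ι K => M.map (algebraMap K L)) (h.inv x.1.1)
      beta_reduce at h3
      rw [Matrix.map_mul, Matrix.map_mul] at h3
      refine h3.trans ?_
      ext i j
      simp only [Matrix.map_apply, Matrix.smul_apply, smul_eq_mul, map_mul, map_pow]
    rw [h1, transpose_mul, diagonal_transpose]
    have h4 : diagonal (fun i => ((x.1.2 : L)⁻¹) ^ (R.a i)) * (R.AL L x.1.1)ᵀ *
        Q.map (algebraMap K L) * (R.AL L x.1.1 *
          diagonal (fun i => ((x.1.2 : L)⁻¹) ^ (R.a i))) =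
        diagonal (fun i => ((x.1.2 : L)⁻¹) ^ (R.a i)) *
          ((R.AL L x.1.1)ᵀ * Q.map (algebraMap K L) * R.AL L x.1.1) *
          diagonal (fun i => ((x.1.2 : L)⁻¹) ^ (R.a i)) := by
      simp only [Matrix.mul_assoc]
    rw [h4, h2]
    ext i j
    rw [mul_diagonal, diagonal_mul, Matrix.smul_apply, Matrix.map_apply, smul_eq_mul]
    by_cases hij : R.a i + R.a j = 2 * d
    · have h5 : ((x.1.2 : L)⁻¹) ^ (R.a i) * ((algebraMap K L (R.χ x.1.1)) ^ d *
          algebraMap K L (Q i j)) * ((x.1.2 : L)⁻¹) ^ (R.a j) =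
          ((x.1.2 : L)⁻¹) ^ (R.a i + R.a j) * (algebraMap K L (R.χ x.1.1)) ^ d *
          algebraMap K L (Q i j) := by
        rw [pow_add]
        ring
      have h6 : (x.1.2 : L)⁻¹ * (x.1.2 : L) = 1 := inv_mul_cancel₀ x.1.2.ne_zero
      rw [h5, hij, ← mem_GG.1 x.2, ← pow_mul, ← mul_pow, h6, one_pow, one_mul]
    · rw [h.deg i j hij, map_zero, mul_zero, mul_zero, zero_mul]
  symm := by
    ext i j
    rw [transpose_apply, mul_diagonal, Matrix.map_apply, Matrix.map_apply, h.symm i j, map_mul,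
      map_pow, map_neg, map_one]
    rfl
  comm := by
    ext i j
    rw [diagonal_mul, mul_diagonal, Matrix.map_apply]
    change (-1 : L) ^ R.a i * _ = _ * (-1 : L) ^ R.a j
    by_cases hij : R.a i + R.a j = 2 * d
    · have h1 : (-1 : L) ^ R.a i = (-1) ^ R.a j := by
        have h2 : (-1 : L) ^ R.a i * (-1) ^ R.a j = 1 := by
          rw [← pow_add, hij, pow_mul, neg_one_sq, one_pow]
        have h3 : (-1 : L) ^ R.a j * (-1) ^ R.a j = 1 := by
          rw [← pow_add, ← two_mul, pow_mul, neg_one_sq, one_pow]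
        have h4 : (-1 : L) ^ R.a j ≠ 0 := pow_ne_zero _ (neg_ne_zero.2 one_ne_zero)
        exact mul_right_cancel₀ h4 (h2.trans h3.symm)
      rw [h1, mul_comm]
    · rw [h.deg i j hij, map_zero, mul_zero, zero_mul]

lemma tv_form (l : L →ₗ[K] K) (c : Matrix ι ι L) :
    tv Q (Matrix.of fun i j => l (c i j)) =
      fun w => l (tv (Q.map (algebraMap K L)) c w) := by
  funext w
  rw [tv, tv, NP.vec, NP.vec, Matrix.mul_apply, Matrix.mul_apply, map_sum, map_inv_mat Q L]
  refine Finset.sum_congr rfl fun k _ => ?_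
  rw [transpose_apply, transpose_apply, Matrix.map_apply, mul_comm (c (w 0) k),
    ← Algebra.smul_def, map_smul, smul_eq_mul, mul_comm]
  rfl

lemma tv_map (a : Matrix ι ι K) :
    tv (Q.map (algebraMap K L)) (a.map (algebraMap K L)) = bc L (tv Q a) := by
  funext w
  rw [tv, NP.vec, map_inv_mat Q L, Matrix.mul_apply, bc, tv, NP.vec, Matrix.mul_apply, map_sum]
  refine Finset.sum_congr rfl fun k _ => ?_
  rw [transpose_apply, transpose_apply, Matrix.map_apply, Matrix.map_apply, map_mul]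

/-- The condition on the centre over the algebraic closure. -/
lemma cenL
    (hcen : ∀ c : Matrix ι ι K, tv Q c ∈ TK R 2 → (∀ a, tv Q a ∈ TK R 2 → a * c = c * a) →
      (∀ s ∈ TK R 2, aop c s = 0) → c = 0) :
    ∀ c : Matrix ι ι L, tv (Q.map (algebraMap K L)) c ∈ (toT (b := b) R L hM).T 2 →
      (∀ a, tv (Q.map (algebraMap K L)) a ∈ (toT (b := b) R L hM).T 2 → a * c = c * a) →
      (∀ s ∈ (toT (b := b) R L hM).T 2, aop c s = 0) → c = 0 := by
  intro c hc hcom hk
  ext i j
  rw [Matrix.zero_apply]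
  apply eq_zero_of_forms (K := K)
  intro l
  have h1 := hcen (Matrix.of fun i j => l (c i j))
    (by
      rw [tv_form]
      exact lam_mem l (T_le hM le_rfl hc))
    (fun a ha => by
      have h2 := hcom (a.map (algebraMap K L)) (by
        rw [tv_map]
        exact bc_T hM ha)
      ext i j
      have h3 := congrArg l (congrFun (congrFun h2 i) j)
      rw [Matrix.mul_apply, Matrix.mul_apply, map_sum, map_sum] at h3
      rw [Matrix.mul_apply, Matrix.mul_apply]
      refine Eq.trans ?_ (h3.trans ?_)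
      · refine Finset.sum_congr rfl fun k _ => ?_
        rw [Matrix.map_apply, ← Algebra.smul_def, map_smul, smul_eq_mul]
        rfl
      · refine Finset.sum_congr rfl fun k _ => ?_
        rw [Matrix.map_apply, mul_comm, ← Algebra.smul_def, map_smul, smul_eq_mul, mul_comm]
        rfl)
    (fun s hs => by
      funext I
      rw [← aop_form, hk _ (bc_T hM hs)]
      exact map_zero _)
  exact congrFun (congrFun h1 i) j

/-- The infinitesimal stabiliser is determined in degree four. -/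
theorem kkey (h : KPres R Q d)
    (hss : ∀ w, Even w → SSon (MO (NK R 2)) (grw R K 2 w))
    (hcen : ∀ c : Matrix ι ι K, tv Q c ∈ TK R 2 → (∀ a, tv Q a ∈ TK R 2 → a * c = c * a) →
      (∀ s ∈ TK R 2, aop c s = 0) → c = 0)
    {A : Matrix ι ι K} (hA : ∀ m ≤ 4, ∀ s ∈ TK R m, aop A s = 0) {n : ℕ}
    {t : (Fin n → ι) → K} (ht : t ∈ TK R n) : aop A t = 0 := by
  let L := AlgebraicClosure K
  have : CharZero L := charZero_of_injective_algebraMap (algebraMap K L).injective
  have hM : R.M ≤ 2 * R.M := by omega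
  have h1 := lie_of_kill (R := toT (b := 0) R L hM) (h.pres hM)
    (ss_even (L := L) (b := 0) hM hss) (cenL (L := L) (b := 0) hM hcen)
    (x := A.map (algebraMap K L)) (fun m hm s hs =>
      aop_bcS (hA m hm) (T_le (L := L) (b := 0) hM le_rfl hs))
  have h2 := lie_T (bc_T (L := L) (b := 0) hM ht) h1
  rw [aop_bc] at h2
  apply bc_inj (L := L)
  rw [h2]
  funext I
  exact (map_zero _).symm

section main

variable (φ : K →+* ℂ) (h : KPres R Q d)
    (hss : ∀ w, Even w → SSon (MO (NK R 2)) (grw R K 2 w))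
    (hcen : ∀ c : Matrix ι ι K, tv Q c ∈ TK R 2 → (∀ a, tv Q a ∈ TK R 2 → a * c = c * a) →
      (∀ s ∈ TK R 2, aop c s = 0) → c = 0)
    (C : CSys Q) (hCT : ∀ n, C.S n ≤ TK R n)

include φ h hss hcen hCT

/-- **Semisimplicity.** -/
theorem kss (hTS : ∀ n ≤ 4, TK R n ≤ C.S n)
    (hnd : ∀ n ≤ 6, ∀ v ∈ C.S n, (∀ w ∈ C.S n, bf (TP Q n) v w = 0) → v = 0) (n w : ℕ) :
    SSon (MO (NK R n)) (grw R K n w) := by
  let _ : Algebra K ℂ := φ.toAlgebra
  let L := AlgebraicClosure K
  have : CharZero L := charZero_of_injective_algebraMap (algebraMap K L).injective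
  let ψ : L →ₐ[K] ℂ := IsAlgClosed.lift
  let _ : Algebra L ℂ := ψ.toRingHom.toAlgebra
  have hM : R.M ≤ 2 * R.M := by omega
  exact ss_small (L := L) (b := 0) hM (lss (R := toT (b := 0) R L hM) (h.pres hM)
    (ss_even (L := L) (b := 0) hM hss) (cenL (L := L) (b := 0) hM hcen) (exC L C)
    (fun n => by
      change bcS L (C.S n) ≤ _
      rw [bcS, Submodule.span_le]
      rintro _ ⟨t, ht, rfl⟩
      exact bc_T hM (hCT n ht))
    (fun n hn => T_le hM (hTS n hn)) (fun n hn => exC_nd (hnd n hn)) n) w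

/-- The form is nondegenerate on the virtually invariant tensors. -/
theorem knd (hTS : ∀ n ≤ 4, TK R n ≤ C.S n)
    (hnd : ∀ n ≤ 6, ∀ v ∈ C.S n, (∀ w ∈ C.S n, bf (TP Q n) v w = 0) → v = 0) {n : ℕ}
    {v : (Fin n → ι) → K} (hv : v ∈ TK R n) (hw : ∀ w ∈ TK R n, bf (TP Q n) v w = 0) :
    v = 0 := by
  let _ : Algebra K ℂ := φ.toAlgebra
  let L := AlgebraicClosure K
  have : CharZero L := charZero_of_injective_algebraMap (algebraMap K L).injective
  let ψ : L →ₐ[K] ℂ := IsAlgClosed.lift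
  let _ : Algebra L ℂ := ψ.toRingHom.toAlgebra
  have hM : R.M ≤ 2 * R.M := by omega
  have h1 := lnd (R := toT (b := 0) R L hM) (h.pres hM)
    (ss_even (L := L) (b := 0) hM hss) (cenL (L := L) (b := 0) hM hcen) (exC L C)
    (fun n => by
      change bcS L (C.S n) ≤ _
      rw [bcS, Submodule.span_le]
      rintro _ ⟨t, ht, rfl⟩
      exact bc_T hM (hCT n ht))
    (fun n hn => T_le hM (hTS n hn)) (fun n hn => exC_nd (hnd n hn)) (v := bc L v)
    (bc_T hM hv) (by
      intro w hwT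
      refine Submodule.span_induction
        (p := fun w _ => bf (TP (Q.map (algebraMap K L)) n) (bc L v) w = 0) ?_ ?_ ?_ ?_
        (T_le hM le_rfl hwT)
      · rintro _ ⟨u, hu, rfl⟩
        rw [bf_bc, hw u hu, map_zero]
      · simp [bf]
      · intro a b _ _ ha hb
        rw [bf_add_right, ha, hb, add_zero]
      · intro c a _ ha
        rw [bf_smul_right, ha, mul_zero])
  apply bc_inj (L := L)
  rw [h1]
  funext I
  exact (map_zero _).symm

/-- **The index.** -/
theorem kindex (hTS : ∀ n ≤ 4, TK R n ≤ C.S n)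
    (hnd : ∀ n ≤ 6, ∀ v ∈ C.S n, (∀ w ∈ C.S n, bf (TP Q n) v w = 0) → v = 0) (n : ℕ) :
    finrank K (TK R (n + n)) ≤ 4 ^ (Fintype.card ι ^ 2) * finrank K (C.S (n + n)) := by
  have hk : ∀ A : Matrix ι ι K, (∀ m ≤ 4, ∀ s ∈ C.S m, aop A s = 0) →
      ∀ n, ∀ t ∈ TK R n, aop A t = 0 := fun A hA n t ht =>
    kkey h hss hcen (fun m hm s hs => hA m hm s (hTS m hm hs)) ht
  obtain ⟨T₁, hT₁⟩ := C.exists_tsys h.det (M := 4) (by norm_num) hnd
    fun A hA m _ s hs => hk A hA m s (hCT m hs)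
  have hle : ∀ n, T₁.S n ≤ C.S n := fun n => by
    rw [hT₁]
    exact CSys.genS_le _ _
  have hge : ∀ n ≤ 6, C.S n ≤ T₁.S n := fun n hn => by
    rw [hT₁]
    exact CSys.le_genS hn
  have h1 := index_bound T₁ h.det (by rw [hT₁]; exact (C.genS 6).om) (M := 4) (by norm_num)
    (fun A hA m s hs => hk A (fun m hm s hs => hA m hm s (hge m (by omega) hs)) m s
      (hCT m (hle m hs)))
    n (TK R (n + n))
    (fun t ht A hA => hk A (fun m hm s hs => hA m s (hge m (by omega) hs)) _ t ht)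
    (fun v hv hw => knd φ h hss hcen C hCT hTS hnd hv hw)
  exact h1.trans (Nat.mul_le_mul_left _ (Submodule.finrank_mono (hle _)))

/-- **The main theorem over the coefficient field.** -/
theorem kmain (hb : 2 ≤ Fintype.card ι)
    (hTS : ∀ n ≤ Fintype.card ι ^ 3, TK R n ≤ C.S n)
    (hnd : ∀ n ≤ 6, ∀ v ∈ C.S n, (∀ w ∈ C.S n, bf (TP Q n) v w = 0) → v = 0) (n : ℕ) :
    TK R n ≤ C.S n := fun t ht => by
  let _ : Algebra K ℂ := φ.toAlgebra
  let L := AlgebraicClosure K
  have : CharZero L := charZero_of_injective_algebraMap (algebraMap K L).injective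
  let ψ : L →ₐ[K] ℂ := IsAlgClosed.lift
  let _ : Algebra L ℂ := ψ.toRingHom.toAlgebra
  have hM : R.M ≤ 2 * R.M := by omega
  exact of_bc_mem (L := L) (lmain (R := toT (b := 0) R L hM) (h.pres hM)
    (ss_even (L := L) (b := 0) hM hss) (cenL (L := L) (b := 0) hM hcen) (exC L C)
    (fun n => by
      change bcS L (C.S n) ≤ _
      rw [bcS, Submodule.span_le]
      rintro _ ⟨t, ht, rfl⟩
      exact bc_T hM (hCT n ht))
    hb (fun n hn => T_le hM (hTS n hn)) (fun n hn => exC_nd (hnd n hn)) n (bc_T hM ht))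

end main

end Pool.Agent.Q60.TP
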