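import Pool.Agent.Q60.TP.Nd
import Pool.Agent.Q60.TP.KMain

/-!
# Nondegeneracy of the form on the smaller system in all degrees
-/

set_option linter.unusedSectionVars false

namespace Pool.Agent.Q60.TP

open Module Matrix Pool.Agent.Q60.ED Pool.Agent.Q60.TD Pool.Agent.Q60.NP Pool.Agent.Q60.FI

variable {ι : Type} [Fintype ι] [DecidableEq ι]

/-- **Nondegeneracy over the complex numbers.** -/
theorem CHyp.C_nd {Q : Matrix ι ι ℂ} {s : ι → ℂ} {C : CSys Q}
    {T : ∀ n : ℕ, Submodule ℂ ((Fin n → ι) → ℂ)} (H : CHyp Q s C T)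
    (hTS : ∀ n ≤ 4, T n ≤ C.S n)
    (hnd : ∀ n ≤ 6, ∀ v ∈ C.S n, (∀ w ∈ C.S n, bf (TP Q n) v w = 0) → v = 0) {n : ℕ}
    {v : (Fin n → ι) → ℂ} (hv : v ∈ C.S n) (h : ∀ w ∈ C.S n, bf (TP Q n) v w = 0) : v = 0 := by
  obtain ⟨B, k, S, hkd, hB, D, -, hup⟩ :=
    H.exists_pos (M := 4) le_rfl le_rfl (by norm_num) hTS hnd
  subst hB
  have h1 := D.C_nd (conjS C hkd) hup (fun n => Submodule.map_mono (H.le n)) (n := n)
    (t := tpow k n v) ⟨v, hv, rfl⟩ (by
    rintro _ ⟨w, hw, rfl⟩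
    rw [bf_conj hkd]
    exact h w hw)
  exact tp_inj hkd (h1.trans (map_zero _).symm)

/-- Descent of nondegeneracy. -/
lemma nd_of_exC {K : Type} [Field K] {F : Type} [Field F] [Algebra K F] {Q : Matrix ι ι K}
    {C : CSys Q} {n : ℕ}
    (h : ∀ v ∈ (exC F C).S n, (∀ w ∈ (exC F C).S n,
      bf (TP (Q.map (algebraMap K F)) n) v w = 0) → v = 0) :
    ∀ v ∈ C.S n, (∀ w ∈ C.S n, bf (TP Q n) v w = 0) → v = 0 := by
  intro v hv hw
  have h1 := h (bc F v) (bc_mem hv) (by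
      intro w hwT
      refine Submodule.span_induction
        (p := fun w _ => bf (TP (Q.map (algebraMap K F)) n) (bc F v) w = 0) ?_ ?_ ?_ ?_ hwT
      · rintro _ ⟨u, hu, rfl⟩
        rw [bf_bc, hw u hu, map_zero]
      · simp [bf]
      · intro a b _ _ ha hb
        rw [bf_add_right, ha, hb, add_zero]
      · intro c a _ ha
        rw [bf_smul_right, ha, mul_zero])
  apply bc_inj (L := F)
  rw [h1]
  funext I
  exact (map_zero _).symm

variable {K : Type} [Field K] [CharZero K] {Γ : Type*} [Group Γ] {R : MRep K ι Γ}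
  {Q : Matrix ι ι K} {d : ℕ}

/-- **The form is nondegenerate on the smaller system in all degrees.** -/
theorem kCnd (φ : K →+* ℂ) (h : KPres R Q d)
    (hss : ∀ w, Even w → SSon (MO (NK R 2)) (grw R K 2 w))
    (hcen : ∀ c : Matrix ι ι K, tv Q c ∈ TK R 2 → (∀ a, tv Q a ∈ TK R 2 → a * c = c * a) →
      (∀ s ∈ TK R 2, aop c s = 0) → c = 0)
    (C : CSys Q) (hCT : ∀ n, C.S n ≤ TK R n) (hTS : ∀ n ≤ 4, TK R n ≤ C.S n)
    (hnd : ∀ n ≤ 6, ∀ v ∈ C.S n, (∀ w ∈ C.S n, bf (TP Q n) v w = 0) → v = 0) (n : ℕ) :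
    ∀ v ∈ C.S n, (∀ w ∈ C.S n, bf (TP Q n) v w = 0) → v = 0 := by
  let _ : Algebra K ℂ := φ.toAlgebra
  let L := AlgebraicClosure K
  have : CharZero L := charZero_of_injective_algebraMap (algebraMap K L).injective
  let ψ : L →ₐ[K] ℂ := IsAlgClosed.lift
  let _ : Algebra L ℂ := ψ.toRingHom.toAlgebra
  have hM : R.M ≤ 2 * R.M := by omega
  have H := chyp (R := toT (b := 0) R L hM) (h.pres hM)
    (ss_even (L := L) (b := 0) hM hss) (cenL (L := L) (b := 0) hM hcen) (exC L C)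
    (fun n => by
      change bcS L (C.S n) ≤ _
      rw [bcS, Submodule.span_le]
      rintro _ ⟨t, ht, rfl⟩
      exact bc_T hM (hCT n ht))
  exact nd_of_exC (F := L) (nd_of_exC (F := ℂ) fun v hv hw =>
    H.C_nd (fun n hn => bcS_mono (T_le hM (hTS n hn)))
      (fun n hn => exC_nd (exC_nd (hnd n hn))) hv hw)

end Pool.Agent.Q60.TP
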