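import Pool.Agent.Q60.TP.Op
import Pool.Agent.Q60.TP.NdK
import Pool.Agent.Q60.TD.Half

/-!
# Semisimplicity, the index and the power `X ^ (b ^ 3)`
-/

open CategoryTheory AlgebraicGeometry TensorProduct

set_option linter.unusedSectionVars false

universe u v w

namespace Pool.Agent.Q60.TP

open Module Matrix
open Pool.Agent.H914 Pool.Agent.H914.VarClass Pool.Agent.H914.VarClass.Obj
  Pool.Agent.H914.WeilCohomology
open Pool.Agent.Y133.Half Pool.Agent.Y121.AH Pool.Agent.Q60.ED Pool.Agent.Q55 Pool.Agent.H447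
open Pool.Agent.Q56.FD Pool.Agent.H281R3.HT Pool.Agent.W536.RR Pool.Agent.Q60.TD
open Pool.Agent.Q60.NP

/-- Left nondegeneracy implies right nondegeneracy. -/
lemma right_nd {K B : Type} [Field K] [Fintype B] [DecidableEq B] {M : Matrix B B K}
    {U : Submodule K (B → K)} (h : ∀ v ∈ U, (∀ w ∈ U, bf M v w = 0) → v = 0) {v : B → K}
    (hv : v ∈ U) (hw : ∀ w ∈ U, bf M w v = 0) : v = 0 := by
  let Φ : U →ₗ[K] Module.Dual K U :=
    { toFun := fun x =>
        { toFun := fun y => bf M x.1 y.1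
          map_add' := fun y z => bf_add_right _ _ _ _
          map_smul' := fun c y => bf_smul_right _ _ _ _ }
      map_add' := fun x y => LinearMap.ext fun z => bf_add_left _ _ _ _
      map_smul' := fun c x => LinearMap.ext fun z => bf_smul_left _ _ _ _ }
  have hinj : Function.Injective Φ := by
    rw [injective_iff_map_eq_zero]
    intro x hx
    apply Subtype.ext
    exact h x.1 x.2 fun w hw => LinearMap.congr_fun hx ⟨w, hw⟩
  have hsur : Function.Surjective Φ :=
    (LinearMap.injective_iff_surjective_of_finrank_eq_finrank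
      (Subspace.dual_finrank_eq (K := K) (V := U)).symm).1 hinj
  by_contra hne
  have h1 : ∃ l : Module.Dual K U, l ⟨v, hv⟩ ≠ 0 := by
    by_contra hcon
    push Not at hcon
    exact hne (congrArg Subtype.val ((Module.forall_dual_apply_eq_zero_iff K
      (⟨v, hv⟩ : U)).1 hcon))
  obtain ⟨l, hl⟩ := h1
  obtain ⟨x, rfl⟩ := hsur l
  exact hl (hw x.1 x.2)

variable {k : Type u} [Field k] {𝒱 : VarClass k} {ops : CycleOps 𝒱}
  {W : WeilCohomology.{u, 0} ops} {X Y Z : 𝒱.Obj}

/-- Nondegeneracy on tensors and numerically trivial classes. -/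
lemma num_of_nd {ι : Type} [Fintype ι] [DecidableEq ι] (e : Basis ι W.K (W.H X)) {a : ι → ℕ}
    {S : Sys W} (he : ∀ j, e j ∈ PH W X (a j)) (hpar : par (W.isInternal X) ∈ S.Op X X) {n : ℕ}
    (h : ∀ v ∈ crdK e S (n + 1), (∀ w ∈ crdK e S (n + 1), bf (TP (QW e) (n + 1)) v w = 0) →
      v = 0) : S.Num (pw X n) = ⊥ := by
  rw [eq_bot_iff]
  intro c hc
  rw [Submodule.mem_bot]
  obtain ⟨Ψ, hΨ, hb⟩ := exists_psiK e he hpar (Q := QW e) (fun i j => rfl) n
  have h1 : tn e n c = 0 := by
    refine right_nd h ((mem_crdK_succ (e := e)).2 (by rw [clsK_tn]; exact hc.1)) fun w hw => ?_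
    rw [bf_cls e hb, clsK_tn]
    have h2 : Ψ (clsK e (prj X n) w) ∈ S.C (pw X n) :=
      Sys.Op.apply (T := S) (fun _ => le_rfl) hΨ ((mem_crdK_succ (e := e)).1 hw)
    rw [PH.even_comm (S.even h2)]
    exact hc.2 _ h2
  rw [← clsK_tn e n c, h1, clsK_zero]

variable {Γ : Type w} [Group Γ] {G : GaloisAction W Γ}

/-- Everything holds if the cohomology has dimension at most one. -/
lemma strong_le_one (h : finrank W.K (W.H X) ≤ 1) (n : ℕ) :
    (∀ i, SemisimpleAt G (pw X n) i) ∧ TateConj G (pw X n) := by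
  rcases Nat.lt_or_ge (finrank W.K (W.H X)) 1 with h0 | h1
  · exact strong_zero (by omega) n
  have h2 : finrank W.K (W.H (pw X n)) = 1 := by rw [finrank_pw, le_antisymm h h1, one_pow]
  have hnt : Nontrivial (W.H (pw X n)) :=
    Module.nontrivial_of_finrank_pos (R := W.K) (by omega)
  refine ⟨fun i V hV hs => ?_, ?_⟩
  · by_cases hV0 : V = ⊥
    · refine ⟨W.gr _ i, le_rfl, fun g hg c hc => (G.isGalois _).gr_mem g hg i c hc, ?_, ?_⟩
      · rw [hV0, bot_inf_eq]
      · rw [hV0, bot_sup_eq]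
    · have hVt : V = ⊤ := by
        obtain ⟨x, hx, hx0⟩ := Submodule.exists_mem_ne_zero_of_ne_bot hV0
        rw [eq_top_iff]
        intro y _
        obtain ⟨a, ha⟩ := (finrank_eq_one_iff_of_nonzero' x hx0).1 h2 y
        rw [← ha]
        exact V.smul_mem a hx
      refine ⟨⊥, bot_le, fun g _ c hc => ?_, inf_bot_eq _, ?_⟩
      · rw [Submodule.mem_bot] at hc ⊢
        rw [hc, map_zero]
      · rw [sup_bot_eq]
        exact le_antisymm hV (by rw [hVt]; exact le_top)
  · apply (ClassPred.sp_eq_iff (Q := tatePred G) (pw X n)).1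
    apply le_antisymm _ ClassPred.alg_le
    intro c _
    obtain ⟨a, rfl⟩ := (finrank_eq_one_iff_of_nonzero' (1 : W.H (pw X n)) one_ne_zero).1 h2 c
    exact Submodule.smul_mem _ _ ((algSys W).one _)

lemma tateDim_eq (Z : 𝒱.Obj) : tateDim G Z = finrank W.K ((tatePred G).sys.C Z) := rfl

lemma cycRank_of_num (h : (algSys W).Num Z = ⊥) :
    cycRank ops Z = finrank W.K ((algSys W).C Z) := by
  rw [← numDim_eq_cycRank W]
  have e3 := (algSys W).a_add_num Z
  rw [h, finrank_bot, add_zero] at e3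
  exact e3

/-- The dimensions are equal if the Tate conjecture holds and homological and numerical
equivalence agree. -/
lemma tateDim_le_of (hT : TateConj G Z) (hN : HomEqNum W Z) : tateDim G Z = cycRank ops Z := by
  rw [cycRank_of_num ((homEqNum_iff _).1 hN), tateDim_eq]
  have h1 := (ClassPred.sp_eq_iff (Q := tatePred G) Z).2 hT
  rw [h1]
  rfl

section main

variable {ι : Type} [Fintype ι] [DecidableEq ι] {e : Basis ι W.K (W.H X)} {a : ι → ℕ}

lemma alg_le_TK (he : ∀ j, e j ∈ W.gr X (a j)) (m : ℕ) :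
    crdK e (algSys W) m ≤ TK (toM G e he) m := by
  rw [TK_eq]
  exact crdK_mono e (fun Z => ClassPred.alg_le (Q := tatePred G)) m

lemma TK_le_alg (he : ∀ j, e j ∈ W.gr X (a j)) {m : ℕ} (hm : ∀ l, m = l + 1 → TateConj G (pw X l)) :
    TK (toM G e he) m ≤ crdK e (algSys W) m := by
  cases m with
  | zero => exact fun t _ => mem_crdK_zero e t
  | succ m =>
    rw [TK_eq]
    intro t ht
    rw [mem_crdK_succ] at ht ⊢
    have h1 := (ClassPred.sp_eq_iff (Q := tatePred G) (pw X m)).2 (hm m rfl)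
    rw [h1] at ht
    exact ht

lemma tate_of_TK_le (he : ∀ j, e j ∈ W.gr X (a j)) {n : ℕ}
    (h : TK (toM G e he) (n + 1) ≤ crdK e (algSys W) (n + 1)) : TateConj G (pw X n) := by
  apply (ClassPred.sp_eq_iff (Q := tatePred G) (pw X n)).1
  apply le_antisymm _ ClassPred.alg_le
  intro c hc
  have h3 : tn e n c ∈ TK (toM G e he) (n + 1) := by
    rw [TK_eq, mem_crdK_succ, clsK_tn]
    exact hc
  have h4 := h h3
  rw [mem_crdK_succ, clsK_tn] at h4
  exact h4

end main

section low

variable (φ : W.K →+* ℂ) (hc : TateCentre G X) {D : X.Cycles} (hD : X.IsCyc 1 D)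
    (hHL : HardLefschetz W X D) (h2 : ∀ j, SemisimpleAt G (pw X 1) (2 * j))
    (h4 : TateConj G (pw X 3)) (h6 : HomEqNum W (pw X 5))

include φ hc hD hHL h2 h4 h6

lemma homEqNum_le {m n : ℕ} (h : m ≤ n) (hn : HomEqNum W (pw X n)) : HomEqNum W (pw X m) := by
  obtain ⟨s, p, hsp⟩ := exists_retract (X := X) h
  rw [homEqNum_iff] at hn ⊢
  rw [eq_bot_iff]
  intro c hc'
  have h1 : W.map p c ∈ (algSys W).Num (pw X n) := Sys.Num.map p hc'
  rw [hn, Submodule.mem_bot] at h1
  have h3 : W.map s (W.map p c) = c := by rw [← W.map_comp, hsp, W.map_id]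
  rw [Submodule.mem_bot, ← h3, h1, map_zero]

/-- **The consequences of the low powers.** Semisimplicity for the square, the Tate conjecture for
the fourth power and the conjecture D for the sixth power imply semisimplicity and the conjecture
D for all powers, and bound the index; and the Tate conjecture for `X ^ (b ^ 3)` decides. -/
theorem low : (∀ n, (∀ i, SemisimpleAt G (pw X n) i) ∧ HomEqNum W (pw X n)) ∧
    (∀ n, tateDim G (pw X (2 * n + 1)) ≤
      4 ^ (finrank W.K (W.H X) ^ 2) * cycRank ops (pw X (2 * n + 1))) ∧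
    ∀ N, finrank W.K (W.H X) ^ 3 ≤ N + 1 → TateConj G (pw X N) → ∀ n, TateConj G (pw X n) := by
  classical
  rcases Nat.lt_or_ge (finrank W.K (W.H X)) 2 with hb | hb
  · have h2 := fun n => strong_le_one (G := G) (X := X) (by omega) n
    have h3 : ∀ n, HomEqNum W (pw X n) := fun n =>
      homEqNum_of_strong G ⟨fun j => (h2 n).1 _, (h2 n).2⟩
    refine ⟨fun n => ⟨(h2 n).1, h3 n⟩, fun n => ?_, fun _ _ _ n => (h2 n).2⟩
    rw [tateDim_le_of (h2 _).2 (h3 _)]
    exact Nat.le_mul_of_pos_left _ (by positivity)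
  have hX : Nontrivial (W.H X) := Module.nontrivial_of_finrank_pos (R := W.K) (by omega)
  have hb3 : 8 ≤ finrank W.K (W.H X) ^ 3 := by
    calc 8 = 2 ^ 3 := by norm_num
      _ ≤ _ := Nat.pow_le_pow_left hb 3
  obtain ⟨e, a, he⟩ := exists_grbasis W X
  have he' : ∀ j, e j ∈ PH W X (a j) := fun j => PH.of (he j)
  have hsqN : HomEqNum W (X.prod X) := homEqNum_le φ hc hD hHL h2 h4 h6 (m := 1) (by omega) h6
  have hB : LefschetzB W X D := lefschetzB_of_square hD hHL hsqN
  have hpar := par_alg hD hHL hB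
  have hparT : par (W.isInternal X) ∈ (tatePred G).sys.Op X X :=
    (Submodule.map_mono (ClassPred.alg_le (Q := tatePred G)) :
      (algSys W).Op X X ≤ (tatePred G).sys.Op X X) hpar
  have hcard : Fintype.card (Fin (finrank W.K (W.H X))) = finrank W.K (W.H X) :=
    Fintype.card_fin _
  have hK := toM_pres G he
  have hss : ∀ w, Even w → SSon (MO (NK (toM G e he) 2)) (grw (toM G e he) W.K 2 w) := by
    intro w hw
    obtain ⟨j, hj⟩ := hw
    obtain rfl : w = 2 * j := by omega
    exact ss_tensor G he (n := 1) ((ssAt_iff G).1 (h2 j))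
  have hcen := cenK G he hparT hc
  have hCT : ∀ m, (cs e he' hpar).S m ≤ TK (toM G e he) m := alg_le_TK he
  have hTS : ∀ m ≤ 4, TK (toM G e he) m ≤ (cs e he' hpar).S m := fun m hm =>
    TK_le_alg he fun l hl => conj_le (by omega) h4
  have hnd : ∀ m ≤ 6, ∀ v ∈ (cs e he' hpar).S m, (∀ w ∈ (cs e he' hpar).S m,
      bf (TP (QW e) m) v w = 0) → v = 0 := fun m hm => crdK_nd1 e he' hpar fun l hl =>
    (homEqNum_iff _).1 (homEqNum_le φ hc hD hHL h2 h4 h6 (by omega) h6)
  have hS : ∀ n i, SemisimpleAt G (pw X n) i := fun n i => (ssAt_iff G).2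
    (ss_coh G he (kss φ hK hss hcen _ hCT hTS hnd (n + 1) i))
  have hN : ∀ n, (algSys W).Num (pw X n) = ⊥ := fun n => num_of_nd e he' hpar
    (kCnd φ hK hss hcen _ hCT hTS hnd (n + 1))
  refine ⟨fun n => ⟨hS n, (homEqNum_iff _).2 (hN n)⟩, fun n => ?_, fun N hbN hTN n => ?_⟩
  · have h5 := kindex φ hK hss hcen _ hCT hTS hnd (n + 1)
    rw [hcard] at h5
    rw [tateDim_eq, cycRank_of_num (hN _)]
    have e1 : n + 1 + (n + 1) = 2 * n + 1 + 1 := by ring
    have key : ∀ (S : Sys W) (m : ℕ), finrank W.K (crdK e S (m + 1)) =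
        finrank W.K (S.C (pw X m)) := by
      intro S m
      have h7 : (crdK e S (m + 1)).map ((wb e m).equivFun.symm : _ →ₗ[W.K] _) =
          S.C (pw X m) := by
        ext c
        constructor
        · rintro ⟨t, ht, rfl⟩
          have h8 := (mem_crdK_succ (e := e)).1 ht
          rw [clsK_prj] at h8
          exact h8
        · intro hc
          refine ⟨tn e m c, (mem_crdK_succ (e := e)).2 (by rw [clsK_tn]; exact hc), ?_⟩
          change (wb e m).equivFun.symm (tn e m c) = c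
          rw [← clsK_prj, clsK_tn]
      rw [← h7, LinearEquiv.finrank_map_eq]
    rw [← key, ← key, ← TK_eq G he]
    rw [e1] at h5
    exact h5
  · exact tate_of_TK_le he (kmain φ hK hss hcen _ hCT (by rw [hcard]; exact hb)
      (fun m hm => by
        rw [hcard] at hm
        exact TK_le_alg he fun l hl => conj_le (by omega) hTN) hnd (n + 1))

end low

/-- **The Tate conjecture for the power `X ^ (b ^ 3)` decides**, if there are no central skew
elements and the cohomology of the sixth power in even degrees is semisimple. -/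
theorem cube (φ : W.K →+* ℂ) (hc : TateCentre G X) {D : X.Cycles} (hD : X.IsCyc 1 D)
    (hHL : HardLefschetz W X D) (hss : ∀ j, SemisimpleAt G (pw X 5) (2 * j)) {N : ℕ}
    (hN : finrank W.K (W.H X) ^ 3 ≤ N + 1) (hT : TateConj G (pw X N)) (n : ℕ) :
    ((∀ i, SemisimpleAt G (pw X n) i) ∧ TateConj G (pw X n)) ∧ HomEqNum W (pw X n) := by
  classical
  rcases Nat.lt_or_ge (finrank W.K (W.H X)) 2 with hb | hb
  · have h2 := strong_le_one (G := G) (X := X) (by omega) n
    exact ⟨h2, homEqNum_of_strong G ⟨fun j => h2.1 _, h2.2⟩⟩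
  have hb3 : 8 ≤ finrank W.K (W.H X) ^ 3 := by
    calc 8 = 2 ^ 3 := by norm_num
      _ ≤ _ := Nat.pow_le_pow_left hb 3
  have h6 : StrongTate G (pw X 5) := ⟨hss, conj_le (by omega) hT⟩
  obtain ⟨h1, -, h3⟩ := low φ hc hD hHL (strong_le (m := 1) (by omega) h6).1
    (conj_le (by omega) hT) (homEqNum_of_strong G h6)
  exact ⟨⟨(h1 n).1, h3 N hN hT n⟩, (h1 n).2⟩

end Pool.Agent.Q60.TP
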