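import Pool.Agent.Q60.TP.Trans

/-!
# The theorem over the complex numbers in arbitrary coordinates
-/

set_option linter.unusedSectionVars false

namespace Pool.Agent.Q60.TP

open Module Matrix Pool.Agent.Q60.ED Pool.Agent.Q60.TD Pool.Agent.Q60.NP Pool.Agent.Q60.FI
open Pool.Agent.Q55.Ke (Aut mem_Aut om tpow_zero tpow_tmul tpow_perm mat2_inj mat2_om J0 Aut_om
  det_Aut det_of_unitary inv_mem_Aut exists_unitary)

variable {ι : Type} [Fintype ι] [DecidableEq ι]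

/-- The data of the theorem. -/
structure CHyp (Q : Matrix ι ι ℂ) (s : ι → ℂ) (C : CSys Q)
    (T : ∀ n : ℕ, Submodule ℂ ((Fin n → ι) → ℂ)) : Prop where
  det : Q.det ≠ 0
  pm : ∀ i, s i = 1 ∨ s i = -1
  symm : Qᵀ = Q * diagonal s
  comm : diagonal s * Q = Q * diagonal s
  le : ∀ n, C.S n ≤ T n
  even : ∀ n, ∀ t ∈ T n, tpow (diagonal s) n t = t
  key : ∀ X : Matrix ι ι ℂ, (∀ m ≤ 4, ∀ t ∈ T m, aop X t = 0) → Lie T X
  mem : ∀ n (t : (Fin n → ι) → ℂ), tpow (diagonal s) n t = t →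
    (∀ X, Lie T X → aop X t = 0) → t ∈ T n

lemma diag_pm {s : ι → ℂ} (h : ∀ i, s i = 1 ∨ s i = -1) :
    diagonal s * diagonal s = 1 ∧ (diagonal s)ᴴ = diagonal s ∧
      Pool.Agent.W552.cj (diagonal s) = diagonal s := by
  have h1 : ∀ i, starRingEnd ℂ (s i) = s i := by
    intro i
    rcases h i with h | h <;> rw [h] <;> simp
  refine ⟨?_, ?_, ?_⟩
  · rw [diagonal_mul_diagonal, ← diagonal_one]
    congr 1
    funext i
    rcases h i with h | h <;> rw [h] <;> norm_num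
  · rw [diagonal_conjTranspose]
    congr 1
    funext i
    exact h1 i
  · ext i j
    change starRingEnd ℂ (diagonal s i j) = _
    by_cases hij : i = j
    · subst hij
      rw [diagonal_apply_eq, h1]
    · rw [diagonal_apply_ne _ hij, map_zero]

namespace CHyp

variable {Q : Matrix ι ι ℂ} {s : ι → ℂ} {C : CSys Q}
  {T : ∀ n : ℕ, Submodule ℂ ((Fin n → ι) → ℂ)} (H : CHyp Q s C T)

include H

/-- **The position of minimal length.** -/
theorem exists_pos {M M' : ℕ} (hM4 : 4 ≤ M) (hM' : 4 ≤ M') (hMM : M' ≤ M + 2)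
    (hTS : ∀ n ≤ M', T n ≤ C.S n)
    (hnd : ∀ n ≤ M + 2, ∀ v ∈ C.S n,
      (∀ w ∈ C.S n, bf (TP Q n) v w = 0) → v = 0) :
    ∃ (B k : Matrix ι ι ℂ) (S : TSys ℂ ι), k.det ≠ 0 ∧ B = (k⁻¹)ᵀ * Q * k⁻¹ ∧
      CData B (diagonal s) S (fun n => mv k (T n)) ∧
      (∀ n ≤ M', mv k (T n) ≤ S.S n) ∧ ∀ n, S.S n ≤ mv k (C.S n) := by
  obtain ⟨hσ2, hσh, hσr⟩ := diag_pm H.pm
  have hQu : IsUnit Q := (Matrix.isUnit_iff_isUnit_det Q).2 (isUnit_iff_ne_zero.2 H.det)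
  obtain ⟨P, hPu, hσP, hU⟩ := exists_unitary hQu hσ2 hσr H.symm H.comm
  have hPd : IsUnit P.det := (Matrix.isUnit_iff_isUnit_det P).1 hPu
  set k₁ := P⁻¹ with hk₁
  have hk₁d : k₁.det ≠ 0 := (Matrix.isUnit_nonsing_inv_det _ hPd).ne_zero
  have hk₁i : k₁⁻¹ = P := nonsing_inv_nonsing_inv _ hPd
  set U := (k₁⁻¹)ᵀ * Q * k₁⁻¹ with hUdef
  have hUP : U = Pᵀ * Q * P := by rw [hUdef, hk₁i]
  have hUU : Uᴴ * U = 1 := by rw [hUP]; exact hU
  have hUd : U.det ≠ 0 := det_of_unitary hUU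
  let C₁ : CSys U := conjS C hk₁d
  have hC₁ : ∀ n, C₁.S n = mv k₁ (C.S n) := fun n => rfl
  have hnd₁ : ∀ n ≤ M + 2, ∀ v ∈ C₁.S n, (∀ w ∈ C₁.S n, bf (TP U n) v w = 0) → v = 0 :=
    fun n hn => conjS_nd hk₁d (hnd n hn)
  have hst : ∀ A : Matrix ι ι ℂ, (∀ m ≤ M, ∀ t ∈ C₁.S m, aop A t = 0) →
      ∀ m ≤ M + 2, ∀ t ∈ C₁.S m, aop A t = 0 := by
    intro A hA m _ t ht
    have h1 : Lie T (k₁⁻¹ * A * k₁) := by
      apply H.key
      intro j hj u hu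
      have h2 : tpow k₁ j u ∈ C₁.S j := ⟨u, hTS j (by omega) hu, rfl⟩
      have h3 := hA j (by omega) _ h2
      rw [aop_conjk hk₁d] at h3
      exact tp_inj hk₁d (h3.trans (map_zero _).symm)
    obtain ⟨u, hu, rfl⟩ := ht
    rw [aop_conjk hk₁d, h1 m u (H.le m hu), map_zero]
  obtain ⟨T₁, hT₁⟩ := C₁.exists_tsys hUd (by omega : 2 ≤ M) hnd₁ hst
  obtain ⟨g, hg, hJ⟩ := exists_kn hUU hT₁
  have hgd := det_Aut hUd hg
  have hkd : (g * k₁).det ≠ 0 := by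
    rw [det_mul]
    exact mul_ne_zero hgd hk₁d
  have hmv : ∀ {n : ℕ} (V : Submodule ℂ ((Fin n → ι) → ℂ)), mv (g * k₁) V = mv g (mv k₁ V) := by
    intro n V
    ext t
    constructor
    · rintro ⟨u, hu, rfl⟩
      exact ⟨_, ⟨u, hu, rfl⟩, (tpow_mul _ _ _ _).symm⟩
    · rintro ⟨_, ⟨u, hu, rfl⟩, rfl⟩
      exact ⟨u, hu, tpow_mul _ _ _ _⟩
  -- the symmetry
  have hUσ : Uᵀ = U * diagonal s := by
    rw [hUP, transpose_mul, transpose_mul, transpose_transpose, H.symm, Matrix.mul_assoc,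
      Matrix.mul_assoc, hσP]
    simp only [Matrix.mul_assoc]
  have hgσ : diagonal s * g = g * diagonal s := by
    have h1 := mem_Aut.1 hg
    have h2 := congrArg Matrix.transpose h1
    rw [transpose_mul, transpose_mul, transpose_transpose, hUσ] at h2
    have hUu := isUnit_iff_ne_zero.2 hUd
    have hgu := isUnit_iff_ne_zero.2 hgd
    have h3 : gᵀ * U = U * g⁻¹ := by
      calc gᵀ * U = gᵀ * U * (g * g⁻¹) := by rw [mul_nonsing_inv _ hgu, Matrix.mul_one]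
        _ = (gᵀ * U * g) * g⁻¹ := by simp only [Matrix.mul_assoc]
        _ = _ := by rw [h1]
    have h4 : U * (g⁻¹ * diagonal s * g) = U * diagonal s := by
      rw [← h2]
      calc U * (g⁻¹ * diagonal s * g) = (U * g⁻¹) * diagonal s * g := by
            simp only [Matrix.mul_assoc]
        _ = _ := by rw [← h3]; simp only [Matrix.mul_assoc]
    have h5 := congrArg (fun M => g * (U⁻¹ * M)) h4
    simp only [← Matrix.mul_assoc, nonsing_inv_mul _ hUu, mul_nonsing_inv _ hgu,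
      Matrix.one_mul] at h5
    exact h5
  have hkσ : diagonal s * (g * k₁) = (g * k₁) * diagonal s := by
    have h1 : diagonal s * k₁ = k₁ * diagonal s := by
      calc diagonal s * k₁ = (k₁ * P) * diagonal s * k₁ := by
            rw [hk₁, nonsing_inv_mul _ hPd, Matrix.one_mul]
        _ = k₁ * (diagonal s * P) * k₁ := by rw [hσP]; simp only [Matrix.mul_assoc]
        _ = k₁ * diagonal s * (P * k₁) := by simp only [Matrix.mul_assoc]
        _ = _ := by rw [hk₁, mul_nonsing_inv _ hPd, Matrix.mul_one]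
    rw [← Matrix.mul_assoc, hgσ, Matrix.mul_assoc, h1, Matrix.mul_assoc]
  have hlow : ∀ n ≤ M', mv (g * k₁) (T n) ≤ (conjT T₁ hgd).S n := by
    intro n hn t ht
    rw [hmv] at ht
    obtain ⟨_, ⟨u, hu, rfl⟩, rfl⟩ := ht
    refine ⟨_, ?_, rfl⟩
    rw [hT₁]
    exact CSys.le_genS (by omega) ⟨u, hTS n hn hu, rfl⟩
  have hup : ∀ n, (conjT T₁ hgd).S n ≤ mv (g * k₁) (C.S n) := by
    rintro n _ ⟨u, hu, rfl⟩
    rw [hT₁] at hu
    rw [hmv]
    exact ⟨u, CSys.genS_le _ _ hu, rfl⟩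
  have hmono : ∀ {n : ℕ} {V V' : Submodule ℂ ((Fin n → ι) → ℂ)}, V ≤ V' →
      mv (g * k₁) V ≤ mv (g * k₁) V' := fun h => Submodule.map_mono h
  have hUgk : U = ((g * k₁)⁻¹)ᵀ * Q * (g * k₁)⁻¹ := by
    have hgu := isUnit_iff_ne_zero.2 hgd
    have h1 : (g⁻¹)ᵀ * U * g⁻¹ = U := mem_Aut.1 (inv_mem_Aut hUd hg)
    rw [Matrix.mul_inv_rev, transpose_mul]
    calc U = (g⁻¹)ᵀ * ((k₁⁻¹)ᵀ * Q * k₁⁻¹) * g⁻¹ := h1.symm
      _ = _ := by simp only [Matrix.mul_assoc]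
  refine ⟨U, g * k₁, conjT T₁ hgd, hkd, hUgk, ?_, hlow, hup⟩
  refine
    { uni := hUU
      symm := hUσ
      σuni := ?_
      om := ?_
      J0S := ?_
      le := fun n => (hup n).trans (hmono (H.le n))
      even := ?_
      low := fun n hn => hlow n (by omega)
      key := ?_
      mem := ?_ }
  · rw [Matrix.mem_unitaryGroup_iff', Matrix.star_eq_conjTranspose, hσh, hσ2]
  · refine ⟨om U, ?_, (Aut_om hUd).1 hg⟩
    rw [hT₁]
    exact (C₁.genS (M + 2)).om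
  · rintro n _ ⟨t, ht, rfl⟩
    obtain ⟨u, hu, h⟩ := hJ n t ht
    rw [h]
    exact ⟨u, hu, rfl⟩
  · rintro n _ ⟨t, ht, rfl⟩
    rw [← tpow_mul, hkσ, tpow_mul, H.even n t ht]
  · intro X hX
    have h1 : Lie T ((g * k₁)⁻¹ * X * (g * k₁)) := by
      apply H.key
      intro j hj u hu
      have h3 := hX j hj _ ⟨u, hu, rfl⟩
      rw [aop_conjk hkd] at h3
      exact tp_inj hkd (h3.trans (map_zero _).symm)
    rintro n _ ⟨u, hu, rfl⟩
    rw [aop_conjk hkd, h1 n u hu, map_zero]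
  · intro n t ht hX
    refine ⟨tpow (g * k₁)⁻¹ n t, ?_, tp_tp_inv hkd _⟩
    apply H.mem
    · apply tp_inj hkd
      rw [← tpow_mul, ← hkσ, tpow_mul, tp_tp_inv hkd, ht]
    · intro X hXL
      have h1 : Lie (fun n => mv (g * k₁) (T n)) ((g * k₁) * X * (g * k₁)⁻¹) := by
        rintro m _ ⟨u, hu, rfl⟩
        have h2 : (g * k₁)⁻¹ * ((g * k₁) * X * (g * k₁)⁻¹) * (g * k₁) = X := by
          have hu := isUnit_iff_ne_zero.2 hkd
          calc (g * k₁)⁻¹ * ((g * k₁) * X * (g * k₁)⁻¹) * (g * k₁) =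
              ((g * k₁)⁻¹ * (g * k₁)) * X * ((g * k₁)⁻¹ * (g * k₁)) := by
                simp only [Matrix.mul_assoc]
            _ = X := by rw [nonsing_inv_mul _ hu, Matrix.one_mul, Matrix.mul_one]
        rw [aop_conjk hkd, h2, hXL m u hu, map_zero]
      have h2 := hX _ h1
      have h3 : (g * k₁) * X = ((g * k₁) * X * (g * k₁)⁻¹) * (g * k₁) := by
        rw [Matrix.mul_assoc _ (g * k₁)⁻¹, nonsing_inv_mul _ (isUnit_iff_ne_zero.2 hkd),
          Matrix.mul_one]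
      apply tp_inj hkd
      rw [tpow_aop h3, tp_tp_inv hkd, h2, map_zero]

/-- The form is nondegenerate on the tensors of the larger system. -/
theorem T_nd (hTS : ∀ n ≤ 4, T n ≤ C.S n)
    (hnd : ∀ n ≤ 6, ∀ v ∈ C.S n, (∀ w ∈ C.S n, bf (TP Q n) v w = 0) → v = 0) {n : ℕ}
    {v : (Fin n → ι) → ℂ} (hv : v ∈ T n) (h : ∀ w ∈ T n, bf (TP Q n) v w = 0) : v = 0 := by
  obtain ⟨B, k, S, hkd, hB, D, -, -⟩ :=
    H.exists_pos (M := 4) le_rfl le_rfl (by norm_num) hTS hnd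
  have h1 := D.T_nd (n := n) (v := tpow k n v) ⟨v, hv, rfl⟩ (by
    rintro _ ⟨w, hw, rfl⟩
    rw [hB, bf_conj hkd]
    exact h w hw)
  exact tp_inj hkd (h1.trans (map_zero _).symm)

/-- **Projections onto stable subspaces.** -/
theorem proj (hTS : ∀ n ≤ 4, T n ≤ C.S n)
    (hnd : ∀ n ≤ 6, ∀ v ∈ C.S n, (∀ w ∈ C.S n, bf (TP Q n) v w = 0) → v = 0) (n : ℕ)
    (W : Submodule ℂ ((Fin n → ι) → ℂ)) (hW : ∀ X, Lie T X → ∀ w ∈ W, aop X w ∈ W) :
      ∃ p : ((Fin n → ι) → ℂ) →ₗ[ℂ] ((Fin n → ι) → ℂ), (∀ w ∈ W, p w = w) ∧ (∀ v, p v ∈ W) ∧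
        ∀ X, Lie T X → ∀ v, p (aop X v) = aop X (p v) := by
  obtain ⟨B, k, S, hkd, -, D, -, -⟩ :=
    H.exists_pos (M := 4) le_rfl le_rfl (by norm_num) hTS hnd
  have hk : ∀ X, Lie (fun n => mv k (T n)) X → Lie T (k⁻¹ * X * k) := by
    intro X hX m u hu
    have h1 := hX m _ (⟨u, hu, rfl⟩ : tpow k m u ∈ mv k (T m))
    rw [aop_conjk hkd] at h1
    exact tp_inj hkd (h1.trans (map_zero _).symm)
  have hk' : ∀ X, Lie T X → Lie (fun n => mv k (T n)) (k * X * k⁻¹) := by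
    rintro X hX m _ ⟨u, hu, rfl⟩
    have h2 : k⁻¹ * (k * X * k⁻¹) * k = X := by
      have hu := isUnit_iff_ne_zero.2 hkd
      calc k⁻¹ * (k * X * k⁻¹) * k = (k⁻¹ * k) * X * (k⁻¹ * k) := by
            simp only [Matrix.mul_assoc]
        _ = X := by rw [nonsing_inv_mul _ hu, Matrix.one_mul, Matrix.mul_one]
    rw [aop_conjk hkd, h2, hX m u hu, map_zero]
  obtain ⟨p, hp1, hp2, hp3⟩ := D.exists_proj (W := mv k W) (by
    rintro X hX _ ⟨w, hw, rfl⟩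
    rw [aop_conjk hkd]
    exact ⟨_, hW _ (hk X hX) w hw, rfl⟩)
  refine ⟨tpow k⁻¹ n ∘ₗ p ∘ₗ tpow k n, fun w hw => ?_, fun v => ?_, fun X hX v => ?_⟩
  · change tpow k⁻¹ n (p (tpow k n w)) = w
    rw [hp1 _ ⟨w, hw, rfl⟩, tp_inv_tp hkd]
  · change tpow k⁻¹ n (p (tpow k n v)) ∈ W
    exact (mem_mv hkd).1 (hp2 _)
  · change tpow k⁻¹ n (p (tpow k n (aop X v))) = aop X (tpow k⁻¹ n (p (tpow k n v)))
    have hu := isUnit_iff_ne_zero.2 hkd
    have h3 : k * X = (k * X * k⁻¹) * k := by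
      rw [Matrix.mul_assoc _ k⁻¹, nonsing_inv_mul _ hu, Matrix.mul_one]
    have h4 : k⁻¹ * (k * X * k⁻¹) = X * k⁻¹ := by
      rw [← Matrix.mul_assoc, ← Matrix.mul_assoc, nonsing_inv_mul _ hu, Matrix.one_mul]
    rw [tpow_aop h3, hp3 _ (hk' X hX), tpow_aop h4]

/-- **The main theorem over the complex numbers.** -/
theorem main (hb : 2 ≤ Fintype.card ι) (hTS : ∀ n ≤ Fintype.card ι ^ 3, T n ≤ C.S n)
    (hnd : ∀ n ≤ 6, ∀ v ∈ C.S n, (∀ w ∈ C.S n, bf (TP Q n) v w = 0) → v = 0) (n : ℕ) :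
    T n ≤ C.S n := by
  have hb3 : 8 ≤ Fintype.card ι ^ 3 := by
    calc 8 = 2 ^ 3 := by norm_num
      _ ≤ _ := Nat.pow_le_pow_left hb 3
  obtain ⟨M, hM⟩ : ∃ M, M + 2 = Fintype.card ι ^ 3 := ⟨Fintype.card ι ^ 3 - 2, by omega⟩
  obtain ⟨B, k, S, hkd, -, D, hlow, hup⟩ := H.exists_pos (M := M) (M' := M + 2) (by omega)
    (by omega) le_rfl (fun n hn => hTS n (by omega)) (fun n hn v hv hw => by
      have h1 : C.S n = T n := le_antisymm (H.le n) (hTS n (by omega))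
      rw [h1] at hv hw
      exact H.T_nd (fun n hn => hTS n (by omega)) hnd hv hw)
  rw [hM] at hlow
  intro t ht
  have h1 := hup n (D.main hb hlow n (⟨t, ht, rfl⟩ : tpow k n t ∈ mv k (T n)))
  exact (tp_mem_mv hkd).1 h1

end CHyp

end Pool.Agent.Q60.TP
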