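import Pool.Agent.Q60.TP.Full
import Pool.Agent.Q55.Moo.Main

/-!
# Characteristic zero: the Tate conjecture alone for the power `X ^ (b ^ 3)` decides
-/

open CategoryTheory AlgebraicGeometry TensorProduct

set_option linter.unusedSectionVars false

universe u v w

namespace Pool.Agent.Q60.TP

open Module Matrix
open Pool.Agent.H914 Pool.Agent.H914.VarClass Pool.Agent.H914.VarClass.Obj
  Pool.Agent.H914.WeilCohomology
open Pool.Agent.Y133.Half Pool.Agent.Q60.ED Pool.Agent.Q55 Pool.Agent.H447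
open Pool.Agent.Q56.FD Pool.Agent.H281R3.HT Pool.Agent.W536.RR Pool.Agent.Q60.TD
open Pool.Agent.Q55.Moo (DetCyclotomic homEqNum_all semisimple_of_tate)

variable {k : Type u} [Field k] {𝒱 : VarClass k} {ops : CycleOps 𝒱}
  {W : WeilCohomology.{u, 0} ops} {X Y Z : 𝒱.Obj} {Γ : Type w} [Group Γ] {G : GaloisAction W Γ}

/-- The conjecture D for all powers follows from the Tate conjecture for the square. -/
lemma homEqNum_char0 {D : X.Cycles} (hD : IsAmpleLike W X D) (hT : TateConj G (pw X 1)) (n : ℕ) :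
    HomEqNum W (pw X n) := by
  rcases Nat.lt_or_ge (finrank W.K (W.H X)) 2 with hb | hb
  · exact (allPowers_small (G := G) hb n).2
  · have hX : Nontrivial (W.H X) := Module.nontrivial_of_finrank_pos (R := W.K) (by omega)
    exact homEqNum_all hD hT n

section low0

variable (φ : W.K →+* ℂ) (hc : TateCentre G X) {D : X.Cycles} (hD : IsAmpleLike W X D)

include φ hc hD

/-- **The consequences of the fourth power** in characteristic zero. -/
theorem low0 (h2 : ∀ j, SemisimpleAt G (pw X 1) (2 * j)) (h4 : TateConj G (pw X 3)) :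
    (∀ n, (∀ i, SemisimpleAt G (pw X n) i) ∧ HomEqNum W (pw X n)) ∧
    (∀ n, tateDim G (pw X (2 * n + 1)) ≤
      4 ^ (finrank W.K (W.H X) ^ 2) * cycRank ops (pw X (2 * n + 1))) ∧
    ∀ N, finrank W.K (W.H X) ^ 3 ≤ N + 1 → TateConj G (pw X N) → ∀ n, TateConj G (pw X n) :=
  low φ hc hD.1 hD.2.1 h2 h4 (homEqNum_char0 hD (conj_le (m := 1) (by omega) h4) 5)

lemma betti_le_sq (i : ℕ) : bettiNumber W (pw X 1) i ≤ finrank W.K (W.H X) ^ 2 := by
  have h1 : bettiNumber W (pw X 1) i ≤ finrank W.K (W.H (pw X 1)) := Submodule.finrank_le _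
  rwa [finrank_pw] at h1

/-- **The Tate conjecture alone for `X ^ (b ^ 3)`** implies everything for all powers. -/
theorem cube0 (hdet : DetCyclotomic G (pw X 1)) {N : ℕ} (hN : finrank W.K (W.H X) ^ 3 ≤ N + 1)
    (hT : TateConj G (pw X N)) : AllPowers G X := by
  rcases Nat.lt_or_ge (finrank W.K (W.H X)) 2 with hb | hb
  · exact allPowers_small hb
  have hb3 : 8 ≤ finrank W.K (W.H X) ^ 3 := by
    calc 8 = 2 ^ 3 := by norm_num
      _ ≤ _ := Nat.pow_le_pow_left hb 3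
  have hb2 : 2 * finrank W.K (W.H X) ^ 2 ≤ finrank W.K (W.H X) ^ 3 := by
    rw [pow_succ (finrank W.K (W.H X)) 2, mul_comm 2]
    exact Nat.mul_le_mul_left _ hb
  have h2 : ∀ j, SemisimpleAt G (pw X 1) (2 * j) := fun j => by
    refine semisimple_of_tate hD 1 (2 * j) hdet (conj_le ?_ hT)
    have h3 := betti_le_sq φ hc hD (W := W) (X := X) (G := G) (2 * j)
    omega
  obtain ⟨h3, -, h5⟩ := low0 φ hc hD h2 (conj_le (by omega) hT)
  exact fun n => ⟨⟨(h3 n).1, h5 N hN hT n⟩, (h3 n).2⟩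

/-- **The uniform half law** in characteristic zero, without a semisimplicity hypothesis. -/
theorem half0 (hdet : DetCyclotomic G (pw X 1)) {ε : ℝ} (hε : 0 < ε) {n : ℕ}
    (hn : (2 * (finrank W.K (W.H X) : ℝ)) ^ (3 * finrank W.K (W.H X) ^ 3 + 3) / ε ^ 2 ≤ n + 1)
    (h : (1 / 2 + ε) * tateDim G (pw X n) < cycRank ops (pw X n)) : AllPowers G X :=
  half_of hD.1 hD.2.1 allPowers_small (fun _ hN hT => cube0 φ hc hD hdet hN hT) hε hn h

end low0

lemma strongForm_of (h : AllPowers G X) : StrongForm G X := fun n =>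
  ⟨(h n).1.1, (h n).2, full_of (h n).2 (h n).1.2⟩

/-- **The main theorem in characteristic zero.** -/
theorem char0_main (φ : W.K →+* ℂ) (hc : TateCentre G X) (hD : ∃ D, IsAmpleLike W X D) {b : ℕ}
    (hb : finrank W.K (W.H X) = b) :
    ((∀ j, SemisimpleAt G (power X 2) (2 * j)) → TateConj G (power X 4) →
      SemisimpleAndD G X ∧
      (∀ n, 1 ≤ n → tateDim G (power X (2 * n)) ≤ 4 ^ b ^ 2 * cycRank ops (power X (2 * n))) ∧
      (TateConj G (power X (b ^ 3)) → StrongForm G X)) ∧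
    (DetCyclotomic G (power X 2) → TateConj G (power X (b ^ 3)) → StrongForm G X) := by
  obtain ⟨D, hD⟩ := hD
  subst hb
  have hb1 : finrank W.K (W.H X) ^ 3 ≤ finrank W.K (W.H X) ^ 3 - 1 + 1 := by omega
  refine ⟨fun h2 h4 => ?_, fun hdet hT => strongForm_of (cube0 φ hc hD hdet hb1 hT)⟩
  obtain ⟨k1, k2, k3⟩ := low0 φ hc hD h2 h4
  refine ⟨k1, fun n hn => ?_, fun hT => strongForm_of fun n =>
    ⟨⟨(k1 n).1, k3 _ hb1 hT n⟩, (k1 n).2⟩⟩
  obtain ⟨m, rfl⟩ : ∃ m, n = m + 1 := ⟨n - 1, by omega⟩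
  exact k2 m

/-- **The uniform half law in characteristic zero**, both cases. -/
theorem half_main (φ : W.K →+* ℂ) (hc : TateCentre G X) (hD : ∃ D, IsAmpleLike W X D) {b : ℕ}
    (hb : finrank W.K (W.H X) = b)
    (hS : DetCyclotomic G (power X 2) ∨ ∀ j, SemisimpleAt G (power X 6) (2 * j))
    {ε : ℝ} (hε : 0 < ε) {n : ℕ} (hn : (2 * b : ℝ) ^ (3 * b ^ 3 + 3) / ε ^ 2 ≤ n)
    (h : (1 / 2 + ε) * tateDim G (power X n) < cycRank ops (power X n)) : StrongForm G X := by
  obtain ⟨D, hD⟩ := hD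
  subst hb
  have hn' : (2 * (finrank W.K (W.H X) : ℝ)) ^ (3 * finrank W.K (W.H X) ^ 3 + 3) / ε ^ 2 ≤
      ((n - 1 : ℕ) : ℝ) + 1 := by
    refine hn.trans ?_
    exact_mod_cast (by omega : n ≤ n - 1 + 1)
  rcases hS with hdet | hss
  · exact strongForm_of (half0 φ hc hD hdet hε hn' h)
  · exact strongForm_of (half φ hc hD.1 hD.2.1 hss hε hn' h)

end Pool.Agent.Q60.TP
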