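import Pool.Agent.Q60.TP.Half
import Pool.Agent.Q56.DP.Poles

/-!
# Characteristic `p`: semisimplicity in low degrees from the geometric semisimplicity
-/

open CategoryTheory AlgebraicGeometry TensorProduct

set_option linter.unusedSectionVars false

universe u v w

namespace Pool.Agent.Q60.TP

open Module
open Pool.Agent.H914 Pool.Agent.H914.VarClass Pool.Agent.H914.VarClass.Obj
  Pool.Agent.H914.WeilCohomology
open Pool.Agent.Y133.Half Pool.Agent.Q55
open Pool.Agent.H281R3.HT Pool.Agent.W536.RR Pool.Agent.Q60.TD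
open Pool.Agent.Q57.OP (res)
open Pool.Agent.Q56.DP (Deep deep_tate semisimple_of_no_deep)
open Pool.Agent.Q56.NS (sb sb_apply IsDeep)

variable {k : Type u} [Field k] {𝒱 : VarClass k} {ops : CycleOps 𝒱}
  {W : WeilCohomology.{u, v} ops} {X Y Z : 𝒱.Obj} {Γ : Type w} [Group Γ] {G : GaloisAction W Γ}
  {Δ : Subgroup Γ} {F : Γ}

/-- The classes of positive depth are orthogonal to the Tate classes. -/
lemma deep_orth {j l : ℕ} (hjl : j + l = Z.dim) {x t : W.H Z} (hx : Deep G Δ F 1 Z j x)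
    (ht : IsTate G Z l t) : W.tr Z (x * t) = 0 := by
  obtain ⟨s, -, hp, hd, y, -, -, rfl⟩ := Deep.virt hx ht.2
  have hp := hp hd
  set q : W.K := (G.χ (F ^ s) : W.K) with hq
  have hq0 : q ^ l ≠ 0 := pow_ne_zero _ (G.χ (F ^ s)).ne_zero
  rw [pow_one, sb_apply, Pool.Agent.Q56.DP.L_apply, sub_mul, map_sub, smul_mul_assoc, map_smul, sub_eq_zero,
    smul_eq_mul]
  apply mul_left_cancel₀ hq0
  calc q ^ l * W.tr Z ((G.ρ Z).act (F ^ s) y * t)
      = W.tr Z ((G.ρ Z).act (F ^ s) y * (q ^ l • t)) := by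
        rw [mul_smul_comm, map_smul, smul_eq_mul]
    _ = W.tr Z ((G.ρ Z).act (F ^ s) (y * t)) := by rw [← hp, map_mul ((G.ρ Z).act (F ^ s))]
    _ = q ^ Z.dim * W.tr Z (y * t) := (G.isGalois Z).tr_act _ hd _
    _ = q ^ l * (q ^ j * W.tr Z (y * t)) := by rw [← hjl, pow_add]; ring

/-- A class in the span of cycles which is orthogonal to the cycles is numerically trivial. -/
lemma mem_num {j : ℕ} {x : W.H Z} (hx : x ∈ spanCycles W Z j)
    (h : ∀ l, j + l = Z.dim → ∀ w, Z.IsCyc l w → W.tr Z (x * W.cl Z w) = 0) :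
    x ∈ (algSys W).Num Z := by
  refine ⟨Pool.Agent.Y129.span_le_algSpan j hx, fun y hy => ?_⟩
  have hgr : x ∈ W.gr Z (2 * j) := Pool.Agent.Q57.SP.span_le_gr Z j hx
  change y ∈ algSpan W Z at hy
  unfold algSpan at hy
  induction hy using Submodule.span_induction with
  | mem y hy =>
    obtain ⟨l, hl⟩ := Set.mem_iUnion.1 hy
    obtain ⟨w, hw, rfl⟩ := hl
    by_cases hjl : j + l = Z.dim
    · exact h l hjl w hw
    · refine W.tr_eq_zero (W.mul_mem hgr (W.cl_mem hw)) ?_
      omega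
  | zero => rw [mul_zero, map_zero]
  | add a b _ _ ha hb => rw [mul_add, map_add, ha, hb, add_zero]
  | smul r a _ ha => rw [mul_smul_comm, map_smul, ha, smul_zero]

variable [Δ.Normal] (hF : ∀ g : Γ, ∃ m : ℤ, ∃ d ∈ Δ, g = F ^ m * d)

include hF

/-- There are no classes of positive depth if the conjectures of Tate and D hold. -/
lemma no_deep_of_tate (hT : TateConj G Z) (hD : HomEqNum W Z) {j : ℕ} {x : W.H Z}
    (hx : Deep G Δ F 1 Z j x) : x = 0 := by
  have h1 := mem_num (hT j x (deep_tate hF hx)) fun l hl w hw =>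
    deep_orth hl hx ⟨W.cl_mem hw, G.cl_act Z l w hw⟩
  rw [(homEqNum_iff _).1 hD, Submodule.mem_bot] at h1
  exact h1

/-- **Semisimplicity for `Y`** from the conjectures of Tate and D for `Y × Y`. -/
theorem ss_of_geo (hT : TateConj G (Y.prod Y)) (hD : HomEqNum W (Y.prod Y)) {i : ℕ}
    (hgeo : SemisimpleAt (res G Δ) Y i) : SemisimpleAt G Y i :=
  semisimple_of_no_deep G hF (fun _ hx => no_deep_of_tate hF hT hD hx) hgeo

omit hF in
lemma conj_retract' {W : WeilCohomology.{u, v} ops} {G : GaloisAction W Γ} {s : Y ⟶ Z} {p : Z ⟶ Y}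
    (h : s ≫ p = 𝟙 Y) (hZ : TateConj G Z) : TateConj G Y := by
  intro j c hc
  have h1 : IsTate G Z j (W.map p c) := (tatePred G).map p hc
  have h2 := hZ j _ h1
  have h3 : W.map s (W.map p c) = c := by rw [← W.map_comp, h, W.map_id]
  rw [← h3]
  exact spanCycles_of_algSpan (algSpan_map s (Pool.Agent.Y129.span_le_algSpan j h2))
    (W.map_mem s (W.map_mem p hc.1))

lemma ss_square (hT : TateConj G (pw X 3)) (hD : HomEqNum W (pw X 3)) {i : ℕ}
    (hgeo : SemisimpleAt (res G Δ) (pw X 1) i) : SemisimpleAt G (pw X 1) i := by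
  have e : (pwAdd X 1 1).hom ≫ (pwAdd X 1 1).inv = 𝟙 _ := (pwAdd X 1 1).hom_inv_id
  exact ss_of_geo hF (conj_retract' e hT) ((homEqNum_iso (pwAdd X 1 1)).2 hD)
    hgeo

end Pool.Agent.Q60.TP
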