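import Pool.Agent.Q60.TP.PolarC

/-!
# Closed systems of tensors over the complex numbers which agree in degree at most `b ^ 3`
-/

set_option linter.unusedSectionVars false

namespace Pool.Agent.Q60.TP

open Matrix Pool.Agent.Q60.ED Pool.Agent.Q60.TD Pool.Agent.Q60.NP Pool.Agent.Q60.FI
open Pool.Agent.Q60.PB
open Pool.Agent.Q55.Ke (Aut mem_Aut om J0 J0_tpow inv_of_unitary det_of_unitary Aut_dual Aut_om
  det_Aut)

open scoped ComplexOrder

variable {ι : Type} [Fintype ι] [DecidableEq ι]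

lemma aop_conj (X : Matrix ι ι ℂ) {n : ℕ} (v : (Fin n → ι) → ℂ) :
    (fun I => starRingEnd ℂ (aop X v I)) =
      aop (X.map (starRingEnd ℂ)) fun I => starRingEnd ℂ (v I) := by
  funext I
  rw [aop_apply, aop_apply, map_sum]
  refine Finset.sum_congr rfl fun k _ => ?_
  rw [map_sum]
  exact Finset.sum_congr rfl fun j _ => map_mul _ _ _

lemma aop_negM (X : Matrix ι ι ℂ) {n : ℕ} (v : (Fin n → ι) → ℂ) : aop (-X) v = -aop X v := by
  funext I
  rw [Pi.neg_apply, aop_apply, aop_apply, ← Finset.sum_neg_distrib]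
  refine Finset.sum_congr rfl fun k _ => ?_
  rw [← Finset.sum_neg_distrib]
  refine Finset.sum_congr rfl fun j _ => ?_
  rw [Matrix.neg_apply, neg_mul]

lemma aop_addM (X Y : Matrix ι ι ℂ) {n : ℕ} (v : (Fin n → ι) → ℂ) :
    aop (X + Y) v = aop X v + aop Y v := by
  funext I
  rw [Pi.add_apply, aop_apply, aop_apply, aop_apply, ← Finset.sum_add_distrib]
  refine Finset.sum_congr rfl fun k _ => ?_
  rw [← Finset.sum_add_distrib]
  refine Finset.sum_congr rfl fun j _ => ?_
  rw [Matrix.add_apply, add_mul]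

lemma aop_smulM (c : ℂ) (X : Matrix ι ι ℂ) {n : ℕ} (v : (Fin n → ι) → ℂ) :
    aop (c • X) v = c • aop X v := by
  funext I
  rw [Pi.smul_apply, smul_eq_mul, aop_apply, aop_apply, Finset.mul_sum]
  refine Finset.sum_congr rfl fun k _ => ?_
  rw [Finset.mul_sum]
  refine Finset.sum_congr rfl fun j _ => ?_
  rw [Matrix.smul_apply, smul_eq_mul, mul_assoc]

variable {B : Matrix ι ι ℂ}

/-- The infinitesimal action and the antilinear structure. -/
lemma aop_J0 {X : Matrix ι ι ℂ} (hX : Xᵀ * B + B * X = 0) {n : ℕ} (v : (Fin n → ι) → ℂ) :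
    aop Xᴴ (J0 B n v) = -J0 B n (aop X v) := by
  have h1 : Bᴴ * (-(X.map (starRingEnd ℂ))) = Xᴴ * Bᴴ := by
    have h2 := congrArg Matrix.conjTranspose hX
    rw [conjTranspose_add, conjTranspose_mul, conjTranspose_mul, conjTranspose_zero] at h2
    have h3 : (Xᵀ)ᴴ = X.map (starRingEnd ℂ) := by
      ext i j
      rfl
    rw [h3, add_comm] at h2
    rw [Matrix.mul_neg]
    exact (eq_neg_of_add_eq_zero_left h2).symm
  rw [J0, J0, ← tpow_aop h1, aop_negM, map_neg, ← aop_conj]

/-- The square of the antilinear structure. -/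
lemma J0_J0 (hB : Bᴴ * B = 1) {σ : Matrix ι ι ℂ} (hBT : Bᵀ = B * σ) {n : ℕ}
    (v : (Fin n → ι) → ℂ) : J0 B n (J0 B n v) = tpow σ n v := by
  have h1 : (fun I => starRingEnd ℂ (J0 B n v I)) = tpow Bᵀ n v := by
    funext I
    simp only [J0, tpow_apply, map_sum, map_mul, map_prod, conjTranspose_apply, transpose_apply,
      Complex.conj_conj]
    refine Finset.sum_congr rfl fun J _ => ?_
    congr 1
    refine Finset.prod_congr rfl fun k _ => ?_
    exact Complex.conj_conj _
  rw [J0, h1, ← tpow_mul, hBT, ← Matrix.mul_assoc, hB, Matrix.one_mul]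

lemma skew_of {T : ∀ n : ℕ, Submodule ℂ ((Fin n → ι) → ℂ)} (hBd : B.det ≠ 0)
    (hom : (om B : (Fin 2 → ι) → ℂ) ∈ T 2) {X : Matrix ι ι ℂ}
    (hX : ∀ s ∈ T 2, aop X s = 0) : Xᵀ * B + B * X = 0 := by
  have h1 := hX _ hom
  have h2 : (om B : (Fin 2 → ι) → ℂ) = NP.vec B⁻¹ := rfl
  rw [h2, aop_vec] at h1
  have h3 : X * B⁻¹ + B⁻¹ * Xᵀ = 0 := vec_inj (h1.trans rfl)
  have h4 := congrArg (fun M => B * M * B) h3
  have hu := isUnit_iff_ne_zero.2 hBd
  have h5 : B * (X * B⁻¹ + B⁻¹ * Xᵀ) * B = Xᵀ * B + B * X := by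
    calc B * (X * B⁻¹ + B⁻¹ * Xᵀ) * B = B * X * (B⁻¹ * B) + (B * B⁻¹) * Xᵀ * B := by
          rw [Matrix.mul_add, Matrix.add_mul]
          simp only [Matrix.mul_assoc]
      _ = _ := by
          rw [Matrix.nonsing_inv_mul _ hu, Matrix.mul_nonsing_inv _ hu, Matrix.mul_one,
            Matrix.one_mul, add_comm]
  rw [← h5]
  simpa using h4

/-- The data of the theorem over the complex numbers. -/
structure CData (B σ : Matrix ι ι ℂ) (S : TSys ℂ ι)
    (T : ∀ n : ℕ, Submodule ℂ ((Fin n → ι) → ℂ)) : Prop where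
  uni : Bᴴ * B = 1
  symm : Bᵀ = B * σ
  σuni : σ ∈ Matrix.unitaryGroup ι ℂ
  om : (om B : (Fin 2 → ι) → ℂ) ∈ S.S 2
  J0S : ∀ n, ∀ t ∈ S.S n, J0 B n t ∈ S.S n
  le : ∀ n, S.S n ≤ T n
  even : ∀ n, ∀ t ∈ T n, tpow σ n t = t
  low : ∀ n ≤ 4, T n ≤ S.S n
  key : ∀ X : Matrix ι ι ℂ, (∀ m ≤ 4, ∀ s ∈ T m, aop X s = 0) → Lie T X
  mem : ∀ n (t : (Fin n → ι) → ℂ), tpow σ n t = t → (∀ X, Lie T X → aop X t = 0) → t ∈ T n

namespace CData

variable {σ : Matrix ι ι ℂ} {S : TSys ℂ ι} {T : ∀ n : ℕ, Submodule ℂ ((Fin n → ι) → ℂ)}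
  (D : CData B σ S T)

include D

lemma hBd : B.det ≠ 0 := det_of_unitary D.uni

/-- The infinitesimal stabiliser is stable under the adjoint. -/
lemma lie_star {X : Matrix ι ι ℂ} (hX : Lie T X) : Lie T Xᴴ := by
  apply D.key
  intro m hm s hs
  have hsS := D.low m hm hs
  have h1 := D.J0S m s hsS
  have h2 : s = J0 B m (J0 B m s) := by
    rw [J0_J0 D.uni D.symm, D.even m s hs]
  rw [h2, aop_J0 (skew_of D.hBd (D.le 2 D.om) (hX 2)), hX m _ (D.le m h1)]
  have h3 : J0 B m (0 : (Fin m → ι) → ℂ) = 0 := by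
    have h4 := Pool.Agent.Q55.Ke.J0_smul B (n := m) 0 (0 : (Fin m → ι) → ℂ)
    rw [map_zero, zero_smul, zero_smul] at h4
    exact h4
  rw [h3, neg_zero]

/-- The stabiliser is stable under the adjoint. -/
lemma fix_star {g : Matrix ι ι ℂ} (hg : Fix S.S g) : Fix S.S gᴴ := by
  intro n t ht
  have hgA : g ∈ Aut B := (Aut_om D.hBd).2 (hg 2 _ D.om)
  have h1 := D.J0S n t ht
  have h2 : J0 B n (J0 B n t) = t := by
    rw [J0_J0 D.uni D.symm, D.even n t (D.le n ht)]
  have h3 := J0_tpow (n := n) hgA (J0 B n t)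
  rwa [hg n _ h1, h2] at h3

lemma lie_sub_add {X Y : Matrix ι ι ℂ} (a b : ℂ) (hX : Lie T X) (hY : Lie T Y) :
    Lie T (a • X + b • Y) := by
  intro n t ht
  rw [aop_addM, aop_smulM, aop_smulM, hX n t ht, hY n t ht, smul_zero, smul_zero, add_zero]

/-- The tensors fixed by the unitary matrices of the stabiliser. -/
lemma mem_of_unitary {n : ℕ} {τ : (Fin n → ι) → ℂ}
    (h : ∀ u ∈ Matrix.unitaryGroup ι ℂ, Fix T u → tpow u n τ = τ) : τ ∈ T n := by
  apply D.mem
  · exact h σ D.σuni D.even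
  -- hermitian matrices
  have herm : ∀ H : Matrix ι ι ℂ, H.IsHermitian → Lie T H → aop H τ = 0 := by
    intro H hH hL
    obtain ⟨W, hW, hspec⟩ := spec hH
    set a := hH.eigenvalues
    have hWW : star W * W = 1 := Matrix.mem_unitaryGroup_iff'.1 hW
    have hWW' : W * star W = 1 := Matrix.mem_unitaryGroup_iff.1 hW
    have hWi : W⁻¹ = star W := Matrix.inv_eq_left_inv hWW
    have hWd : W.det ≠ 0 := by
      intro h
      have h1 := congrArg Matrix.det hWW
      rw [Matrix.det_mul, h, mul_zero, Matrix.det_one] at h1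
      exact zero_ne_one h1
    have hHd : H = dm W fun i => (a i : ℂ) := by
      rw [dm, hWi]
      exact hspec
    rw [hHd, aop_dm_iff hWd]
    intro w hw
    have h1 : ∀ y : ℝ, ∏ k, Complex.exp (y * a (w k) * Complex.I) = 1 := by
      intro y
      let e : ι → ℂ := fun i => Complex.exp (y * a i * Complex.I)
      have he : Fix T (dm W e) := by
        intro m t ht
        rw [dm_fix_iff hWd]
        intro w' hw'
        have h2 := hL m t ht
        rw [hHd, aop_dm_iff hWd] at h2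
        have h3 := h2 w' hw'
        change ∏ k, Complex.exp (y * a (w' k) * Complex.I) = 1
        rw [← Complex.exp_sum, ← Finset.sum_mul, ← Finset.mul_sum, h3]
        simp
      have heU : dm W e ∈ Matrix.unitaryGroup ι ℂ := by
        rw [dm, hWi, Matrix.mem_unitaryGroup_iff', Matrix.star_eq_conjTranspose,
          Matrix.conjTranspose_mul, Matrix.conjTranspose_mul, Matrix.diagonal_conjTranspose,
          ← Matrix.star_eq_conjTranspose (star W), star_star, ← Matrix.star_eq_conjTranspose W]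
        calc W * (diagonal (star e) * star W) * (W * diagonal e * star W)
            = W * diagonal (star e) * (star W * W) * diagonal e * star W := by
              simp only [Matrix.mul_assoc]
          _ = 1 := by
              rw [hWW, Matrix.mul_one, Matrix.mul_assoc W, Matrix.diagonal_mul_diagonal]
              have h3 : (fun i => star e i * e i) = fun _ => 1 := by
                funext i
                change (starRingEnd ℂ) (Complex.exp (y * a i * Complex.I)) *
                  Complex.exp (y * a i * Complex.I) = 1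
                rw [← Complex.exp_conj, ← Complex.exp_add]
                simp
              rw [h3]
              have h5 : (diagonal (fun _ => (1 : ℂ)) : Matrix ι ι ℂ) = 1 := Matrix.diagonal_one
              rw [h5, Matrix.mul_one, hWW']
      exact (dm_fix_iff hWd).1 (h _ heU he) w hw
    have h2 : ∑ k, a (w k) = 0 := by
      by_contra hne
      have h3 := h1 (Real.pi / ∑ k, a (w k))
      rw [← Complex.exp_sum, ← Finset.sum_mul, ← Finset.mul_sum, ← Complex.ofReal_sum,
        ← Complex.ofReal_mul, div_mul_cancel₀ _ hne, Complex.exp_pi_mul_I] at h3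
      norm_num at h3
    rw [← Complex.ofReal_sum, h2, Complex.ofReal_zero]
  intro X hX
  have hX' := D.lie_star hX
  have h1 : aop ((2 : ℂ)⁻¹ • X + (2 : ℂ)⁻¹ • Xᴴ) τ = 0 := by
    refine herm _ ?_ (D.lie_sub_add _ _ hX hX')
    change _ᴴ = _
    rw [conjTranspose_add, conjTranspose_smul, conjTranspose_smul, conjTranspose_conjTranspose,
      add_comm]
    simp
  have h2 : aop ((2 : ℂ)⁻¹ • (Complex.I • X) + (2 : ℂ)⁻¹ • (-Complex.I • Xᴴ)) τ = 0 := by
    refine herm _ ?_ ?_
    · change _ᴴ = _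
      rw [conjTranspose_add, conjTranspose_smul, conjTranspose_smul, conjTranspose_smul,
        conjTranspose_smul, conjTranspose_conjTranspose, add_comm]
      simp
    · have h3 := D.lie_sub_add (2⁻¹ * Complex.I) (2⁻¹ * -Complex.I) hX hX'
      rwa [mul_smul, mul_smul] at h3
  have h3 : X = (1 : ℂ) • ((2 : ℂ)⁻¹ • X + (2 : ℂ)⁻¹ • Xᴴ) +
      (-Complex.I) • ((2 : ℂ)⁻¹ • (Complex.I • X) + (2 : ℂ)⁻¹ • (-Complex.I • Xᴴ)) := by
    ext i j
    simp only [Matrix.add_apply, Matrix.smul_apply, smul_eq_mul]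
    ring_nf
    rw [Complex.I_sq]
    ring
  rw [h3, aop_addM, aop_smulM, aop_smulM, h1, h2, smul_zero, smul_zero, add_zero]

/-- The traces of the unitary elements of the stabiliser are real. -/
lemma trace_real {x : Matrix ι ι ℂ} (hx : x ∈ Aut B) (hu : x ∈ Matrix.unitaryGroup ι ℂ) :
    x.trace.im = 0 := by
  have hxd := det_Aut D.hBd hx
  have hBu := isUnit_iff_ne_zero.2 D.hBd
  have h1 : xᴴ = B⁻¹ * xᵀ * B := by
    have h2 : (B⁻¹ * xᵀ * B) * x = 1 := by
      calc (B⁻¹ * xᵀ * B) * x = B⁻¹ * (xᵀ * B * x) := by simp only [Matrix.mul_assoc]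
        _ = 1 := by rw [hx, nonsing_inv_mul _ hBu]
    have h3 := mul_eq_one_comm.1 h2
    calc xᴴ = xᴴ * (x * (B⁻¹ * xᵀ * B)) := by rw [h3, Matrix.mul_one]
      _ = _ := by rw [← Matrix.mul_assoc, (conj_unitary hu).1, Matrix.one_mul]
  have h2 : xᴴ.trace = x.trace := by
    rw [h1, Matrix.trace_mul_comm, ← Matrix.mul_assoc, mul_nonsing_inv _ hBu, Matrix.one_mul,
      Matrix.trace_transpose]
  rw [Matrix.trace_conjTranspose] at h2
  have h4 := congrArg Complex.im h2
  change (starRingEnd ℂ x.trace).im = x.trace.im at h4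
  rw [Complex.conj_im] at h4
  linarith

/-- **The tensors of degree at most `b ^ 3` decide.** -/
theorem main (hb : 2 ≤ Fintype.card ι) (h : ∀ n ≤ Fintype.card ι ^ 3, T n ≤ S.S n) (n : ℕ) :
    T n ≤ S.S n := by
  have homd : (mat2 (Pool.Agent.Q55.Ke.om B)).det ≠ 0 := by
    rw [Pool.Agent.Q55.Ke.mat2_om]
    exact (Matrix.isUnit_nonsing_inv_det _ (isUnit_iff_ne_zero.2 D.hBd)).ne_zero
  -- the compact group
  let K : Subgroup (Matrix.unitaryGroup ι ℂ) :=
    { carrier := {u | Fix T (u : Matrix ι ι ℂ)}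
      one_mem' := fun n t _ => tpow_one _ _
      mul_mem' := fun {a b} ha hb => fixC_mul ha hb
      inv_mem' := fun {a} ha => by
        have h1 : ((a⁻¹ : Matrix.unitaryGroup ι ℂ) : Matrix ι ι ℂ) = (a : Matrix ι ι ℂ)⁻¹ := by
          symm
          apply Matrix.inv_eq_left_inv
          exact congrArg Subtype.val (inv_mul_cancel a)
        change Fix T ((a⁻¹ : Matrix.unitaryGroup ι ℂ) : Matrix ι ι ℂ)
        rw [h1]
        refine fixC_inv ha ?_
        exact det_Aut D.hBd ((Aut_om D.hBd).2 (ha 2 _ (D.le 2 D.om))) }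
  have hKmem : ∀ u : Matrix.unitaryGroup ι ℂ, u ∈ K ↔ Fix T (u : Matrix ι ι ℂ) := fun u => Iff.rfl
  have hKcl : IsClosed (K : Set (Matrix.unitaryGroup ι ℂ)) := by
    have h1 : (K : Set (Matrix.unitaryGroup ι ℂ)) = ⋂ (n : ℕ) (t : T n) (I : Fin n → ι),
        {u : Matrix.unitaryGroup ι ℂ | tpow (u : Matrix ι ι ℂ) n t.1 I = t.1 I} := by
      ext u
      simp only [Set.mem_iInter, Set.mem_ofPred_eq, SetLike.mem_coe]
      rw [hKmem]
      constructor
      · intro hu n t I
        rw [hu n t.1 t.2]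
      · intro hu n t ht
        funext I
        exact hu n ⟨t, ht⟩ I
    rw [h1]
    refine isClosed_iInter fun n => isClosed_iInter fun t => isClosed_iInter fun I =>
      isClosed_eq ?_ continuous_const
    simp only [tpow_apply]
    refine continuous_finsetSum _ fun J _ => Continuous.mul ?_ continuous_const
    refine continuous_finsetProd _ fun k _ => ?_
    exact continuous_subtype_val.matrix_elem _ _
  have hAutS : ∀ {g : Matrix ι ι ℂ}, Fix S.S g → g ∈ Aut B := fun hg =>
    (Aut_om D.hBd).2 (hg 2 _ D.om)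
  intro t ht
  refine S.mem_of_fixed D.om homd fun g hg => ?_
  refine polarC hg (det_Aut D.hBd (hAutS hg)) (D.fix_star hg) fun x hx hxU => ?_
  suffices hsuf : Fix T x from hsuf n t ht
  by_contra hbad
  obtain ⟨m, P, y, hy, hm, hPd, hPs, hlt⟩ := exists_poly (Fintype.card ι) hb
  have hb3 : 8 ≤ Fintype.card ι ^ 3 := by
    calc 8 = 2 ^ 3 := by norm_num
      _ ≤ _ := Nat.pow_le_pow_left hb 3
  -- the elements of the coset
  have hcos : ∀ u : K, Fix S.S (x * mt K u) ∧ x * mt K u ∈ Matrix.unitaryGroup ι ℂ ∧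
      ¬ Fix T (x * mt K u) := by
    intro u
    have hu : Fix T (mt K u) := u.2
    have huS : Fix S.S (mt K u) := fun n t ht => hu n t (D.le n ht)
    refine ⟨fixC_mul hx huS, Submonoid.mul_mem _ hxU u.1.2, fun hcon => hbad ?_⟩
    have hud := det_Aut D.hBd (hAutS huS)
    have h1 := fixC_mul hcon (fixC_inv hu hud)
    rw [Matrix.mul_assoc, Matrix.mul_nonsing_inv _ (isUnit_iff_ne_zero.2 hud),
      Matrix.mul_one] at h1
    exact h1
  refine absurd (cpt_main K hKcl (m := m) (γ := x) (P := P) ?_ ?_ ?_ hPd ?_ hy) (not_le.2 hlt)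
  · intro j hj τ hτ
    have h1 : τ ∈ T j := D.mem_of_unitary fun u hu huT => hτ ⟨⟨u, hu⟩, huT⟩
    exact hx j τ (h j (by omega) h1)
  · intro u
    have hu : Fix T (mt K u) := u.2
    exact D.trace_real (hAutS fun n t ht => hu n t (D.le n ht)) u.1.2
  · intro u
    obtain ⟨h1, h5, -⟩ := hcos u
    exact D.trace_real (hAutS h1) h5
  · intro u
    obtain ⟨h1, h5, h6⟩ := hcos u
    refine hPs _ (neg_card_le_trace h5) (trace_bad h5 fun hpd => h6 ?_)
    exact goodC (fun m hm => h m (by omega)) D.key h1 h5 hpd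

end CData

end Pool.Agent.Q60.TP
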