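import Pool.Agent.Q60.TD.Defs
import Pool.Agent.Q60.FI.LDefs0
import Pool.Agent.Q55.GaloisDefs

/-!
# The centre of the algebra of the endomorphisms given by Tate classes
-/

open CategoryTheory AlgebraicGeometry

universe u w

namespace Pool.Agent.Q60.TP

open Pool.Agent.H914 Pool.Agent.H914.VarClass Pool.Agent.H914.VarClass.Obj
  Pool.Agent.H914.WeilCohomology
open Pool.Agent.Q55 Pool.Agent.Q60.FI

variable {k : Type u} [Field k] {𝒱 : VarClass k} {ops : CycleOps 𝒱}
  {W : WeilCohomology.{u, 0} ops} {Γ : Type w} [Group Γ]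

/-- The Tate classes of all degrees on `X`. -/
def tateSet (G : GaloisAction W Γ) (X : 𝒱.Obj) : Set (W.H X) := {c | ∃ j, IsTate G X j c}

/-- The centre of the algebra of the endomorphisms of `H(X)` given by Tate classes on `X × X` has
no nonzero skew elements. -/
def TateCentre (G : GaloisAction W Γ) (X : 𝒱.Obj) : Prop :=
  NoSkewCentre (W.map (fst X X)) (W.push (snd X X)) (W.tr X) (tateSet G (X.prod X))

end Pool.Agent.Q60.TP
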