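import Pool.Agent.Q60.TP.Defs

/-!
# The full form of the Tate conjecture: definitions
-/

set_option autoImplicit false

open CategoryTheory AlgebraicGeometry

universe u v w

namespace Pool.Agent.Q60.TP

open Pool.Agent.H914 Pool.Agent.H914.VarClass Pool.Agent.H914.VarClass.Obj
  Pool.Agent.H914.WeilCohomology
open Pool.Agent.Q55 (GaloisAction IsTate)
open Pool.Agent.Q60.TD (SemisimpleAt)
open Pool.Agent.Y133.Half (pw)

/-- The vectors `c 1, …, c r` are linearly independent over `K`, the elements of `S` are linear
combinations of them with rational coefficients, and the elements of `T` are exactly their linear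
combinations with coefficients in `K`. -/
def IsRationalBasis (K : Type*) {A : Type*} [Field K] [AddCommGroup A] [Module K A] {r : ℕ}
    (c : Fin r → A) (S T : Set A) : Prop :=
  LinearIndependent K c ∧ (∀ w ∈ S, ∃ q : Fin r → ℚ, w = ∑ i, (q i : K) • c i) ∧
    ∀ x, x ∈ T ↔ ∃ a : Fin r → K, x = ∑ i, a i • c i

variable {k : Type u} [Field k] {𝒱 : VarClass k} {ops : CycleOps 𝒱}
  {W : WeilCohomology.{u, v} ops} {Γ : Type w} [Group Γ]

/-- The Tate conjecture for `Z` in codimension `j` in its full form: there are finitely many cycles
`z 1, …, z r` of codimension `j` whose classes form a basis of the space of the Tate classes over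
the coefficient field, and such that the class of every cycle of codimension `j` is a combination of
them with rational coefficients. In other words, the space `A^j(Z)_ℚ` of the classes of cycles with
rational coefficients is finite-dimensional, and `A^j(Z)_ℚ ⊗ K` maps isomorphically to the space
of Tate classes. -/
def FullTate (G : GaloisAction W Γ) (Z : 𝒱.Obj) (j : ℕ) : Prop :=
  ∃ (r : ℕ) (z : Fin r → Z.Cycles), (∀ i, Z.IsCyc j (z i)) ∧
    IsRationalBasis W.K (fun i => W.cl Z (z i)) {c | ∃ w, Z.IsCyc j w ∧ W.cl Z w = c}
      {c | IsTate G Z j c}

/-- For all powers of `X`: the representations on the cohomology are semisimple, homological and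
numerical equivalence agree, and the Tate conjecture holds in its full form. -/
def StrongForm (G : GaloisAction W Γ) (X : 𝒱.Obj) : Prop :=
  ∀ n, (∀ i, SemisimpleAt G (pw X n) i) ∧ HomEqNum W (pw X n) ∧ ∀ j, FullTate G (pw X n) j

/-- For all powers of `X` the representations on the cohomology are semisimple, and homological and
numerical equivalence agree. -/
def SemisimpleAndD (G : GaloisAction W Γ) (X : 𝒱.Obj) : Prop :=
  ∀ n, (∀ i, SemisimpleAt G (pw X n) i) ∧ HomEqNum W (pw X n)

end Pool.Agent.Q60.TP
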