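import Pool.Agent.Q60.TP.IDefs
import Pool.Agent.Q60.TP.CharP
import Pool.Agent.W534.PoleA

/-!
# The full form of the Tate conjecture
-/

open CategoryTheory AlgebraicGeometry

set_option linter.unusedSectionVars false

universe u v w

namespace Pool.Agent.Q60.TP

open Module
open Pool.Agent.H914 Pool.Agent.H447 Pool.Agent.H914.VarClass Pool.Agent.H914.VarClass.Obj
  Pool.Agent.H914.WeilCohomology
open Pool.Agent.Y133.Half Pool.Agent.Q55
open Pool.Agent.H281R3.HT Pool.Agent.W536.RR Pool.Agent.Q60.TD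
open Pool.Agent.W534

variable {k : Type u} [Field k] {𝒱 : VarClass k} {ops : CycleOps 𝒱}
  {W : WeilCohomology.{u, v} ops} {X Y Z : 𝒱.Obj} {Γ : Type w} [Group Γ] {G : GaloisAction W Γ}

/-- Numerically independent cycles have independent classes. -/
lemma indep_cl' {ι : Type*} [Fintype ι] {j : ℕ} (hj : j ≤ Z.dim)
    (z : ι → {z : Z.Cycles // Z.IsCyc j z})
    (h : LinearIndependent ℚ (fun i => interNumbers ops Z j (z i))) :
    LinearIndependent W.K (fun i => W.cl Z (z i).1) := by
  rw [Fintype.linearIndependent_iff]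
  intro c hc i
  have h1 := lin_ext (K := W.K) h (c := c) fun w => by
    have h2 := congrArg (fun x => W.tr Z (x * W.cl Z w.1)) hc
    simp only [Finset.sum_mul, smul_mul_assoc, map_sum, map_smul, zero_mul, map_zero,
      smul_eq_mul] at h2
    rw [← h2]
    refine Finset.sum_congr rfl fun i _ => ?_
    rw [tr_mul_cl (z i).2 w.2 (by omega)]
    rfl
  exact congrFun h1 i

/-- A basis of the space of the classes of cycles with rational coefficients. -/
theorem exists_rat_basis' {j : ℕ} (hj : j ≤ Z.dim) (hD : HomEqNum W Z) :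
    ∃ (r : ℕ) (z : Fin r → Z.Cycles), (∀ i, Z.IsCyc j (z i)) ∧
      LinearIndependent W.K (fun i => W.cl Z (z i)) ∧
      ∀ w, Z.IsCyc j w → ∃ c : Fin r → ℚ, W.cl Z w = ∑ i, (c i : W.K) • W.cl Z (z i) := by
  classical
  obtain ⟨κ, a, -, hspan, hli⟩ := exists_linearIndependent' ℚ (interNumbers ops Z j)
  have hli' : LinearIndependent W.K (fun i => W.cl Z (a i).1) := by
    rw [linearIndependent_iff_finset_linearIndependent]
    intro s
    exact indep_cl' hj (fun i : s => a i) (hli.comp _ Subtype.val_injective)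
  have hfin : Finite κ := hli'.finite
  have : Fintype κ := Fintype.ofFinite κ
  let e := Fintype.equivFin κ
  refine ⟨Fintype.card κ, fun i => (a (e.symm i)).1, fun i => (a (e.symm i)).2,
    hli'.comp _ e.symm.injective, fun w hw => ?_⟩
  have h1 : interNumbers ops Z j ⟨w, hw⟩ ∈
      Submodule.span ℚ (Set.range (interNumbers ops Z j ∘ a)) := by
    rw [hspan]
    exact Submodule.subset_span ⟨_, rfl⟩
  obtain ⟨c, hc⟩ := (Submodule.mem_span_range_iff_exists_fun ℚ).1 h1
  refine ⟨fun i => c (e.symm i), ?_⟩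
  rw [e.symm.sum_comp (fun i => ((c i : ℚ) : W.K) • W.cl Z (a i).1)]
  have hsum : ∀ s : Finset κ, Z.IsCyc j (∑ i ∈ s, c i • (a i).1) := fun s =>
    Finset.sum_induction _ (fun u => Z.IsCyc j u) (fun a b => SmVar.IsCyc.add)
      (SmVar.IsCyc.zero _ _) (fun i _ => (a i).2.smul _)
  have hcl : W.cl Z (∑ i, c i • (a i).1) = ∑ i, ((c i : ℚ) : W.K) • W.cl Z (a i).1 := by
    rw [map_sum]
    exact Finset.sum_congr rfl fun i _ => cl_smul W _ _
  have hneg : Z.IsCyc j ((-1 : ℚ) • ∑ i, c i • (a i).1) := (hsum _).smul _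
  have hu : Z.IsCyc j (w + (-1 : ℚ) • ∑ i, c i • (a i).1) := SmVar.IsCyc.add hw hneg
  have h2 := hD j hj _ hu fun y hy => by
    have h3 := tr_mul_cl (W := W) hu hy (show j + (Z.dim - j) = Z.dim by omega)
    have h4 : W.tr Z (W.cl Z (w + (-1 : ℚ) • ∑ i, c i • (a i).1) * W.cl Z y) = 0 := by
      rw [map_add, cl_smul, hcl, add_mul, map_add, tr_mul_cl hw hy (by omega), smul_mul_assoc,
        map_smul, Finset.sum_mul, map_sum]
      have h5 : ((Z.V.degCycle (ops.mul w y) : ℚ) : W.K) =
          ∑ i, W.tr Z (((c i : ℚ) : W.K) • W.cl Z (a i).1 * W.cl Z y) := by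
        have h6 := congrFun hc ⟨y, hy⟩
        rw [Finset.sum_apply] at h6
        have h7 : Z.V.degCycle (ops.mul w y) = ∑ i, c i * interNumbers ops Z j (a i) ⟨y, hy⟩ := by
          rw [show Z.V.degCycle (ops.mul w y) = interNumbers ops Z j ⟨w, hw⟩ ⟨y, hy⟩ from rfl,
            ← h6]
          rfl
        rw [h7, Rat.cast_sum]
        refine Finset.sum_congr rfl fun i _ => ?_
        rw [smul_mul_assoc, map_smul, tr_mul_cl (a i).2 hy (by omega), smul_eq_mul, Rat.cast_mul]
        rfl
      rw [h5, smul_eq_mul]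
      push_cast
      ring
    rw [h4] at h3
    exact_mod_cast h3.symm
  rw [map_add, cl_smul, hcl] at h2
  push_cast at h2
  rw [neg_smul, one_smul, ← sub_eq_add_neg, sub_eq_zero] at h2
  exact h2

lemma isTate_of_span {j : ℕ} {x : W.H Z} (hx : x ∈ spanCycles W Z j) : IsTate G Z j x :=
  ClassPred.span_le (Q := tatePred G) hx

/-- The full form of the Tate conjecture. -/
theorem full_of (hD : HomEqNum W Z) (hT : TateConj G Z) (j : ℕ) : FullTate G Z j := by
  by_cases hj : j ≤ Z.dim
  · obtain ⟨r, z, hz, hli, hrat⟩ := exists_rat_basis' hj hD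
    refine ⟨r, z, hz, hli, ?_, fun x => ⟨fun hx => ?_, fun hx => ?_⟩⟩
    · rintro _ ⟨w, hw, rfl⟩
      exact hrat w hw
    · have h1 : x ∈ Submodule.span W.K (Set.range fun i => W.cl Z (z i)) := by
        refine (Submodule.span_le (p := Submodule.span W.K
          (Set.range fun i => W.cl Z (z i)))).2 ?_ (hT j x hx)
        rintro y ⟨s, hs, w, hw, rfl⟩
        obtain rfl : s = j := by exact_mod_cast hs
        obtain ⟨c, hc⟩ := hrat w hw
        rw [hc]
        exact Submodule.sum_mem _ fun i _ =>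
          Submodule.smul_mem _ _ (Submodule.subset_span ⟨i, rfl⟩)
      obtain ⟨a, ha⟩ := (Submodule.mem_span_range_iff_exists_fun W.K).1 h1
      exact ⟨a, ha.symm⟩
    · obtain ⟨a, rfl⟩ := hx
      exact isTate_of_span (Submodule.sum_mem _ fun i _ => Submodule.smul_mem _ _
        (mem_span_cl (hz i)))
  · have h0 : W.gr Z (2 * j) = ⊥ := W.gr_eq_bot Z _ (by omega)
    have hz : ∀ x ∈ W.gr Z (2 * j), x = 0 := fun x hx => by
      rw [h0] at hx
      exact (Submodule.mem_bot _).1 hx
    refine ⟨0, Fin.elim0, fun i => i.elim0, linearIndependent_empty_type, ?_,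
      fun x => ⟨fun hx => ⟨Fin.elim0, ?_⟩, fun hx => ?_⟩⟩
    · rintro _ ⟨w, hw, rfl⟩
      refine ⟨Fin.elim0, ?_⟩
      rw [Finset.univ_eq_empty, Finset.sum_empty]
      exact hz _ (W.cl_mem hw)
    · rw [Finset.univ_eq_empty, Finset.sum_empty]
      exact hz x hx.1
    · obtain ⟨a, rfl⟩ := hx
      rw [Finset.univ_eq_empty, Finset.sum_empty]
      exact (tatePred G).zero

end Pool.Agent.Q60.TP
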