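import Pool.Agent.Q60.TP.Geo

/-!
# The uniform half law for Tate classes without central skew elements
-/

open CategoryTheory AlgebraicGeometry TensorProduct

set_option linter.unusedSectionVars false

universe u v w

namespace Pool.Agent.Q60.TP

open Module Matrix
open Pool.Agent.H914 Pool.Agent.H914.VarClass Pool.Agent.H914.VarClass.Obj
  Pool.Agent.H914.WeilCohomology
open Pool.Agent.Y133.Half Pool.Agent.Q60.ED Pool.Agent.Q55 Pool.Agent.H447
open Pool.Agent.Q56.FD Pool.Agent.H281R3.HT Pool.Agent.W536.RR Pool.Agent.Q60.TD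

variable {k : Type u} [Field k] {𝒱 : VarClass k} {ops : CycleOps 𝒱}
  {W : WeilCohomology.{u, 0} ops} {X Y Z : 𝒱.Obj} {Γ : Type w} [Group Γ] {G : GaloisAction W Γ}

lemma even_cube {b : ℕ} (hb : 2 ≤ b) : 8 ≤ b ^ 3 + b ^ 3 % 2 ∧ (b ^ 3 + b ^ 3 % 2) % 2 = 0 := by
  have h1 : 8 ≤ b ^ 3 := by
    calc 8 = 2 ^ 3 := by norm_num
      _ ≤ b ^ 3 := Nat.pow_le_pow_left hb 3
  omega

/-- **The uniform half law**: if the Tate conjecture for one large power implies that for all
powers, then it holds, or the cycles are at most one half of the Tate classes. -/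
theorem half_of {D : X.Cycles} (hD : X.IsCyc 1 D) (hHL : HardLefschetz W X D) {P : Prop}
    (hP1 : finrank W.K (W.H X) < 2 → P)
    (hP : ∀ N, finrank W.K (W.H X) ^ 3 ≤ N + 1 → TateConj G (pw X N) → P)
    {ε : ℝ} (hε : 0 < ε) {n : ℕ} (hn : (2 * (finrank W.K (W.H X) : ℝ)) ^
      (3 * finrank W.K (W.H X) ^ 3 + 3) / ε ^ 2 ≤ n + 1)
    (h : (1 / 2 + ε) * tateDim G (pw X n) < cycRank ops (pw X n)) : P := by
  rcases Nat.lt_or_ge (finrank W.K (W.H X)) 2 with hb | hb
  · exact hP1 hb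
  have hX : Nontrivial (W.H X) := Module.nontrivial_of_finrank_pos (R := W.K) (by omega)
  obtain ⟨l, hl, hl1⟩ := exists_tr_alg hD hHL
  obtain ⟨h8, h2⟩ := even_cube hb
  have hpos : ∀ n, 0 < (algSys W).al X n := by
    intro n
    obtain ⟨m, hm, hm1⟩ := (algSys W).exists_lam hl hl1 n
    refine (algSys W).a_pos (Sys.xp_mem_C (algSys W) hm hm) ?_
    rw [tr_xp, hm1, mul_one]
  have hbot : ∀ m, (algSys W).C (pw X m) ≠ ⊥ := by
    intro m hm
    obtain ⟨y, hy, hy1⟩ := (algSys W).exists_lam hl hl1 m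
    rw [hm, Submodule.mem_bot] at hy
    exact ne_zero_of_tr hy1 hy
  by_contra hcon
  have hlt : ∀ m, finrank W.K (W.H X) ^ 3 + finrank W.K (W.H X) ^ 3 % 2 ≤ m + 1 →
      (algSys W).C (pw X m) < (tatePred G).sys.C (pw X m) := by
    intro m' hm'
    refine lt_of_le_of_ne ClassPred.alg_le fun heq => hcon ?_
    have h3 : TateConj G (pw X m') := (ClassPred.sp_eq_iff (Q := tatePred G) (pw X m')).1 heq.symm
    exact hP m' (by omega) h3
  have hb1 : (1 : ℝ) ≤ 2 * (finrank W.K (W.H X) : ℝ) := by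
    have : (2 : ℝ) ≤ (finrank W.K (W.H X) : ℝ) := by exact_mod_cast hb
    linarith
  have hn' : (2 * (finrank W.K (W.H X) : ℝ)) ^ (3 * (finrank W.K (W.H X) ^ 3 +
      finrank W.K (W.H X) ^ 3 % 2)) / ε ^ 2 ≤ n + 1 := by
    refine le_trans ?_ hn
    exact div_le_div_of_nonneg_right (pow_le_pow_right₀ hb1 (by omega)) (by positivity)
  have key := Pool.Agent.Q60.HD.uniform_half (S := algSys W) (T := (tatePred G).sys)
    (fun Z => ClassPred.alg_le) (by omega) hpos hbot h8 h2 hlt hε (n := n) hn'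
  rw [numDim_eq_cycRank] at key
  exact absurd key (not_le.2 h)

/-- The conclusion for all powers of `X`. -/
def AllPowers (G : GaloisAction W Γ) (X : 𝒱.Obj) : Prop :=
  ∀ n, ((∀ i, SemisimpleAt G (pw X n) i) ∧ TateConj G (pw X n)) ∧ HomEqNum W (pw X n)

lemma allPowers_small (h : finrank W.K (W.H X) < 2) : AllPowers G X := fun n => by
  have h2 := strong_le_one (G := G) (X := X) (by omega) n
  exact ⟨h2, homEqNum_of_strong G ⟨fun j => h2.1 _, h2.2⟩⟩

/-- **The uniform half law** in any characteristic. -/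
theorem half (φ : W.K →+* ℂ) (hc : TateCentre G X) {D : X.Cycles} (hD : X.IsCyc 1 D)
    (hHL : HardLefschetz W X D) (hss : ∀ j, SemisimpleAt G (pw X 5) (2 * j))
    {ε : ℝ} (hε : 0 < ε) {n : ℕ} (hn : (2 * (finrank W.K (W.H X) : ℝ)) ^
      (3 * finrank W.K (W.H X) ^ 3 + 3) / ε ^ 2 ≤ n + 1)
    (h : (1 / 2 + ε) * tateDim G (pw X n) < cycRank ops (pw X n)) : AllPowers G X :=
  half_of hD hHL allPowers_small (fun _ hN hT n => cube φ hc hD hHL hss hN hT n) hε hn h

end Pool.Agent.Q60.TP
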