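import Pool.Agent.Q60.TP.FDefs
import Pool.Agent.Q56.DP.PoleDefs

/-!
# The index of the Tate classes: definitions
-/

set_option autoImplicit false

open CategoryTheory AlgebraicGeometry

universe u v w

namespace Pool.Agent.Q60.TP

open Pool.Agent.H914 Pool.Agent.H914.VarClass Pool.Agent.H914.VarClass.Obj
  Pool.Agent.H914.WeilCohomology
open Pool.Agent.Q55 (GaloisAction IsTate TateConj tateDim)
open Pool.Agent.Q60.TD (SemisimpleAt)
open Pool.Agent.Y133.Half (pw HasIndex cycRank)
open Pool.Agent.Q57.OP (res)
open Pool.Agent.Q56.DP (tateNumber poleNumber rankNumber)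

variable {k : Type u} [Field k] {𝒱 : VarClass k} {ops : CycleOps 𝒱}
  {W : WeilCohomology.{u, v} ops} {Γ : Type w} [Group Γ]

/-- The representations of the subgroup `Δ` on the cohomology of all powers of `X` are semisimple. -/
def GeoSemisimple (G : GaloisAction W Γ) (Δ : Subgroup Γ) (X : 𝒱.Obj) : Prop :=
  ∀ n i, SemisimpleAt (res G Δ) (pw X n) i

/-- The quotients `dim(Tate classes on X^n) / rank(cycles on X^n modulo numerical equivalence)`
converge to a natural number `m` between `1` and `B`; they are at most `m` if `n` is even; and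
`m = 1` if and only if for all powers of `X` all Tate classes are linear combinations of classes of
cycles. -/
def IndexAtMost (G : GaloisAction W Γ) (X : 𝒱.Obj) (B : ℕ) : Prop :=
  ∃ m : ℕ, 1 ≤ m ∧ m ≤ B ∧ HasIndex (tateNumber G X) (rankNumber ops X) m ∧
    (∀ n, tateNumber G X (2 * n + 1) ≤ m * rankNumber ops X (2 * n + 1)) ∧
    (m = 1 ↔ ∀ n, TateConj G (pw X n))

end Pool.Agent.Q60.TP
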