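import Pool.Agent.Q60.TP.Full

/-!
# The index of the Tate classes, and the comparison of two cohomology theories
-/

open CategoryTheory AlgebraicGeometry Filter Topology

open scoped ENNReal

set_option linter.unusedSectionVars false

universe u v v' w

namespace Pool.Agent.Q60.TP

open Module
open Pool.Agent.H914 Pool.Agent.H447 Pool.Agent.H914.VarClass Pool.Agent.H914.VarClass.Obj
  Pool.Agent.H914.WeilCohomology
open Pool.Agent.Y133.Half Pool.Agent.Q55
open Pool.Agent.H281R3.HT Pool.Agent.W536.RR Pool.Agent.Q60.TD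
open Pool.Agent.Q57.OP (res)
open Pool.Agent.Q56.DP (tateNumber poleNumber rankNumber TateNum Regular)

variable {k : Type u} [Field k] {𝒱 : VarClass k} {ops : CycleOps 𝒱} {X Y Z : 𝒱.Obj} {Γ : Type w}
  [Group Γ]

section Idx

variable {W : WeilCohomology.{u, v} ops} {G : GaloisAction W Γ}

lemma tateNumber_eq (n : ℕ) : tateNumber G X n = tateDim G (pw X n) := rfl

lemma conj_iso (θ : Y ≅ Z) : TateConj G Y ↔ TateConj G Z :=
  ⟨conj_retract' θ.inv_hom_id, conj_retract' θ.hom_inv_id⟩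

/-- **The index** from a bound for the dimensions. -/
theorem index_of_bound [Nontrivial (W.H X)] (hD : ∀ n, HomEqNum W (pw X n)) {B : ℕ}
    (hB : ∀ n, tateDim G (pw X (2 * n + 1)) ≤ B * cycRank ops (pw X (2 * n + 1))) :
    IndexAtMost G X B := by
  obtain ⟨N, h1, h2, h3, -⟩ := Pool.Agent.Q57.SP.full_index (tatePred G) X
  have hsub : Tendsto (fun n : ℕ => 2 * n + 1) atTop atTop :=
    tendsto_atTop_mono (fun n => by simp only [id]; omega) tendsto_id
  have hle : (N : ℝ≥0∞) ≤ (B : ℝ≥0∞) := by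
    refine le_of_tendsto (Tendsto.comp h2 hsub) (Eventually.of_forall fun n => ?_)
    change (tateDim G (pw X (2 * n + 1)) : ℝ≥0∞) / cycRank ops (pw X (2 * n + 1)) ≤ _
    refine ENNReal.div_le_of_le_mul ?_
    exact_mod_cast hB n
  have h7 : (B : ℝ≥0∞) = ((B : ℕ∞) : ℝ≥0∞) := by rw [ENat.toENNReal_coe]
  rw [h7, ENat.toENNReal_le] at hle
  obtain ⟨m, rfl⟩ := ENat.ne_top_iff_exists.1 (ne_top_of_le_ne_top (ENat.natCast_ne_top B) hle)
  obtain ⟨N', -, k2, k3, -⟩ := (tatePred G).index X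
  have e1 : ∀ n, (dimOf W {c | ∃ j, (tatePred G).P (Pool.Agent.Y129.pw X n) j c} : ℕ) =
      tateNumber G X n := fun n => (tatePred G).dim_pw X n
  have e2 : ∀ n, cycRank ops (Pool.Agent.Y129.pw X n) = rankNumber ops X n := fun n =>
    cycRank_iso W (pwIso129 X n)
  simp only [e1, e2] at k2 k3
  have hN' : N' = (m : ℕ∞) := by
    have h8 := tendsto_nhds_unique k2 h2
    exact_mod_cast h8
  subst hN'
  refine ⟨m, by exact_mod_cast h1, by exact_mod_cast hle, h2, fun n => ?_, ?_⟩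
  · have h9 := k3 n
    rw [ENat.toENNReal_coe, ENNReal.div_le_iff_le_mul (Or.inr (ENNReal.natCast_ne_top m))
      (Or.inl (ENNReal.natCast_ne_top _))] at h9
    exact_mod_cast h9
  · have h9 : m = 1 ↔ ((m : ℕ) : ℕ∞) = 1 := by norm_cast
    rw [h9, h3]
    constructor
    · intro h n
      exact fun j c hc => (h n).1 j c hc
    · intro h n
      exact ⟨fun j c hc => h n j c hc, hD n⟩

end Idx

section two

variable {W : WeilCohomology.{u, v} ops} {G : GaloisAction W Γ} {W' : WeilCohomology.{u, v'} ops}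
  (G' : GaloisAction W' Γ) {Δ : Subgroup Γ} [Δ.Normal] {F : Γ}

/-- **Transfer to a second cohomology theory.** -/
theorem transfer (hF : ∀ g : Γ, ∃ m : ℤ, ∃ d ∈ Δ, g = F ^ m * d) [Nontrivial (W.H X)]
    [Nontrivial (W'.H X)] (hL : poleNumber G Δ F X = poleNumber G' Δ F X) {B : ℕ}
    (hB : IndexAtMost G X B) :
    IndexAtMost G' X B ∧ tateNumber G' X = tateNumber G X ∧
      poleNumber G' Δ F X = tateNumber G X ∧ (∀ n, HomEqNum W' (pw X n)) ∧
      (GeoSemisimple G' Δ X → SemisimpleAndD G' X ∧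
        ((∀ n, TateConj G (pw X n)) → StrongForm G' X)) := by
  obtain ⟨m, h1, h1', h2, h2', h3⟩ := hB
  obtain ⟨N, -, -, k2, k3, k4, k5, k6⟩ := Pool.Agent.Q56.DP.index_independent G G' Δ F hF X hL
  have hN : N = (m : ℕ∞) := by
    have h8 := tendsto_nhds_unique k2 h2
    exact_mod_cast h8
  subst hN
  obtain ⟨l1, l2⟩ := k6 (ENat.natCast_ne_top m)
  have h9 : m = 1 ↔ ((m : ℕ) : ℕ∞) = 1 := by norm_cast
  have hss : GeoSemisimple G' Δ X → SemisimpleAndD G' X := fun hgeo n =>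
    ⟨fun i => (l2 n).2.2.2 i (hgeo n i), (l2 n).2.1⟩
  refine ⟨⟨m, h1, h1', by rw [← l1]; exact h2, by rw [← l1]; exact h2', ?_⟩, l1.symm, ?_,
    fun n => (l2 n).2.1, fun hgeo => ⟨hss hgeo, fun hT n => ?_⟩⟩
  · rw [h9, k5]
    exact ⟨fun h n => (h n).1, fun h n => ⟨h n, (l2 n).2.1⟩⟩
  · rw [← hL]
    funext n
    exact Pool.Agent.Q56.DP.dimBy_congr (l2 n).1.2.1
  · have h10 := k5.1 (h9.1 (h3.2 hT)) n
    exact ⟨(hss hgeo n).1, h10.2, full_of h10.2 h10.1⟩

end two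

section main

variable {W : WeilCohomology.{u, 0} ops} {G : GaloisAction W Γ}

lemma homEqNum_le' {m n : ℕ} (h : m ≤ n) (hn : HomEqNum W (pw X n)) : HomEqNum W (pw X m) := by
  obtain ⟨s, p, hsp⟩ := exists_retract (X := X) h
  rw [homEqNum_iff] at hn ⊢
  rw [eq_bot_iff]
  intro c hc'
  have h1 : W.map p c ∈ (algSys W).Num (pw X n) := Sys.Num.map p hc'
  rw [hn, Submodule.mem_bot] at h1
  have h3 : W.map s (W.map p c) = c := by rw [← W.map_comp, hsp, W.map_id]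
  rw [Submodule.mem_bot, ← h3, h1, map_zero]

/-- **The index and the full form** for one cohomology theory. -/
theorem one_theory (φ : W.K →+* ℂ) (hc : TateCentre G X) {D : X.Cycles} (hD : X.IsCyc 1 D)
    (hHL : HardLefschetz W X D) (h2 : ∀ j, SemisimpleAt G (pw X 1) (2 * j))
    (h4 : TateConj G (pw X 3)) (h6 : HomEqNum W (pw X 5)) [Nontrivial (W.H X)] :
    SemisimpleAndD G X ∧ IndexAtMost G X (4 ^ (finrank W.K (W.H X) ^ 2)) ∧
      ∀ N, finrank W.K (W.H X) ^ 3 ≤ N + 1 → TateConj G (pw X N) → StrongForm G X := by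
  obtain ⟨k1, k2, k3⟩ := low φ hc hD hHL h2 h4 h6
  refine ⟨k1, index_of_bound (fun n => (k1 n).2) k2, fun N hN hT n => ?_⟩
  exact ⟨(k1 n).1, (k1 n).2, full_of (k1 n).2 (k3 N hN hT n)⟩

/-- **The main theorem on the power `X ^ (b ^ 3)`.** -/
theorem cubic (φ : W.K →+* ℂ) (hc : TateCentre G X) {D : X.Cycles} (hD : X.IsCyc 1 D)
    (hHL : HardLefschetz W X D) [Nontrivial (W.H X)] {b : ℕ}
    (hb : finrank W.K (W.H X) = b) (h4 : TateConj G (power X 4)) (h6 : HomEqNum W (power X 6)) :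
    ((∀ j, SemisimpleAt G (power X 2) (2 * j)) →
      IndexAtMost G X (4 ^ b ^ 2) ∧ (TateConj G (power X (b ^ 3)) → StrongForm G X)) ∧
    ∀ (Δ : Subgroup Γ) [Δ.Normal] (F : Γ), (∀ g : Γ, ∃ m : ℤ, ∃ d ∈ Δ, g = F ^ m * d) →
      (∀ j, SemisimpleAt (res G Δ) (power X 2) (2 * j)) →
      IndexAtMost G X (4 ^ b ^ 2) ∧ (TateConj G (power X (b ^ 3)) → StrongForm G X) ∧
      ∀ (W' : WeilCohomology.{u, v'} ops) [Nontrivial (W'.H X)] (G' : GaloisAction W' Γ),
        poleNumber G Δ F X = poleNumber G' Δ F X →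
        IndexAtMost G' X (4 ^ b ^ 2) ∧ tateNumber G' X = tateNumber G X ∧
          (GeoSemisimple G' Δ X → TateConj G (power X (b ^ 3)) → StrongForm G' X) := by
  subst hb
  have hb1 : finrank W.K (W.H X) ^ 3 ≤ finrank W.K (W.H X) ^ 3 - 1 + 1 := by omega
  have key : (∀ j, SemisimpleAt G (power X 2) (2 * j)) →
      IndexAtMost G X (4 ^ (finrank W.K (W.H X)) ^ 2) ∧
        (TateConj G (power X ((finrank W.K (W.H X)) ^ 3)) → StrongForm G X) := fun h2 => by
    obtain ⟨-, k2, k3⟩ := one_theory φ hc hD hHL h2 h4 h6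
    exact ⟨k2, fun hT => k3 _ hb1 hT⟩
  refine ⟨key, fun Δ _ F hF hgeo => ?_⟩
  have h2 : ∀ j, SemisimpleAt G (power X 2) (2 * j) := fun j =>
    ss_square hF h4 (homEqNum_le' (m := 3) (by omega) h6) (hgeo j)
  obtain ⟨k1, k2⟩ := key h2
  refine ⟨k1, k2, fun W' _ G' hL => ?_⟩
  obtain ⟨l1, l2, -, -, l3⟩ := transfer G' hF hL k1
  refine ⟨l1, l2, fun hgeo' hT => (l3 hgeo').2 fun n => ?_⟩
  obtain ⟨-, -, k3⟩ := low φ hc hD hHL h2 h4 h6
  exact k3 _ hb1 hT n

/-- **The main theorem on the sixth power.** -/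
theorem sixth (φ : W.K →+* ℂ) (hc : TateCentre G X) {D : X.Cycles} (hD : X.IsCyc 1 D)
    (hHL : HardLefschetz W X D) [Nontrivial (W.H X)] (h4 : TateConj G (power X 4))
    (h6 : HomEqNum W (power X 6)) :
    ((∀ j, SemisimpleAt G (power X 2) (2 * j)) → SemisimpleAndD G X) ∧
    ∀ (Δ : Subgroup Γ) [Δ.Normal] (F : Γ), (∀ g : Γ, ∃ m : ℤ, ∃ d ∈ Δ, g = F ^ m * d) →
      (∀ j, SemisimpleAt (res G Δ) (power X 2) (2 * j)) →
      SemisimpleAndD G X ∧
      ∀ (W' : WeilCohomology.{u, v'} ops) [Nontrivial (W'.H X)] (G' : GaloisAction W' Γ),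
        poleNumber G Δ F X = poleNumber G' Δ F X →
        (∀ n, HomEqNum W' (power X n)) ∧ (GeoSemisimple G' Δ X → SemisimpleAndD G' X) := by
  have key : (∀ j, SemisimpleAt G (power X 2) (2 * j)) → SemisimpleAndD G X ∧
      IndexAtMost G X (4 ^ (finrank W.K (W.H X)) ^ 2) := fun h2 => by
    obtain ⟨k1, k2, -⟩ := one_theory φ hc hD hHL h2 h4 h6
    exact ⟨k1, k2⟩
  refine ⟨fun h2 => (key h2).1, fun Δ _ F hF hgeo => ?_⟩
  have h2 : ∀ j, SemisimpleAt G (power X 2) (2 * j) := fun j =>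
    ss_square hF h4 (homEqNum_le' (m := 3) (by omega) h6) (hgeo j)
  obtain ⟨k1, k2⟩ := key h2
  refine ⟨k1, fun W' _ G' hL => ?_⟩
  obtain ⟨-, -, -, l3, l4⟩ := transfer G' hF hL k2
  exact ⟨fun n => l3 (n - 1), fun hgeo' => (l4 hgeo').1⟩

end main

end Pool.Agent.Q60.TP
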