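import Pool.Agent.Q55.Ke.Thm
import Pool.Agent.Q60.TD.MainK

/-!
# A closed system of tensors in a position of minimal length

Let `B` be a unitary matrix. After a translation by a matrix which preserves `B`, a system of
tensors which is generated in bounded degree is stable under the antilinear structure given by `B`.
-/

set_option linter.unusedSectionVars false

open scoped ComplexOrder

namespace Pool.Agent.Q60.TP

open Module Matrix Pool.Agent.Q60.ED Pool.Agent.Q60.NP Pool.Agent.Q60.TD Pool.Agent.Q55.Ke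

variable {ι : Type} [Fintype ι] [DecidableEq ι] {B : Matrix ι ι ℂ}

/-- **The position of minimal length.** -/
theorem exists_kn (hB : Bᴴ * B = 1) {C : CSys B} {M : ℕ} {T : TSys ℂ ι}
    (hT : T.S = (C.genS M).S) :
    ∃ g ∈ Aut B, ∀ n, ∀ t ∈ T.S n, ∃ u ∈ T.S n, J0 B n (tpow g n t) = tpow g n u := by
  classical
  have hBd := det_of_unitary hB
  have hfg : ∀ m, ∃ s : Finset ((Fin m → ι) → ℂ),
      C.S m = Submodule.span ℂ (s : Set ((Fin m → ι) → ℂ)) := by
    intro m
    obtain ⟨s, hs⟩ : (C.S m).FG := IsNoetherian.noetherian _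
    exact ⟨s, hs.symm⟩
  choose s hspan using hfg
  let κ : Type := Σ m : Fin (M + 1), {x // x ∈ s m}
  let d : κ → ℕ := fun k => k.1
  let x : ∀ k : κ, (Fin (d k) → ι) → ℂ := fun k => k.2.1
  have hxC : ∀ k, x k ∈ C.S (d k) := by
    intro k
    rw [hspan]
    exact Submodule.subset_span k.2.2
  have hxT : ∀ k, x k ∈ T.S (d k) := by
    intro k
    rw [hT]
    exact CSys.le_genS (Nat.lt_succ_iff.1 k.1.2) (hxC k)
  have hxspan : ∀ m ≤ M, ∀ D : CSys B, (∀ k, x k ∈ D.S (d k)) → C.S m ≤ D.S m := by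
    intro m hm D hD
    rw [hspan]
    refine Submodule.span_le.2 fun y hy => ?_
    exact hD ⟨⟨m, Nat.lt_succ_iff.2 hm⟩, ⟨y, hy⟩⟩
  obtain ⟨g, hg, hmin⟩ := exists_min hBd hT x hxT hxspan
  have hgd := det_Aut hBd hg
  let y : ∀ k : κ, (Fin (d k) → ι) → ℂ := fun k => tpow g (d k) (x k)
  -- the consequence of minimality
  have key : ∀ v ∈ Aut B, (∀ k, nsq (tpow v (d k) (y k)) = nsq (y k)) →
      ∃ P ∈ Aut B, P.PosDef ∧ P * P = vᴴ * v ∧ ∀ k, tpow P (d k) (y k) = y k := by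
    intro v hv hvy
    have hvd := det_Aut hBd hv
    have hinj : Function.Injective v.mulVec := by
      intro a b hab
      have h1 := congrArg (v⁻¹.mulVec) hab
      simpa [mulVec_mulVec, nonsing_inv_mul _ (isUnit_iff_ne_zero.2 hvd)] using h1
    have hpd : (vᴴ * v).PosDef := by
      have h1 := (PosDef.one (n := ι) (R := ℂ)).conjTranspose_mul_mul_same hinj
      rwa [Matrix.mul_one] at h1
    obtain ⟨P, hP, hPp, hPP⟩ := Aut_sqrt hB (mul_mem_Aut (Aut_star hB hv) hv) hpd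
    obtain ⟨Q, hQ, hQp, hQQ⟩ := Aut_sqrt hB hP hPp
    refine ⟨P, hP, hPp, hPP, ?_⟩
    have hPn : ∀ k, nsq (tpow P (d k) (y k)) = nsq (y k) := by
      intro k
      rw [← hvy k]
      have h1 : ((nsq (tpow P (d k) (y k)) : ℝ) : ℂ) = (nsq (tpow v (d k) (y k)) : ℂ) := by
        rw [← ip_self, ← ip_self, ip_tpow, hPp.isHermitian.eq, ← tpow_mul, hPP, tpow_mul]
        exact (ip_tpow v _ _).symm
      exact_mod_cast h1
    have h2 : ∑ k, nsq (y k) ≤ ∑ k, nsq (tpow Q (d k) (y k)) := by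
      have h3 := hmin (Q * g) (mul_mem_Aut hQ hg)
      simp only [len, tpow_mul] at h3
      exact h3
    have h3 := kempf_ness Finset.univ y hQp.isHermitian.eq (by
      rw [hQQ]
      exact Finset.sum_congr rfl fun k _ => hPn k) h2
    rw [hQQ] at h3
    exact fun k => h3 k (Finset.mem_univ _)
  -- from the family to the system
  have ext : ∀ v ∈ Aut B, (∀ k, tpow v (d k) (y k) = y k) →
      ∀ n, ∀ t ∈ T.S n, tpow v n (tpow g n t) = tpow g n t := by
    intro v hv hvy n t ht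
    have hw : g⁻¹ * v * g ∈ Aut B := mul_mem_Aut (mul_mem_Aut (inv_mem_Aut hBd hg) hv) hg
    have h1 : tpow (g⁻¹ * v * g) n t = t := by
      rw [hT] at ht
      refine fix_genS hBd hw (fun m hm s hs => ?_) ht
      refine (mem_fixSys hBd hw).1 (hxspan m hm (fixSys hBd hw) (fun k => ?_) hs)
      rw [mem_fixSys, tpow_mul, tpow_mul]
      change tpow g⁻¹ _ (tpow v (d k) (y k)) = _
      rw [hvy k, tpow_inv_tpow hgd]
    rw [tpow_mul, tpow_mul] at h1
    have h2 := congrArg (tpow g n) h1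
    rwa [tpow_tpow_inv hgd] at h2
  refine ⟨g, hg, fun n t ht => ⟨tpow g⁻¹ n (J0 B n (tpow g n t)), ?_, (tpow_tpow_inv hgd _).symm⟩⟩
  have hom : (om B : (Fin 2 → ι) → ℂ) ∈ T.S 2 := by
    rw [hT]
    exact (C.genS M).om
  have homd : (mat2 (om B)).det ≠ 0 := by
    rw [mat2_om]
    exact (Matrix.isUnit_nonsing_inv_det _ (isUnit_iff_ne_zero.2 hBd)).ne_zero
  refine T.mem_of_fixed hom homd fun m hm => ?_
  have hmA : m ∈ Aut B := (Aut_om hBd).2 (hm 2 _ hom)
  set m' := g * m * g⁻¹ with hm'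
  have hm'A : m' ∈ Aut B := mul_mem_Aut (mul_mem_Aut hg hmA) (inv_mem_Aut hBd hg)
  have hm'T : ∀ n, ∀ t ∈ T.S n, tpow m' n (tpow g n t) = tpow g n t := by
    intro n t ht
    rw [hm', tpow_mul, tpow_inv_tpow hgd, tpow_mul, hm n t ht]
  obtain ⟨P', hP'A, -, hPP', hP'y⟩ := key m' hm'A fun k => by
    change nsq (tpow m' (d k) (tpow g (d k) (x k))) = nsq (tpow g (d k) (x k))
    rw [hm'T _ _ (hxT k)]
  have hsy : ∀ k, tpow m'ᴴ (d k) (y k) = y k := by
    intro k
    have h1 : tpow (m'ᴴ * m') (d k) (y k) = y k := by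
      rw [← hPP', tpow_mul, hP'y, hP'y]
    rw [tpow_mul] at h1
    have h2 : tpow m' (d k) (y k) = y k := hm'T _ _ (hxT k)
    rwa [h2] at h1
  have hsT := ext m'ᴴ (Aut_star hB hm'A) hsy
  have h1 := J0_tpow (n := n) (Aut_star hB hm'A) (tpow g n t)
  rw [conjTranspose_conjTranspose, hsT n t ht] at h1
  -- transport
  have h2 : m = g⁻¹ * m' * g := by
    rw [hm']
    calc m = (g⁻¹ * g) * m * (g⁻¹ * g) := by
          rw [nonsing_inv_mul _ (isUnit_iff_ne_zero.2 hgd), Matrix.one_mul, Matrix.mul_one]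
      _ = _ := by simp only [Matrix.mul_assoc]
  rw [h2, tpow_mul, tpow_mul, tpow_tpow_inv hgd, h1]

end Pool.Agent.Q60.TP
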