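import Pool.Agent.Q60.TP.Ten

/-!
# The Lie algebra is the infinitesimal stabiliser of the tensors of degree at most four
-/

set_option linter.unusedSectionVars false

namespace Pool.Agent.Q60.TP

open Module Matrix Pool.Agent.Q60.ED Pool.Agent.Q60.TD Pool.Agent.Q60.NP
open Pool.Agent.Q60.FI
open Pool.Agent.Q55.Ke (Aut mem_Aut om)

variable {L : Type} [Field L] {ι : Type} [Fintype ι] [DecidableEq ι] {Q : Matrix ι ι L}

/-- **The infinitesimal stabiliser is determined in degree four**, for a subspace of matrices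
instead of the infinitesimal stabiliser of a larger system. -/
theorem lie_mem (hQ : Q.det ≠ 0) {C : CSys Q} {𝔤 : Submodule L (Matrix ι ι L)}
    {P : Matrix (Fin 2 → ι) (Fin 2 → ι) L} (hPC : P ∈ C.opAlg hQ)
    (hLC : ∀ B ∈ 𝔤, ∀ m, ∀ s ∈ C.S m, aop B s = 0)
    (hP1 : ∀ A, ∃ B ∈ 𝔤, P.mulVec (tv Q A) = tv Q B)
    (hP2 : ∀ A ∈ 𝔤, P.mulVec (tv Q A) = tv Q A)
    (hconn : ∀ c : Matrix ι ι L, (∀ B ∈ 𝔤, B * c = c * B) →
      (∀ m ≤ 4, ∀ s ∈ C.S m, aop c s = 0) → tv Q c ∈ C.S 2)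
    (hcen : ∀ c : Matrix ι ι L, tv Q c ∈ C.S 2 → (∀ a, tv Q a ∈ C.S 2 → a * c = c * a) →
      (∀ s ∈ C.S 2, aop c s = 0) → c = 0)
    {x : Matrix ι ι L} (hx : ∀ m ≤ 4, ∀ s ∈ C.S m, aop x s = 0) : x ∈ 𝔤 := by
  obtain ⟨x', hx', hPx⟩ := hP1 x
  have hx2 := hx 2 (by norm_num)
  -- the commutators with the Lie algebra
  have hcom : ∀ B ∈ 𝔤, B * x' - x' * B = B * x - x * B := by
    intro B hB
    have hB2 := hLC B hB 2
    have e1 : (am x 2 * P).mulVec (tv Q B) = (P * am x 2).mulVec (tv Q B) := by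
      rw [am_comm hQ (hx 4 le_rfl) hPC]
    rw [← Matrix.mulVec_mulVec, ← Matrix.mulVec_mulVec, hP2 B hB, am_mulVec, aop_tv hx2] at e1
    have e2 : (am B 2 * P).mulVec (tv Q x) = (P * am B 2).mulVec (tv Q x) := by
      rw [am_comm hQ (hLC B hB 4) hPC]
    rw [← Matrix.mulVec_mulVec, ← Matrix.mulVec_mulVec, hPx, am_mulVec, am_mulVec, aop_tv hB2,
      aop_tv hB2] at e2
    have e3 : tv Q (B * x - x * B) = (-1 : L) • tv Q (x * B - B * x) := by
      rw [tv, tv]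
      funext w
      rw [Pi.smul_apply, NP.vec, NP.vec, ← Matrix.smul_apply, ← Matrix.smul_mul]
      rw [neg_one_smul, neg_sub]
    have e4 : P.mulVec (tv Q (B * x - x * B)) = tv Q (B * x - x * B) := by
      rw [e3, Matrix.mulVec_smul, ← e1]
    rw [e4] at e2
    exact tv_inj hQ e2
  set c := x - x' with hc
  have hcB : ∀ B ∈ 𝔤, B * c = c * B := by
    intro B hB
    have h1 := hcom B hB
    rw [hc, Matrix.mul_sub, Matrix.sub_mul, sub_eq_sub_iff_add_eq_add]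
    have h5 : B * x + x' * B = B * x' + x * B := by
      have := sub_eq_sub_iff_add_eq_add.1 h1
      rw [this, add_comm]
    rw [h5, add_comm]
  have hsub : ∀ m, ∀ s : (Fin m → ι) → L, aop x s = 0 → aop x' s = 0 → aop c s = 0 := by
    intro m s h5 h6
    funext I
    have h7 := congrFun h5 I
    have h8 := congrFun h6 I
    rw [aop_apply] at h7 h8 ⊢
    rw [Pi.zero_apply] at h7 h8 ⊢
    simp only [hc, Matrix.sub_apply, sub_mul, Finset.sum_sub_distrib]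
    rw [h7, h8, sub_zero]
  have hck : ∀ m ≤ 4, ∀ s ∈ C.S m, aop c s = 0 := fun m hm s hs =>
    hsub m s (hx m hm s hs) (hLC x' hx' m s hs)
  have hc2 := hconn c hcB hck
  have hc0 : c = 0 := by
    refine hcen c hc2 (fun a ha => ?_) (hck 2 (by norm_num))
    have h5 := hck 2 (by norm_num) _ ha
    rw [aop_tv (hck 2 (by norm_num))] at h5
    have h6 : tv Q (c * a - a * c) = tv Q 0 := by
      rw [h5]
      funext w
      simp [tv, NP.vec]
    have h7 := tv_inj hQ h6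
    exact (sub_eq_zero.1 h7).symm
  have h9 : x = x' := sub_eq_zero.1 hc0
  rw [h9]
  exact hx'

variable {G : Type*} [Group G] {R : TRep L ι G}

/-- The tensor of an endomorphism as a linear map. -/
noncomputable def tvL (Q : Matrix ι ι L) : Matrix ι ι L →ₗ[L] ((Fin 2 → ι) → L) where
  toFun := tv Q
  map_add' A B := by
    funext w
    rw [tv, tv, tv, Pi.add_apply, NP.vec, NP.vec, NP.vec, Matrix.add_mul, Matrix.add_apply]
  map_smul' c A := by
    funext w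
    rw [tv, tv, Pi.smul_apply, NP.vec, NP.vec, Matrix.smul_mul, Matrix.smul_apply]
    rfl

/-- **The projection onto the Lie algebra.** -/
theorem exists_PG [CharZero L] (h : Pres R Q) (hss : SSon (Op (R.ρn 2) ⊤) (R.Ev 2)) :
    ∃ P : Matrix (Fin 2 → ι) (Fin 2 → ι) L, tenM (P * TP Q⁻¹ 2) ∈ R.T (2 + 2) ∧
      (∀ A, ∃ B ∈ LieG R.ρ, P.mulVec (tv Q A) = tv Q B) ∧
      ∀ A ∈ LieG R.ρ, P.mulVec (tv Q A) = tv Q A := by
  classical
  have hev : ∀ A ∈ LieG R.ρ, tv Q A ∈ R.Ev 2 := by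
    intro A hA
    rw [TRep.mem_Ev, tpow_tv h.det h.s_aut TRep.s_mul, ← lie_s hA, Matrix.mul_assoc, TRep.s_mul,
      Matrix.mul_one]
  let W : Submodule L ((Fin 2 → ι) → L) := (LieG R.ρ).map (tvL Q)
  have hWE : W ≤ R.Ev 2 := by
    rintro _ ⟨A, hA, rfl⟩
    exact hev A hA
  have hWs : Stab (Op (R.ρn 2) ⊤) W := by
    rw [stab_op]
    rintro g _ _ ⟨A, hA, rfl⟩
    refine ⟨_, lie_conjG hA g, ?_⟩
    change tv Q _ = tpow (R.ρ g) 2 (tv Q A)
    rw [tpow_tv h.det (h.aut g) (g' := R.ρ g⁻¹) (by rw [← map_mul, mul_inv_cancel, map_one])]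
  obtain ⟨p, hp1, hp2, hp3⟩ := (ss_iff (TRep.ev_stab 2)).1 hss W hWE hWs
  let ε : ((Fin 2 → ι) → L) →ₗ[L] ((Fin 2 → ι) → L) :=
    (2 : L)⁻¹ • (LinearMap.id + tpow (diagonal R.s) 2)
  have hε : ∀ v, ε v = (2 : L)⁻¹ • (v + tpow (diagonal R.s) 2 v) := fun v => rfl
  have hss2 : ∀ v : (Fin 2 → ι) → L, tpow (diagonal R.s) 2 (tpow (diagonal R.s) 2 v) = v := by
    intro v
    rw [← tpow_mul, TRep.s_mul, tpow_one]
  have hεE : ∀ v, ε v ∈ R.Ev 2 := by
    intro v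
    rw [TRep.mem_Ev, hε, map_smul, map_add, hss2, add_comm]
  have hε1 : ∀ v ∈ R.Ev 2, ε v = v := by
    intro v hv
    rw [hε, TRep.mem_Ev.1 hv, ← two_smul L, smul_smul, inv_mul_cancel₀ two_ne_zero, one_smul]
  have hεg : ∀ g v, ε (tpow (R.ρ g) 2 v) = tpow (R.ρ g) 2 (ε v) := by
    intro g v
    rw [hε, hε, map_smul, map_add, ← tpow_mul, ← R.cent, tpow_mul]
  have hεs : ∀ v, ε (tpow (diagonal R.s) 2 v) = ε v := by
    intro v
    rw [hε, hε, hss2, add_comm]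
  set M : Matrix (Fin 2 → ι) (Fin 2 → ι) L := LinearMap.toMatrix' (p ∘ₗ ε) with hM
  have hMv : ∀ v, M *ᵥ v = p (ε v) := fun v => by
    rw [hM, ← Matrix.toLin'_apply, Matrix.toLin'_toMatrix']
    rfl
  have hext : ∀ A B : Matrix (Fin 2 → ι) (Fin 2 → ι) L, (∀ v, A *ᵥ v = B *ᵥ v) → A = B := by
    intro A B hAB
    apply Matrix.toLin'.injective
    exact LinearMap.ext fun v => by
      rw [Matrix.toLin'_apply, Matrix.toLin'_apply]
      exact hAB v
  have hcomm : ∀ g, TP (R.ρ g) 2 * M = M * TP (R.ρ g) 2 := by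
    intro g
    apply hext
    intro v
    rw [← Matrix.mulVec_mulVec, ← Matrix.mulVec_mulVec, ← tpow_eq, ← tpow_eq, hMv, hMv, hεg]
    exact (hp3 _ ⟨g, Subgroup.mem_top g, rfl⟩ _ (hεE v)).symm
  have hcomms : TP (diagonal R.s) 2 * M = M * TP (diagonal R.s) 2 := by
    apply hext
    intro v
    rw [← Matrix.mulVec_mulVec, ← Matrix.mulVec_mulVec, ← tpow_eq, ← tpow_eq, hMv, hMv, hεs]
    exact TRep.mem_Ev.1 (hWE (hp2 _ (hεE v)))
  refine ⟨M, mem_T_of_comm h (inferInstance : (⊤ : Subgroup G).FiniteIndex)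
    (fun g _ => hcomm g) hcomms, fun A => ?_, fun A hA => ?_⟩
  · rw [hMv]
    obtain ⟨B, hB, hB'⟩ := hp2 _ (hεE (tv Q A))
    exact ⟨B, hB, hB'.symm⟩
  · rw [hMv, hε1 _ (hev A hA)]
    exact hp1 _ ⟨A, hA, rfl⟩

/-- **The Lie algebra of the group is the infinitesimal stabiliser of the tensors of degree at most
four.** -/
theorem lie_of_kill [IsAlgClosed L] [CharZero L] (h : Pres R Q)
    (hss : SSon (Op (R.ρn 2) ⊤) (R.Ev 2))
    (hcen : ∀ c : Matrix ι ι L, tv Q c ∈ R.T 2 → (∀ a, tv Q a ∈ R.T 2 → a * c = c * a) →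
      (∀ s ∈ R.T 2, aop c s = 0) → c = 0)
    {x : Matrix ι ι L} (hx : ∀ m ≤ 4, ∀ s ∈ R.T m, aop x s = 0) : x ∈ LieG R.ρ := by
  obtain ⟨P, hP, hP1, hP2⟩ := exists_PG h hss
  have hPC : P ∈ (tS h).opAlg h.det := by
    rw [CSys.mem_opAlg, CSys.mem_M_iff]
    exact hP
  refine lie_mem h.det hPC (fun B hB m s hs => lie_T hs hB) hP1 hP2 ?_ hcen hx
  intro c hc hck
  change tv Q c ∈ R.T 2
  -- the matrix commutes with the signs
  have hs2 : tv Q (diagonal R.s) ∈ R.T 2 := by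
    refine ⟨?_, ⊤, inferInstance, fun g _ => ?_⟩
    · rw [TRep.mem_Ev, tpow_tv h.det h.s_aut TRep.s_mul, TRep.s_mul, Matrix.one_mul]
    · rw [tpow_tv h.det (h.aut g) (g' := R.ρ g⁻¹) (by rw [← map_mul, mul_inv_cancel, map_one]),
        R.cent, Matrix.mul_assoc, ← map_mul, mul_inv_cancel, map_one, Matrix.mul_one]
  have hk2 : ∀ s ∈ (tS h).S 2, aop c s = 0 := hck 2 (by norm_num)
  have hcs : c * diagonal R.s = diagonal R.s * c := by
    have h1 := hk2 _ hs2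
    rw [aop_tv hk2] at h1
    have h2 : tv Q (c * diagonal R.s - diagonal R.s * c) = tv Q 0 := by
      rw [h1]
      funext w
      simp [tv, NP.vec]
    exact sub_eq_zero.1 (tv_inj h.det h2)
  refine T_of_lie ?_ fun A hA => ?_
  · rw [TRep.mem_Ev, tpow_tv h.det h.s_aut TRep.s_mul, ← hcs, Matrix.mul_assoc, TRep.s_mul,
      Matrix.mul_one]
  · rw [aop_tv (C := tS h) (fun s hs => lie_T hs hA), hc A hA, sub_self]
    funext w
    simp [tv, NP.vec]

end Pool.Agent.Q60.TP
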