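import Pool.Agent.Q60.TP.CMain
import Pool.Agent.Q60.TP.Lieq
import Pool.Agent.Q60.NP.MainT

/-!
# The theorem over an algebraically closed field with an embedding in the complex numbers
-/

set_option linter.unusedSectionVars false

namespace Pool.Agent.Q60.TP

open Module Matrix Pool.Agent.Q60.ED Pool.Agent.Q60.TD Pool.Agent.Q60.NP Pool.Agent.Q60.FI
open Pool.Agent.Q55.Ke (Aut mem_Aut om)

section avg

variable {K V : Type*} [Field K] [CharZero K] [AddCommGroup V] [Module K V] {G : Type*} [Group G]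
  {ρ : G →* Module.End K V}

/-- The mean over the cosets of a projection which commutes with a subgroup of finite index. -/
theorem avg_proj {W : Submodule K V} (hW : ∀ g, ∀ w ∈ W, ρ g w ∈ W) (Δ : Subgroup G)
    [Δ.FiniteIndex] {p : V →ₗ[K] V} (hp1 : ∀ w ∈ W, p w = w) (hp2 : ∀ v, p v ∈ W)
    (hp3 : ∀ g ∈ Δ, ∀ v, p (ρ g v) = ρ g (p v)) :
    ∃ q : V →ₗ[K] V, (∀ w ∈ W, q w = w) ∧ (∀ v, q v ∈ W) ∧ ∀ g v, q (ρ g v) = ρ g (q v) := by
  classical
  have hfin : Fintype (G ⧸ Δ) := Fintype.ofFinite _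
  have hm : (Fintype.card (G ⧸ Δ) : K) ≠ 0 := Nat.cast_ne_zero.2 Fintype.card_ne_zero
  have hinv : ∀ g : G, ∀ v, ρ g (ρ g⁻¹ v) = v := fun g v => by
    have h1 : (ρ g * ρ g⁻¹) v = v := by rw [← map_mul, mul_inv_cancel, map_one]; rfl
    exact h1
  have hmul : ∀ g g' : G, ∀ v, ρ (g * g') v = ρ g (ρ g' v) := fun g g' v => by
    rw [map_mul]; rfl
  let T : G ⧸ Δ → V →ₗ[K] V := fun q => ρ q.out ∘ₗ p ∘ₗ ρ q.out⁻¹
  have hT : ∀ q v, T q v = ρ q.out (p (ρ q.out⁻¹ v)) := fun q v => rfl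
  have key : ∀ (g : G) (q : G ⧸ Δ) (u : V), T (g • q) (ρ g u) = ρ g (T q u) := by
    intro g q u
    obtain ⟨δ, hδ, hout⟩ : ∃ δ ∈ Δ, (g • q).out = g * q.out * δ := by
      refine ⟨(g * q.out)⁻¹ * (g • q).out, ?_, by group⟩
      rw [← QuotientGroup.eq, ← smul_eq_mul, ← MulAction.Quotient.smul_mk,
        QuotientGroup.out_eq', QuotientGroup.out_eq']
    rw [hT, hT, hout]
    have h1 : (g * q.out * δ)⁻¹ = δ⁻¹ * (q.out⁻¹ * g⁻¹) := by group
    rw [h1, hmul δ⁻¹, hmul q.out⁻¹, hmul (g * q.out) δ, hmul g q.out]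
    have h2 : ρ g⁻¹ (ρ g u) = u := by
      have := hinv g⁻¹ u
      rwa [inv_inv] at this
    rw [h2, hp3 _ (Δ.inv_mem hδ), hinv]
  refine ⟨(Fintype.card (G ⧸ Δ) : K)⁻¹ • ∑ q, T q, ?_, ?_, ?_⟩
  · intro w hw
    rw [LinearMap.smul_apply, LinearMap.sum_apply]
    have h1 : ∀ q, T q w = w := fun q => by
      rw [hT, hp1 _ (hW _ w hw), hinv]
    simp only [h1, Finset.sum_const, Finset.card_univ]
    rw [← Nat.cast_smul_eq_nsmul K, smul_smul, inv_mul_cancel₀ hm, one_smul]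
  · intro u
    rw [LinearMap.smul_apply, LinearMap.sum_apply]
    exact Submodule.smul_mem _ _ (Submodule.sum_mem _ fun q _ => hW _ _ (hp2 _))
  · intro g u
    rw [LinearMap.smul_apply, LinearMap.smul_apply, LinearMap.sum_apply, LinearMap.sum_apply,
      map_smul, map_sum]
    congr 1
    rw [← Equiv.sum_comp (MulAction.toPerm g)]
    exact Finset.sum_congr rfl fun q _ => key g q u

end avg

variable {L : Type} [Field L] [CharZero L] [IsAlgClosed L] {ι : Type} [Fintype ι]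
  [DecidableEq ι] {G : Type*} [Group G] {R : TRep L ι G} {Q : Matrix ι ι L}

/-- An operator which commutes with the Lie algebra and with the signs commutes with a subgroup of
finite index. -/
theorem comm_of_lie (h : Pres R Q) {n : ℕ} {M : Matrix (Fin n → ι) (Fin n → ι) L}
    (hM : ∀ A ∈ LieG R.ρ, am A n * M = M * am A n)
    (hs : TP (diagonal R.s) n * M = M * TP (diagonal R.s) n) :
    ∃ Δ : Subgroup G, Δ.FiniteIndex ∧ ∀ g ∈ Δ, TP (R.ρ g) n * M = M * TP (R.ρ g) n := by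
  have hQ' : (Q⁻¹).det ≠ 0 :=
    (Matrix.isUnit_nonsing_inv_det _ (isUnit_iff_ne_zero.2 h.det)).ne_zero
  have h1 : tenM (M * TP Q⁻¹ n) ∈ R.T (n + n) := by
    refine T_of_lie ?_ fun A hA => ?_
    · rw [TRep.mem_Ev]
      exact (inv_iff (Pool.Agent.Q55.Ke.det_Aut h.det h.s_aut) hQ'
        ((Pool.Agent.Q55.Ke.Aut_dual h.det).1 h.s_aut) _).2 hs
    · have h2 : am A n * TP Q⁻¹ n + TP Q⁻¹ n * (am A n).transpose = 0 :=
        am_of_kill (lie_T (CSys.mem_M_iff.1 (CSys.M_one (C := tS h) n)) hA)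
      funext L'
      obtain ⟨I, J, rfl⟩ : ∃ (I : Fin n → ι) (J : Fin n → ι), L' = Fin.append I J :=
        ⟨fun k => L' (Fin.castAdd n k), fun k => L' (Fin.natAdd n k),
          (Fin.append_castAdd_natAdd (f := L')).symm⟩
      rw [aop_tenM, ← Matrix.mul_assoc, hM A hA, Matrix.mul_assoc, Matrix.mul_assoc,
        ← Matrix.mul_add, h2, Matrix.mul_zero]
      rfl
  obtain ⟨-, Δ, hΔ, hfix⟩ := h1
  refine ⟨Δ, hΔ, fun g hg => ?_⟩
  exact (inv_iff (Pool.Agent.Q55.Ke.det_Aut h.det (h.aut g)) hQ'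
    ((Pool.Agent.Q55.Ke.Aut_dual h.det).1 (h.aut g)) _).1 (hfix g hg)

section main

variable [Algebra L ℂ] (h : Pres R Q) (hss : SSon (Op (R.ρn 2) ⊤) (R.Ev 2))
  (hcen : ∀ c : Matrix ι ι L, tv Q c ∈ R.T 2 → (∀ a, tv Q a ∈ R.T 2 → a * c = c * a) →
    (∀ s ∈ R.T 2, aop c s = 0) → c = 0)

include h hss hcen

/-- The linear forms of an infinitesimal stabiliser. -/
lemma form_lie {X : Matrix ι ι ℂ} (hX : ∀ m ≤ 4, ∀ t ∈ bcS ℂ (R.T m), aop X t = 0)
    (l : ℂ →ₗ[L] L) : Matrix.of (fun i j => l (X i j)) ∈ LieG R.ρ := by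
  apply lie_of_kill h hss hcen
  intro m hm t ht
  funext I
  rw [← aop_form, hX m hm _ (bc_mem ht), Pi.zero_apply, map_zero]
  rfl

/-- The data over the complex numbers. -/
lemma chyp (C : CSys Q) (hCT : ∀ n, C.S n ≤ R.T n) :
    CHyp (Q.map (algebraMap L ℂ)) (fun i => algebraMap L ℂ (R.s i)) (exC ℂ C)
      (fun n => bcS ℂ (R.T n)) := by
  have hdiag : diagonal (fun i => algebraMap L ℂ (R.s i)) =
      (diagonal R.s).map (algebraMap L ℂ) := by
    rw [diagonal_map (map_zero _)]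
  refine
    { det := ?_
      pm := ?_
      symm := ?_
      comm := ?_
      le := fun n => bcS_mono (hCT n)
      even := ?_
      key := ?_
      mem := ?_ }
  · have h3 : (Q.map (algebraMap L ℂ)).det = algebraMap L ℂ Q.det :=
      ((algebraMap L ℂ).map_det _).symm
    rw [h3]
    exact (map_ne_zero _).2 h.det
  · intro i
    rcases R.s_pm i with h1 | h1
    · left
      rw [h1, map_one]
    · right
      rw [h1, map_neg, map_one]
  · rw [hdiag, ← Matrix.map_mul, ← h.symm]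
    rfl
  · rw [hdiag, ← Matrix.map_mul, ← Matrix.map_mul, h.comm]
  · intro n t ht
    refine Submodule.span_induction (p := fun t _ =>
      tpow (diagonal fun i => algebraMap L ℂ (R.s i)) n t = t) ?_ (map_zero _)
      (fun a b _ _ ha hb => by rw [map_add, ha, hb]) (fun c a _ ha => by rw [map_smul, ha]) ht
    rintro _ ⟨u, hu, rfl⟩
    rw [hdiag, tpow_bc, TRep.mem_Ev.1 hu.1]
  · intro X hX n t ht
    refine Submodule.span_induction (p := fun t _ => aop X t = 0) ?_ (aop_zeroL X)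
      (fun a b _ _ ha hb => by rw [aop_addL, ha, hb, add_zero])
      (fun c a _ ha => by rw [aop_smulL, ha, smul_zero]) ht
    rintro _ ⟨u, hu, rfl⟩
    funext I
    apply eq_zero_of_forms (K := L)
    intro l
    rw [aop_form, lie_T hu (form_lie h hss hcen hX l)]
    rfl
  · intro n t hte htX
    apply mem_bcS
    intro l
    refine T_of_lie ?_ fun A hA => ?_
    · rw [TRep.mem_Ev, ← tpow_form', ← hdiag, hte]
    · rw [← aop_form', htX]
      · funext I
        exact map_zero _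
      · intro m s hs
        exact aop_bcS (fun u hu => lie_T hu hA) hs

/-- **The main theorem over the algebraic closure.** -/
theorem lmain (C : CSys Q) (hCT : ∀ n, C.S n ≤ R.T n) (hb : 2 ≤ Fintype.card ι)
    (hTS : ∀ n ≤ Fintype.card ι ^ 3, R.T n ≤ C.S n)
    (hnd : ∀ n ≤ 6, ∀ v ∈ C.S n, (∀ w ∈ C.S n, bf (TP Q n) v w = 0) → v = 0) (n : ℕ) :
    R.T n ≤ C.S n := fun t ht => by
  have H := chyp h hss hcen C hCT
  exact of_bc_mem (L := ℂ) (H.main hb (fun n hn => bcS_mono (hTS n hn))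
    (fun n hn => exC_nd (hnd n hn)) n (bc_mem ht))

omit h hss hcen in
lemma bf_bc {K : Type} [Field K] {F : Type} [Field F] [Algebra K F] (Q : Matrix ι ι K) {n : ℕ}
    (v w : (Fin n → ι) → K) :
    bf (TP (Q.map (algebraMap K F)) n) (bc F v) (bc F w) = algebraMap K F (bf (TP Q n) v w) := by
  rw [bf, bf, map_sum]
  refine Finset.sum_congr rfl fun I _ => ?_
  rw [map_sum]
  refine Finset.sum_congr rfl fun J _ => ?_
  rw [TP_map, Matrix.map_apply, map_mul, map_mul]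
  rfl

/-- The form is nondegenerate on the virtually invariant tensors. -/
theorem lnd (C : CSys Q) (hCT : ∀ n, C.S n ≤ R.T n) (hTS : ∀ n ≤ 4, R.T n ≤ C.S n)
    (hnd : ∀ n ≤ 6, ∀ v ∈ C.S n, (∀ w ∈ C.S n, bf (TP Q n) v w = 0) → v = 0) {n : ℕ}
    {v : (Fin n → ι) → L} (hv : v ∈ R.T n) (hw : ∀ w ∈ R.T n, bf (TP Q n) v w = 0) : v = 0 := by
  have H := chyp h hss hcen C hCT
  have h1 := H.T_nd (fun n hn => bcS_mono (hTS n hn)) (fun n hn => exC_nd (hnd n hn))
    (n := n) (v := bc ℂ v) (bc_mem hv) (by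
      intro w hwT
      refine Submodule.span_induction
        (p := fun w _ => bf (TP (Q.map (algebraMap L ℂ)) n) (bc ℂ v) w = 0) ?_ ?_ ?_ ?_ hwT
      · rintro _ ⟨u, hu, rfl⟩
        rw [bf_bc, hw u hu, map_zero]
      · simp [bf]
      · intro a b _ _ ha hb
        rw [bf_add_right, ha, hb, add_zero]
      · intro c a _ ha
        rw [bf_smul_right, ha, mul_zero])
  apply bc_inj (L := ℂ)
  rw [h1]
  funext I
  exact (map_zero _).symm

/-- **Semisimplicity.** -/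
theorem lss (C : CSys Q) (hCT : ∀ n, C.S n ≤ R.T n) (hTS : ∀ n ≤ 4, R.T n ≤ C.S n)
    (hnd : ∀ n ≤ 6, ∀ v ∈ C.S n, (∀ w ∈ C.S n, bf (TP Q n) v w = 0) → v = 0) (n : ℕ) :
    SSon (Op (R.ρn n) ⊤) ⊤ := by
  classical
  have H := chyp h hss hcen C hCT
  have h2 := H.proj (fun n hn => bcS_mono (hTS n hn)) fun n hn => exC_nd (hnd n hn)
  rw [ss_iff stab_top]
  intro W _ hWs
  rw [stab_op] at hWs
  have hWg : ∀ g, ∀ w ∈ W, R.ρn n g w ∈ W := fun g w hw => hWs g (Subgroup.mem_top g) w hw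
  have hWL : ∀ A ∈ LieG R.ρ, ∀ w ∈ W, aop A w ∈ W := fun A hA => lie_stab hWg hA
  have hWσ : ∀ w ∈ W, tpow (diagonal R.s) n w ∈ W := fun w hw => by
    rw [← R.ρz]
    exact hWg _ w hw
  obtain ⟨p, hp1, hp2, hp3⟩ := h2 n (bcS ℂ W) (by
    intro X hX w hw
    refine Submodule.span_induction (p := fun w _ => aop X w ∈ bcS ℂ W) ?_ ?_ ?_ ?_ hw
    · rintro _ ⟨u, hu, rfl⟩
      apply mem_bcS
      intro l
      have h3 := hWL _ (form_lie h hss hcen (fun m _ t ht => hX m t ht) l) u hu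
      have h4 : (fun a => l (aop X (bc ℂ u) a)) = aop (Matrix.of fun i j => l (X i j)) u :=
        funext fun I => aop_form l X u I
      rw [h4]
      exact h3
    · rw [aop_zeroL]
      exact Submodule.zero_mem _
    · intro a b _ _ ha hb
      rw [aop_addL]
      exact Submodule.add_mem _ ha hb
    · intro c a _ ha
      rw [aop_smulL]
      exact Submodule.smul_mem _ _ ha)
  -- descent
  obtain ⟨l, hl⟩ := exists_ret (K := L) (L := ℂ)
  let p₀ : ((Fin n → ι) → L) →ₗ[L] ((Fin n → ι) → L) :=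
    { toFun := fun u a => l (p (bc ℂ u) a)
      map_add' := fun u v => by
        funext a
        have h3 : bc ℂ (u + v) = bc ℂ u + bc ℂ v := by
          funext b; exact map_add _ _ _
        rw [h3, map_add, Pi.add_apply, map_add, Pi.add_apply]
      map_smul' := fun c u => by
        funext a
        have h3 : bc ℂ (c • u) = (algebraMap L ℂ c) • bc ℂ u := by
          funext b; exact map_mul _ _ _
        rw [h3, map_smul, Pi.smul_apply, smul_eq_mul, RingHom.id_apply, Pi.smul_apply,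
          ← Algebra.smul_def, map_smul] }
  have hp₀ : ∀ u, p₀ u = fun a => l (p (bc ℂ u) a) := fun u => rfl
  have hp₀1 : ∀ w ∈ W, p₀ w = w := by
    intro w hw
    rw [hp₀, hp1 _ (bc_mem hw)]
    funext a
    exact hl _
  have hp₀2 : ∀ v, p₀ v ∈ W := by
    intro v
    rw [hp₀]
    exact lam_mem l (hp2 _)
  have hp₀3 : ∀ A ∈ LieG R.ρ, ∀ v, p₀ (aop A v) = aop A (p₀ v) := by
    intro A hA v
    rw [hp₀, hp₀, ← aop_form', ← aop_bc, hp3]
    intro m s hs
    exact aop_bcS (fun u hu => lie_T hu hA) hs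
  -- the parity
  have hσσ : ∀ v : (Fin n → ι) → L, tpow (diagonal R.s) n (tpow (diagonal R.s) n v) = v := by
    intro v
    rw [← tpow_mul, TRep.s_mul, tpow_one]
  let q : ((Fin n → ι) → L) →ₗ[L] ((Fin n → ι) → L) :=
    (2 : L)⁻¹ • (p₀ + tpow (diagonal R.s) n ∘ₗ p₀ ∘ₗ tpow (diagonal R.s) n)
  have hq : ∀ v, q v = (2 : L)⁻¹ • (p₀ v + tpow (diagonal R.s) n (p₀ (tpow (diagonal R.s) n v))) :=
    fun v => rfl
  have hq1 : ∀ w ∈ W, q w = w := by
    intro w hw
    rw [hq, hp₀1 w hw, hp₀1 _ (hWσ w hw), hσσ, ← two_smul L, smul_smul,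
      inv_mul_cancel₀ two_ne_zero, one_smul]
  have hq2 : ∀ v, q v ∈ W := by
    intro v
    rw [hq]
    exact W.smul_mem _ (W.add_mem (hp₀2 _) (hWσ _ (hp₀2 _)))
  have hq3 : ∀ A ∈ LieG R.ρ, ∀ v, q (aop A v) = aop A (q v) := by
    intro A hA v
    have h3 : ∀ u : (Fin n → ι) → L, tpow (diagonal R.s) n (aop A u) =
        aop A (tpow (diagonal R.s) n u) := fun u => tpow_aop (lie_s hA).symm u
    rw [hq, hq, aop_smulL, aop_addL, hp₀3 A hA, h3, hp₀3 A hA, h3]
  have hq4 : ∀ v, q (tpow (diagonal R.s) n v) = tpow (diagonal R.s) n (q v) := by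
    intro v
    rw [hq, hq, hσσ, map_smul, map_add, hσσ, add_comm]
  set M : Matrix (Fin n → ι) (Fin n → ι) L := LinearMap.toMatrix' q with hM
  have hMv : ∀ v, M *ᵥ v = q v := fun v => by
    rw [hM, ← Matrix.toLin'_apply, Matrix.toLin'_toMatrix']
  have hext : ∀ A B : Matrix (Fin n → ι) (Fin n → ι) L, (∀ v, A *ᵥ v = B *ᵥ v) → A = B := by
    intro A B hAB
    apply Matrix.toLin'.injective
    exact LinearMap.ext fun v => by
      rw [Matrix.toLin'_apply, Matrix.toLin'_apply]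
      exact hAB v
  obtain ⟨Δ, hΔ, hΔM⟩ := comm_of_lie h (M := M)
    (fun A hA => hext _ _ fun v => by
      rw [← Matrix.mulVec_mulVec, ← Matrix.mulVec_mulVec, am_mulVec, am_mulVec, hMv, hMv,
        hq3 A hA])
    (hext _ _ fun v => by
      rw [← Matrix.mulVec_mulVec, ← Matrix.mulVec_mulVec, ← tpow_eq, ← tpow_eq, hMv, hMv, hq4])
  obtain ⟨r, hr1, hr2, hr3⟩ := avg_proj (ρ := R.ρn n) hWg Δ hq1 hq2 fun g hg v => by
    have h3 := congrArg (fun A => A *ᵥ v) (hΔM g hg)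
    simp only [← Matrix.mulVec_mulVec, ← tpow_eq, hMv] at h3
    exact h3.symm
  refine ⟨r, hr1, fun u _ => hr2 u, ?_⟩
  rintro _ ⟨g, _, rfl⟩ u _
  exact hr3 g u

end main

end Pool.Agent.Q60.TP
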