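import Pool.Agent.Q60.TD.Rey
import Pool.Agent.H135R2.VS.Der

/-!
# The Lie algebra of the Zariski closure of a group of matrices

A polynomial function all of whose derivatives along the Lie algebra vanish on the group has
finitely many values on the group.
-/

set_option linter.unusedSectionVars false

namespace Pool.Agent.Q60.TP

open MvPolynomial Algebra Module Pool.Agent.Q60.ED Pool.Agent.Q60.TD

variable {L : Type} [Field L] {ι : Type} [Fintype ι] [DecidableEq ι]

lemma dA_addL (A B : Matrix ι ι L) (f : MvPolynomial (ι × ι) L) :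
    dA (A + B) f = dA A f + dA B f := by
  have h1 : dA (A + B) = dA A + dA B := by
    refine MvPolynomial.derivation_ext fun p => ?_
    rw [Derivation.add_apply, dA_X, dA_X, dA_X, ← Finset.sum_add_distrib]
    refine Finset.sum_congr rfl fun c _ => ?_
    rw [Matrix.add_apply, map_add, mul_add]
  rw [h1, Derivation.add_apply]

lemma dA_smulL (c : L) (A : Matrix ι ι L) (f : MvPolynomial (ι × ι) L) :
    dA (c • A) f = c • dA A f := by
  have h1 : dA (c • A) = c • dA A := by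
    refine MvPolynomial.derivation_ext fun p => ?_
    rw [Derivation.smul_apply, dA_X, dA_X, Finset.smul_sum]
    refine Finset.sum_congr rfl fun k _ => ?_
    rw [Matrix.smul_apply, smul_eq_mul, map_mul, smul_eq_C_mul]
    ring
  rw [h1, Derivation.smul_apply]

/-- The derivation commutes with the left translations. -/
lemma dA_lrho (A h : Matrix ι ι L) (f : MvPolynomial (ι × ι) L) :
    dA A (lrho h f) = lrho h (dA A f) := by
  induction f using MvPolynomial.induction_on with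
  | C a =>
    have h1 : lrho h (C a) = C a := aeval_C _ _
    rw [h1, dA_C, map_zero]
  | add p q hp hq => rw [map_add, map_add, map_add, map_add, hp, hq]
  | mul_X p q hp =>
    have h1 : lrho h (X q) = ∑ k, C (h q.1 k) * X (k, q.2) := aeval_X _ _
    have h2 : dA A (lrho h (X q)) = lrho h (dA A (X q)) := by
      rw [h1, dA_X, map_sum, map_sum]
      have e1 : ∀ k, dA A (C (h q.1 k) * X (k, q.2)) =
          ∑ c, C (h q.1 k) * (X (k, c) * C (A c q.2)) := by
        intro k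
        rw [Derivation.leibniz, smul_eq_mul, smul_eq_mul, dA_C, mul_zero, add_zero, dA_X,
          Finset.mul_sum]
      have e2 : ∀ c, lrho h (X (q.1, c) * C (A c q.2)) =
          ∑ k, C (h q.1 k) * (X (k, c) * C (A c q.2)) := by
        intro c
        have h3 : lrho h (X (q.1, c)) = ∑ k, C (h q.1 k) * X (k, c) := aeval_X _ _
        have h4 : lrho h (C (A c q.2)) = C (A c q.2) := aeval_C _ _
        rw [map_mul, h3, h4, Finset.sum_mul]
        exact Finset.sum_congr rfl fun k _ => by ring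
      simp only [e1, e2]
      exact Finset.sum_comm
    rw [map_mul, Derivation.leibniz, Derivation.leibniz, hp, h2, map_add]
    simp only [smul_eq_mul, map_mul]

variable {G : Type*} [Group G] (ρ : G →* Matrix ι ι L)

/-- The polynomials which vanish on the group. -/
def VI : Ideal (MvPolynomial (ι × ι) L) where
  carrier := {f | ∀ g, evM (ρ g) f = 0}
  add_mem' := fun {a b} ha hb g => by rw [map_add, ha g, hb g, add_zero]
  zero_mem' := fun g => map_zero _
  smul_mem' := fun c a ha g => by rw [smul_eq_mul, map_mul, ha g, mul_zero]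

variable {ρ}

lemma mem_VI {f : MvPolynomial (ι × ι) L} : f ∈ VI ρ ↔ ∀ g, evM (ρ g) f = 0 := Iff.rfl

lemma VI_radical : (VI ρ).IsRadical := by
  rintro f ⟨n, hn⟩ g
  have h1 := hn g
  rw [map_pow] at h1
  exact eq_zero_of_pow_eq_zero h1

lemma lrho_VI {f : MvPolynomial (ι × ι) L} (hf : f ∈ VI ρ) (g : G) : lrho (ρ g) f ∈ VI ρ := by
  intro g'
  rw [evM_lrho, ← map_mul]
  exact hf _

lemma rho_VI {f : MvPolynomial (ι × ι) L} (hf : f ∈ VI ρ) (g : G) : rho (ρ g) f ∈ VI ρ := by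
  intro g'
  rw [evM_rho, ← map_mul]
  exact hf _

variable (ρ) in
/-- The Lie algebra of the Zariski closure of the group. -/
noncomputable def LieG : Submodule L (Matrix ι ι L) where
  carrier := {A | ∀ f ∈ VI ρ, ∀ g, evM (ρ g) (dA A f) = 0}
  add_mem' := fun {a b} ha hb f hf g => by
    rw [dA_addL, map_add, ha f hf g, hb f hf g, add_zero]
  zero_mem' := fun f _ g => by
    have h1 : dA (0 : Matrix ι ι L) f = 0 := by
      have h2 := dA_smulL 0 (0 : Matrix ι ι L) f
      rwa [zero_smul, zero_smul] at h2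
    rw [h1, map_zero]
  smul_mem' := fun c a ha f hf g => by
    rw [dA_smulL, map_smul, ha f hf g, smul_zero]

lemma mem_LieG {A : Matrix ι ι L} : A ∈ LieG ρ ↔ ∀ f ∈ VI ρ, ∀ g, evM (ρ g) (dA A f) = 0 :=
  Iff.rfl

lemma alg_C [IsAlgClosed L] {F : Type*} [Field F] [Algebra L F] {x : F} (hx : IsAlgebraic L x) :
    ∃ c : L, algebraMap L F c = x := by
  have h1 := minpoly.irreducible hx.isIntegral
  have h2 := IsAlgClosed.degree_eq_one_of_irreducible L h1
  exact minpoly.mem_range_of_degree_eq_one L x h2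

variable [IsAlgClosed L] [CharZero L]

/-- The function is constant on every component. -/
lemma const_comp {f : MvPolynomial (ι × ι) L}
    (hf : ∀ A ∈ LieG ρ, ∀ g, evM (ρ g) (dA A f) = 0) {𝔭 : Ideal (MvPolynomial (ι × ι) L)}
    (h𝔭 : 𝔭 ∈ (VI ρ).minimalPrimes) : ∃ c : L, f - C c ∈ 𝔭 := by
  classical
  have hp : 𝔭.IsPrime := h𝔭.1.1
  have hVI : VI ρ ≤ 𝔭 := h𝔭.1.2
  let A := MvPolynomial (ι × ι) L ⧸ 𝔭
  let F := FractionRing A
  let φ : MvPolynomial (ι × ι) L →ₐ[L] F :=
    (IsScalarTower.toAlgHom L A F).comp (Ideal.Quotient.mkₐ L 𝔭)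
  have hφ0 : ∀ h, φ h = 0 ↔ h ∈ 𝔭 := by
    intro h
    change algebraMap A F (Ideal.Quotient.mk 𝔭 h) = 0 ↔ _
    rw [FaithfulSMul.algebraMap_eq_zero_iff A F, Ideal.Quotient.eq_zero_iff_mem]
  have hφC : ∀ c, φ (C c) = algebraMap L F c := fun c => φ.commutes c
  by_cases hal : IsAlgebraic L (φ f)
  · obtain ⟨c, hc⟩ := alg_C hal
    refine ⟨c, ?_⟩
    rw [← hφ0, map_sub, hφC, hc, sub_self]
  exfalso
  -- a derivation
  have hai : AlgebraicIndependent L (fun _ : Unit => φ f) := by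
    rw [algebraicIndependent_unique_type_iff]
    exact hal
  obtain ⟨D, hD⟩ := Pool.Agent.H135R2.VS.exists_der hai (fun _ => 1)
  have hDf : D (φ f) = 1 := hD ()
  -- clearing the denominators
  obtain ⟨q, hq⟩ := IsLocalization.exist_integer_multiples_of_finite (nonZeroDivisors A)
    (fun p : ι × ι => D (φ (X p)))
  choose a ha using hq
  obtain ⟨q', hq'⟩ := Ideal.Quotient.mk_surjective (q : A)
  have hφq : φ q' = algebraMap A F q := by
    change algebraMap A F (Ideal.Quotient.mk 𝔭 q') = _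
    rw [hq']
  have hq0 : φ q' ≠ 0 := by
    rw [hφq]
    exact IsLocalization.to_map_ne_zero_of_mem_nonZeroDivisors F le_rfl q.2
  choose v hv using fun p => Ideal.Quotient.mk_surjective (I := 𝔭) (a p)
  have hφv : ∀ p, φ (v p) = φ q' * D (φ (X p)) := by
    intro p
    have h1 : φ (v p) = algebraMap A F (a p) := by
      change algebraMap A F (Ideal.Quotient.mk 𝔭 (v p)) = _
      rw [hv]
    rw [h1, ha p, hφq, Algebra.smul_def]
  let D' : Derivation L (MvPolynomial (ι × ι) L) (MvPolynomial (ι × ι) L) := mkDerivation L v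
  have hD'X : ∀ p, D' (X p) = v p := fun p => mkDerivation_X _ _ _
  have hD'C : ∀ c, D' (C c) = 0 := fun c => D'.map_algebraMap c
  have hD' : ∀ h, φ (D' h) = φ q' * D (φ h) := by
    intro h
    induction h using MvPolynomial.induction_on with
    | C c => rw [hD'C, map_zero, hφC, D.map_algebraMap, mul_zero]
    | add p q hp hq => rw [map_add, map_add, map_add, map_add, hp, hq, mul_add]
    | mul_X p r hp =>
      rw [Derivation.leibniz, map_add, smul_eq_mul, smul_eq_mul, map_mul, map_mul, hp, hD'X, hφv,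
        map_mul, Derivation.leibniz, smul_eq_mul, smul_eq_mul]
      ring
  -- a function which vanishes on the other components
  have hfin : (VI ρ).minimalPrimes.Finite := Ideal.finite_minimalPrimes_of_isNoetherianRing _ _
  have hu : ∀ 𝔮 : hfin.toFinset.erase 𝔭, ∃ u ∈ (𝔮 : Ideal (MvPolynomial (ι × ι) L)), u ∉ 𝔭 := by
    rintro ⟨𝔮, h𝔮⟩
    rw [Finset.mem_erase, Set.Finite.mem_toFinset] at h𝔮
    by_contra hcon
    push Not at hcon
    have h1 : 𝔮 ≤ 𝔭 := hcon
    have h2 : 𝔭 ≤ 𝔮 := h𝔭.2 h𝔮.2.1 h1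
    exact h𝔮.1 (le_antisymm h1 h2)
  choose w hw1 hw2 using hu
  set u := ∏ 𝔮, w 𝔮 with hudef
  have hu𝔭 : u ∉ 𝔭 := by
    rw [hudef, hp.prod_mem_iff]
    rintro ⟨𝔮, -, h⟩
    exact hw2 𝔮 h
  have hu𝔮 : ∀ 𝔮 ∈ (VI ρ).minimalPrimes, 𝔮 ≠ 𝔭 → u ∈ 𝔮 := by
    intro 𝔮 h𝔮 hne
    have h1 : 𝔮 ∈ hfin.toFinset.erase 𝔭 := by
      rw [Finset.mem_erase, Set.Finite.mem_toFinset]
      exact ⟨hne, h𝔮⟩
    have h2 : 𝔮.IsPrime := h𝔮.1.1
    rw [hudef, h2.prod_mem_iff]
    exact ⟨⟨𝔮, h1⟩, Finset.mem_univ _, hw1 ⟨𝔮, h1⟩⟩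
  have hsInf : ∀ h, (∀ 𝔮 ∈ (VI ρ).minimalPrimes, h ∈ 𝔮) → h ∈ VI ρ := by
    intro h hh
    have h1 : h ∈ sInf (VI ρ).minimalPrimes := by
      rw [Submodule.mem_sInf]
      exact hh
    rw [Ideal.sInf_minimalPrimes] at h1
    exact VI_radical h1
  have hstab : ∀ h ∈ VI ρ, u * D' h ∈ VI ρ := by
    intro h hh
    apply hsInf
    intro 𝔮 h𝔮
    by_cases h1 : 𝔮 = 𝔭
    · subst h1
      refine Ideal.mul_mem_left _ _ ?_
      rw [← hφ0, hD', (hφ0 h).2 (hVI hh), map_zero, mul_zero]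
    · exact Ideal.mul_mem_right _ _ (hu𝔮 𝔮 h𝔮 h1)
  have hne : u * D' f ∉ VI ρ := by
    intro h1
    have h2 := hVI h1
    rw [← hφ0, map_mul, hD', hDf, mul_one] at h2
    rcases mul_eq_zero.1 h2 with h3 | h3
    · exact hu𝔭 ((hφ0 u).1 h3)
    · exact hq0 h3
  rw [mem_VI] at hne
  push Not at hne
  obtain ⟨g₀, hg₀⟩ := hne
  -- the matrix
  let V : Matrix ι ι L := Matrix.of fun i j => evM (ρ g₀) (u * v (i, j))
  let B : Matrix ι ι L := ρ g₀⁻¹ * V
  have hgB : ρ g₀ * B = V := by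
    change ρ g₀ * (ρ g₀⁻¹ * V) = V
    rw [← Matrix.mul_assoc, ← map_mul, mul_inv_cancel, map_one, Matrix.one_mul]
  have hB : ∀ h, evM (ρ g₀) (dA B h) = evM (ρ g₀) (u * D' h) := by
    intro h
    induction h using MvPolynomial.induction_on with
    | C c => rw [hD'C, dA_C, mul_zero]
    | add p q hp hq => rw [map_add, map_add, map_add, mul_add, map_add, hp, hq]
    | mul_X p r hp =>
      have h1 : evM (ρ g₀) (dA B (X r)) = evM (ρ g₀) (u * D' (X r)) := by
        rw [dA_X, map_sum, hD'X]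
        simp only [map_mul, evM_X, evM_C]
        have h2 := congrFun (congrFun hgB r.1) r.2
        rw [Matrix.mul_apply] at h2
        rw [h2]
        change evM (ρ g₀) (u * v (r.1, r.2)) = _
        rw [map_mul]
      rw [Derivation.leibniz, Derivation.leibniz, smul_eq_mul, smul_eq_mul, map_add, map_mul,
        map_mul, hp, h1, smul_eq_mul, smul_eq_mul, mul_add, map_add]
      simp only [map_mul]
      ring
  have hBL : B ∈ LieG ρ := by
    intro h hh g
    have h1 : g = (g * g₀⁻¹) * g₀ := by group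
    have h2 : evM (ρ g) (dA B h) = evM (ρ g₀) (dA B (lrho (ρ (g * g₀⁻¹)) h)) := by
      rw [dA_lrho, evM_lrho, ← map_mul, ← h1]
    rw [h2, hB]
    exact hstab _ (lrho_VI hh _) g₀
  exact hg₀ (by rw [← hB]; exact hf B hBL g₀)

/-- **Finitely many values.** -/
theorem fin_vals {f : MvPolynomial (ι × ι) L}
    (hf : ∀ A ∈ LieG ρ, ∀ g, evM (ρ g) (dA A f) = 0) :
    (Set.range fun g => evM (ρ g) f).Finite := by
  classical
  have hfin : (VI ρ).minimalPrimes.Finite := Ideal.finite_minimalPrimes_of_isNoetherianRing _ _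
  have h1 : ∀ 𝔭 : (VI ρ).minimalPrimes, ∃ c : L, f - C c ∈ (𝔭 : Ideal (MvPolynomial (ι × ι) L)) :=
    fun 𝔭 => const_comp hf 𝔭.2
  choose c hc using h1
  have : Finite (VI ρ).minimalPrimes := hfin.to_subtype
  refine (Set.finite_range c).subset ?_
  rintro _ ⟨g, rfl⟩
  -- the maximal ideal of the point
  let 𝔪 : Ideal (MvPolynomial (ι × ι) L) := RingHom.ker (evM (ρ g))
  have hm : 𝔪.IsPrime := RingHom.ker_isPrime _
  have hle : VI ρ ≤ 𝔪 := fun h hh => hh g
  obtain ⟨𝔭, h𝔭, h2⟩ := Ideal.exists_minimalPrimes_le hle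
  refine ⟨⟨𝔭, h𝔭⟩, ?_⟩
  have h3 : f - C (c ⟨𝔭, h𝔭⟩) ∈ 𝔪 := h2 (hc ⟨𝔭, h𝔭⟩)
  have h4 : evM (ρ g) (f - C (c ⟨𝔭, h𝔭⟩)) = 0 := h3
  rw [map_sub, evM_C, sub_eq_zero] at h4
  exact h4.symm

end Pool.Agent.Q60.TP
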