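import Pool.Agent.Q60.TP.Orth
import Pool.Agent.Q60.TP.Lie
import Mathlib.LinearAlgebra.Lagrange

/-!
# Nondegeneracy of all intermediate systems

If the tensors `T` are determined by their infinitesimal stabiliser and the smaller system `S` has
the same infinitesimal stabiliser, then the form is nondegenerate on every closed system between
`S` and `T`.
-/

set_option linter.unusedSectionVars false

open MeasureTheory

namespace Pool.Agent.Q60.TP

open Matrix Pool.Agent.Q60.ED Pool.Agent.Q60.TD Pool.Agent.Q60.NP Pool.Agent.Q60.FI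
open Pool.Agent.Q60.PB
open Pool.Agent.Q55.Ke (Aut mem_Aut om J0 J0_tpow Aut_om det_Aut ip ip_self eq_zero_of_nsq)

open scoped ComplexOrder

variable {ι : Type} [Fintype ι] [DecidableEq ι]

section mean

variable {K : Subgroup (Matrix.unitaryGroup ι ℂ)} [MeasurableSpace K] [BorelSpace K]
  [CompactSpace K] (μ : Measure K) [μ.IsHaarMeasure] [IsProbabilityMeasure μ]

lemma cont_mt (n : ℕ) (I J : Fin n → ι) : Continuous fun u : K => TP (mt K u) n I J := by
  have h2 := cont_TP (K := K) n I J 1
  simpa only [Matrix.one_mul] using h2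

lemma cont_tpow (n : ℕ) (t : (Fin n → ι) → ℂ) (I : Fin n → ι) :
    Continuous fun u : K => tpow (mt K u) n t I := by
  simp only [tpow_eq, Matrix.mulVec, dotProduct]
  exact continuous_finsetSum _ fun J _ => (cont_mt n I J).mul continuous_const

lemma mean_mulVec (n : ℕ) (t : (Fin n → ι) → ℂ) (I : Fin n → ι) :
    (mean μ n *ᵥ t) I = ∫ u, tpow (mt K u) n t I ∂μ := by
  simp only [tpow_eq, Matrix.mulVec, dotProduct]
  rw [integral_finsetSum]
  · exact Finset.sum_congr rfl fun J _ => (integral_mul_const _ _).symm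
  · exact fun J _ => integrable_of_cont μ ((cont_mt n I J).mul continuous_const)

lemma tpow_mean (n : ℕ) (t : (Fin n → ι) → ℂ) (h : K) :
    tpow (mt K h) n (mean μ n *ᵥ t) = mean μ n *ᵥ t := by
  rw [tpow_eq, Matrix.mulVec_mulVec, mean_fixed]

/-- The mean and the pairing with fixed tensors. -/
lemma bf_mean {B : Matrix ι ι ℂ} (hB : ∀ u : K, mt K u ∈ Aut B) {n : ℕ}
    (t s : (Fin n → ι) → ℂ) (hs : ∀ u : K, tpow (mt K u) n s = s) :
    bf (TP B n) (mean μ n *ᵥ t) s = bf (TP B n) t s := by
  rw [bf_eq, bf_eq]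
  have h1 : ∀ u : K, (TP (mt K u) n)ᵀ *ᵥ (TP B n *ᵥ s) = TP B n *ᵥ s := by
    intro u
    conv_lhs => rw [← hs u, tpow_eq]
    rw [Matrix.mulVec_mulVec, Matrix.mulVec_mulVec, ← TP_transpose, ← TP_mul,
      ← TP_mul, mem_Aut.1 (hB u)]
  have h2 : (mean μ n)ᵀ *ᵥ (TP B n *ᵥ s) = TP B n *ᵥ s := by
    set x := TP B n *ᵥ s with hx
    funext J
    have h3 : ((mean μ n)ᵀ *ᵥ x) J = ∫ u, ((TP (mt K u) n)ᵀ *ᵥ x) J ∂μ := by
      simp only [Matrix.mulVec, dotProduct]
      rw [integral_finsetSum]
      · exact Finset.sum_congr rfl fun I _ => (integral_mul_const _ _).symm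
      · exact fun I _ => integrable_of_cont μ ((cont_mt n I J).mul continuous_const)
    rw [h3]
    simp only [h1]
    rw [integral_const]
    simp
  calc mean μ n *ᵥ t ⬝ᵥ TP B n *ᵥ s = t ⬝ᵥ ((mean μ n)ᵀ *ᵥ (TP B n *ᵥ s)) := by
        rw [Matrix.dotProduct_mulVec t, Matrix.vecMul_transpose]
    _ = _ := by rw [h2]

end mean

namespace CData

variable {B σ : Matrix ι ι ℂ} {S : TSys ℂ ι} {T : ∀ n : ℕ, Submodule ℂ ((Fin n → ι) → ℂ)}
  (D : CData B σ S T)

include D

/-- The form is nondegenerate on the smaller system. -/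
theorem S_nd {n : ℕ} {v : (Fin n → ι) → ℂ} (hv : v ∈ S.S n)
    (h : ∀ w ∈ S.S n, bf (TP B n) v w = 0) : v = 0 := by
  have h1 := h _ (D.J0S n v hv)
  rw [← Pool.Agent.Q55.Ke.ip_J0, ip_self] at h1
  have h2 : J0 B n v = 0 := by
    apply eq_zero_of_nsq
    have h2 : Pool.Agent.Q55.Ke.nsq (J0 B n v) = 0 := by exact_mod_cast h1
    exact h2.le
  have h3 : J0 B n (J0 B n v) = v := by rw [J0_J0 D.uni D.symm, D.even n v (D.le n hv)]
  rw [← h3, h2]
  have h4 := Pool.Agent.Q55.Ke.J0_smul B (n := n) 0 (0 : (Fin n → ι) → ℂ)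
  rw [map_zero, zero_smul, zero_smul] at h4
  exact h4

/-- **Nondegeneracy of the intermediate systems.** -/
theorem C_nd (C : CSys B) (hSC : ∀ n, S.S n ≤ C.S n) (hCT : ∀ n, C.S n ≤ T n) {n : ℕ}
    {t : (Fin n → ι) → ℂ} (ht : t ∈ C.S n) (h : ∀ w ∈ C.S n, bf (TP B n) t w = 0) : t = 0 := by
  classical
  have homd : (mat2 (Pool.Agent.Q55.Ke.om B)).det ≠ 0 := by
    rw [Pool.Agent.Q55.Ke.mat2_om]
    exact (Matrix.isUnit_nonsing_inv_det _ (isUnit_iff_ne_zero.2 D.hBd)).ne_zero
  have hAutS : ∀ {g : Matrix ι ι ℂ}, Fix S.S g → g ∈ Aut B := fun hg =>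
    (Aut_om D.hBd).2 (hg 2 _ D.om)
  -- the compact group
  let K : Subgroup (Matrix.unitaryGroup ι ℂ) :=
    { carrier := {u | Fix S.S (u : Matrix ι ι ℂ)}
      one_mem' := fun n t _ => tpow_one _ _
      mul_mem' := fun {a b} ha hb => fixC_mul ha hb
      inv_mem' := fun {a} ha => by
        have h1 : ((a⁻¹ : Matrix.unitaryGroup ι ℂ) : Matrix ι ι ℂ) = (a : Matrix ι ι ℂ)⁻¹ := by
          symm
          apply Matrix.inv_eq_left_inv
          exact congrArg Subtype.val (inv_mul_cancel a)
        change Fix S.S ((a⁻¹ : Matrix.unitaryGroup ι ℂ) : Matrix ι ι ℂ)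
        rw [h1]
        exact fixC_inv ha (det_Aut D.hBd (hAutS ha)) }
  have hKmem : ∀ u : Matrix.unitaryGroup ι ℂ, u ∈ K ↔ Fix S.S (u : Matrix ι ι ℂ) :=
    fun u => Iff.rfl
  have hKcl : IsClosed (K : Set (Matrix.unitaryGroup ι ℂ)) := by
    have h1 : (K : Set (Matrix.unitaryGroup ι ℂ)) = ⋂ (n : ℕ) (t : S.S n) (I : Fin n → ι),
        {u : Matrix.unitaryGroup ι ℂ | tpow (u : Matrix ι ι ℂ) n t.1 I = t.1 I} := by
      ext u
      simp only [Set.mem_iInter, Set.mem_ofPred_eq, SetLike.mem_coe]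
      rw [hKmem]
      constructor
      · intro hu n t I
        rw [hu n t.1 t.2]
      · intro hu n t ht
        funext I
        exact hu n ⟨t, ht⟩ I
    rw [h1]
    refine isClosed_iInter fun n => isClosed_iInter fun t => isClosed_iInter fun I =>
      isClosed_eq ?_ continuous_const
    simp only [tpow_apply]
    refine continuous_finsetSum _ fun J _ => Continuous.mul ?_ continuous_const
    refine continuous_finsetProd _ fun k _ => ?_
    exact continuous_subtype_val.matrix_elem _ _
  have hKfix : ∀ u : K, Fix S.S (mt K u) := fun u => u.2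
  have hc : CompactSpace K := isCompact_iff_compactSpace.1 hKcl.isCompact
  let _ : MeasurableSpace K := borel K
  have _ : BorelSpace K := ⟨rfl⟩
  set μ : Measure K := Measure.haarMeasure ⊤ with hμ
  have hprob : IsProbabilityMeasure μ := ⟨by
    have h1 := Measure.haarMeasure_self (K₀ := (⊤ : TopologicalSpace.PositiveCompacts K))
    rw [TopologicalSpace.PositiveCompacts.coe_top] at h1
    exact h1⟩
  -- the tensors fixed by the compact group
  have hmem : ∀ {m : ℕ} {v : (Fin m → ι) → ℂ}, (∀ u : K, tpow (mt K u) m v = v) → v ∈ S.S m := by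
    intro m v hv
    refine S.mem_of_fixed D.om homd fun g hg => ?_
    exact polarC hg (det_Aut D.hBd (hAutS hg)) (D.fix_star hg) fun x hx hxU => hv ⟨⟨x, hxU⟩, hx⟩
  -- the mean of products with the tensor
  have hmean : ∀ (m : ℕ), ∀ w ∈ C.S m, mean μ (m + n) *ᵥ tmul w t = 0 := by
    intro m w hw
    refine D.S_nd (hmem fun u => tpow_mean μ _ _ u) fun s hs => ?_
    rw [bf_mean μ (fun u => hAutS (hKfix u)) _ s fun u => hKfix u _ s hs, bf_tmulK]
    exact h _ (C.contr hw (hSC _ hs))
  funext I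
  set f : K → ℂ := fun u => tpow (mt K u) n t I with hf
  have hfc : Continuous f := cont_tpow n t I
  -- the powers
  have hpow : ∀ k : ℕ, ∃ (m : ℕ) (w : (Fin m → ι) → ℂ) (J : Fin m → ι), w ∈ C.S m ∧
      ∀ u : K, f u ^ k = tpow (mt K u) m w J := by
    intro k
    induction k with
    | zero =>
      refine ⟨0, fun _ => 1, fun x => x.elim0, C.one, fun u => ?_⟩
      rw [pow_zero, Pool.Agent.Q55.Ke.tpow_zero]
    | succ k ih =>
      obtain ⟨m, w, J, hw, hk⟩ := ih
      refine ⟨m + n, tmul w t, Fin.append J I, C.mul hw ht, fun u => ?_⟩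
      rw [Pool.Agent.Q55.Ke.tpow_tmul, pow_succ, hk]
      simp only [ED.tmul, Fin.append_left, Fin.append_right, hf]
  have hint : ∀ k : ℕ, ∫ u, f u ^ k * f u ∂μ = 0 := by
    intro k
    obtain ⟨m, w, J, hw, hk⟩ := hpow k
    have h1 : ∀ u : K, f u ^ k * f u = tpow (mt K u) (m + n) (tmul w t) (Fin.append J I) := by
      intro u
      rw [Pool.Agent.Q55.Ke.tpow_tmul, hk]
      simp only [ED.tmul, Fin.append_left, Fin.append_right, hf]
    simp only [h1]
    rw [← mean_mulVec, hmean m w hw]
    rfl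
  -- finitely many values
  let ρ : K →* Matrix ι ι ℂ :=
    { toFun := mt K
      map_one' := mt_one K
      map_mul' := mt_mul K }
  have hfin : (Set.range f).Finite := by
    have h1 := fin_vals (ρ := ρ) (f := xt t I) fun A hA g => by
      have hAS : Lie T A := by
        apply D.key
        intro m hm s hs
        have hsS := D.low m hm hs
        funext J
        have h2 : xt s J - MvPolynomial.C (s J) ∈ VI ρ := by
          intro g
          rw [map_sub, evM_xt, evM_C]
          change tpow (mt K g) m s J - s J = 0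
          rw [hKfix g m s hsS, sub_self]
        have h3 := hA _ h2 1
        rw [map_one, map_sub, dA_C, sub_zero, dA_xt, evM_one_xt] at h3
        exact h3
      rw [dA_xt, hAS n t (hCT n ht), xt_zero, map_zero]
    have h2 : (Set.range fun g => evM (ρ g) (xt t I)) = Set.range f := by
      congr 1
      funext g
      exact evM_xt _ _ _
    rwa [h2] at h1
  -- the conjugate is a polynomial
  let F : Finset ℂ := hfin.toFinset
  let P : Polynomial ℂ := Lagrange.interpolate F id fun c => starRingEnd ℂ c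
  have hP : ∀ u : K, P.eval (f u) = starRingEnd ℂ (f u) := by
    intro u
    have h1 : f u ∈ F := hfin.mem_toFinset.2 ⟨u, rfl⟩
    exact Lagrange.eval_interpolate_at_node (v := id) _ Function.injective_id.injOn h1
  have hsq : ∫ u, P.eval (f u) * f u ∂μ = 0 := by
    have h1 : ∀ u : K, P.eval (f u) * f u =
        ∑ k ∈ Finset.range (P.natDegree + 1), P.coeff k * (f u ^ k * f u) := by
      intro u
      rw [Polynomial.eval_eq_sum_range, Finset.sum_mul]
      exact Finset.sum_congr rfl fun k _ => by ring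
    simp only [h1]
    rw [integral_finsetSum]
    · refine Finset.sum_eq_zero fun k _ => ?_
      rw [integral_const_mul, hint, mul_zero]
    · exact fun k _ => integrable_of_cont μ (continuous_const.mul ((hfc.pow k).mul hfc))
  have hsq' : ∫ u, ‖f u‖ ^ 2 ∂μ = 0 := by
    have h1 : ∀ u : K, ((‖f u‖ ^ 2 : ℝ) : ℂ) = P.eval (f u) * f u := by
      intro u
      rw [hP u, ← Complex.normSq_eq_conj_mul_self, Complex.normSq_eq_norm_sq]
    have h2 : ((∫ u, ‖f u‖ ^ 2 ∂μ : ℝ) : ℂ) = 0 := by
      rw [← integral_complex_ofReal]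
      simp only [h1]
      exact hsq
    exact_mod_cast h2
  have h1 : f 1 = t I := by
    change tpow (mt K 1) n t I = t I
    rw [mt_one, tpow_one]
  rw [Pi.zero_apply, ← h1]
  by_contra hne
  have h2 := Continuous.integral_pos_of_hasCompactSupport_nonneg_nonzero (μ := μ)
    (f := fun u => ‖f u‖ ^ 2) (x := 1) (hfc.norm.pow 2) (HasCompactSupport.of_compactSpace _)
    (fun u => by positivity) (by
      have := norm_pos_iff.2 hne
      positivity)
  rw [hsq'] at h2
  exact lt_irrefl _ h2

end CData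

end Pool.Agent.Q60.TP
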