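import Pool.Agent.Q60.TP.KMain
import Pool.Agent.Q60.NP.Geo
import Pool.Agent.Q60.TP.Defs

/-!
# Operators given by Tate classes and tensors of degree two
-/

open CategoryTheory AlgebraicGeometry TensorProduct

set_option linter.unusedSectionVars false

universe u v w

namespace Pool.Agent.Q60.TP

open Module Matrix
open Pool.Agent.H914 Pool.Agent.H914.VarClass Pool.Agent.H914.VarClass.Obj
  Pool.Agent.H914.WeilCohomology
open Pool.Agent.Y133.Half Pool.Agent.Y121.AH Pool.Agent.Q60.ED Pool.Agent.Q55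
open Pool.Agent.Q56.FD Pool.Agent.H281R3.HT Pool.Agent.Q60.TD Pool.Agent.Q60.NP
open Pool.Agent.Q60.FI (tv aop_vec NoSkewCentre InSpan)
open Pool.Agent.Q60.HD (wd wd_zero wd_succ wd_map wd_prj wd_append wd_PH wb_PH sum_append' par_op
  two_inv par_prod par_pw sg sg_mem sg_xp wb_xp)

variable {k : Type u} [Field k] {𝒱 : VarClass k} {ops : CycleOps 𝒱}
  {W : WeilCohomology.{u, 0} ops} {X Y Z : 𝒱.Obj} {ι : Type} [Fintype ι] [DecidableEq ι]
  {Γ : Type w} [Group Γ] (G : GaloisAction W Γ) {e : Basis ι W.K (W.H X)} {a : ι → ℕ}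

lemma QW_deg (he : ∀ j, e j ∈ W.gr X (a j)) {i j : ι} (h : a i + a j ≠ 2 * X.dim) :
    QW e i j = 0 := by
  rw [QW_apply]
  exact W.tr_eq_zero (W.mul_mem (he i) (he j)) h

lemma neg_one_pow_eq {K : Type} [Field K] {m n : ℕ} (h : Even (m + n)) :
    (-1 : K) ^ m = (-1) ^ n := by
  have h2 : (-1 : K) ^ m * (-1) ^ n = 1 := by
    rw [← pow_add, h.neg_one_pow]
  have h3 : (-1 : K) ^ n * (-1) ^ n = 1 := by
    rw [← pow_add, ← two_mul, pow_mul, neg_one_sq, one_pow]
  have h4 : (-1 : K) ^ n ≠ 0 := pow_ne_zero _ (neg_ne_zero.2 one_ne_zero)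
  exact mul_right_cancel₀ h4 (h2.trans h3.symm)

lemma QW_symm (he : ∀ j, e j ∈ W.gr X (a j)) (i j : ι) :
    QW e j i = QW e i j * (-1) ^ a j := by
  by_cases h : a i + a j = 2 * X.dim
  · rw [QW_apply, QW_apply, PH.comm (PH.of (he j)) (PH.of (he i)), map_smul, smul_eq_mul, mul_comm]
    congr 1
    apply neg_one_pow_eq
    have h1 : Even (a i + a j) := by rw [h]; exact even_two_mul _
    have h2 : a j * a i + a j = a j * (a i + a j) - a j * (a j - 1) + 0 := by
      rcases Nat.eq_zero_or_pos (a j) with h0 | h0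
      · rw [h0]; simp
      · zify [h0, Nat.mul_le_mul_left (a j) (show a j - 1 ≤ a i + a j by omega)]
        ring
    have h3 : Even (a j * (a j - 1)) := Nat.even_mul_pred_self _
    rw [h2, add_zero]
    exact (h1.mul_left _).tsub h3
  · rw [QW_deg he h, QW_deg he (by omega), zero_mul]

/-- The form of the cohomology is preserved. -/
lemma toM_pres (he : ∀ j, e j ∈ W.gr X (a j)) : KPres (toM G e he) (QW e) X.dim where
  det := QW_det e (algSys W) fun j => PH.of (he j)
  inv g := by
    ext i j
    have h1 : ((Am G e g)ᵀ * QW e * Am G e g) i j =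
        W.tr X ((G.ρ X).act g (e i) * (G.ρ X).act g (e j)) := by
      rw [act_e, act_e, Finset.sum_mul_sum, map_sum, Matrix.mul_apply]
      simp only [Matrix.mul_apply, Finset.sum_mul, map_sum]
      rw [Finset.sum_comm]
      refine Finset.sum_congr rfl fun k _ => Finset.sum_congr rfl fun l _ => ?_
      rw [transpose_apply, QW_apply, smul_mul_smul_comm, map_smul, smul_eq_mul]
      ring
    change ((Am G e g)ᵀ * QW e * Am G e g) i j = _
    rw [h1, ← map_mul, (G.isGalois X).tr_act g g.2]
    rfl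
  deg i j h := QW_deg he h
  symm i j := QW_symm he i j

/-- The matrix of a correspondence of a Tate class. -/
lemma mat_corr (he : ∀ j, e j ∈ W.gr X (a j)) {t : (Fin 2 → ι) → W.K}
    (ht : t ∈ TK (toM G e he) 2) :
    LinearMap.toMatrix e e (cor1 W X (clsK e (prj X 1) t)) = (mat2 t)ᵀ * (QW e)ᵀ := by
  ext j l
  rw [LinearMap.toMatrix_apply, clsK, map_sum, LinearMap.sum_apply, sum_fin2, map_sum,
    Finsupp.coe_finsetSum, Finset.sum_apply, Matrix.mul_apply]
  refine Finset.sum_congr rfl fun i _ => ?_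
  rw [map_sum, Finsupp.coe_finsetSum, Finset.sum_apply, Finset.sum_eq_single j]
  · rw [map_smul, LinearMap.smul_apply, wd_prj, cor1_wb e fun j => PH.of (he j)]
    simp only [map_smul, Finsupp.smul_apply, Basis.repr_self, smul_eq_mul]
    change t ![i, j] * ((-1) ^ (a j * a l) * W.tr X (e i * e l) * (Finsupp.single j 1) j) = _
    rw [Finsupp.single_eq_same, mul_one, transpose_apply, transpose_apply, QW_symm he i l]
    change _ = t ![i, j] * (QW e i l * (-1) ^ a l)
    rw [← QW_apply]
    by_cases h1 : a i + a l = 2 * X.dim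
    · by_cases h2 : Even (a i + a j)
      · have h3 : (-1 : W.K) ^ (a j * a l) = (-1) ^ a l := by
          apply neg_one_pow_eq
          have h4 : a j * a l + a l = (a j + 1) * a l := by ring
          rw [h4, Nat.even_mul]
          by_cases h5 : Even (a l)
          · exact Or.inr h5
          · left
            have h6 : Even (a i + a l) := by rw [h1]; exact even_two_mul _
            rw [Nat.even_add] at h2 h6
            rw [Nat.even_add_one]
            tauto
        rw [h3]
        ring
      · have h3 : t ![i, j] = 0 := by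
          refine TK_even ht (I := ![i, j]) ?_
          rw [Fin.sum_univ_two]
          exact h2
        rw [h3, zero_mul, zero_mul]
    · rw [QW_deg he h1, mul_zero, zero_mul]
  · intro j' _ hj
    rw [map_smul, LinearMap.smul_apply, wd_prj, cor1_wb e fun j => PH.of (he j)]
    simp only [map_smul, Finsupp.smul_apply, Basis.repr_self, smul_eq_mul]
    change _ * (_ * (Finsupp.single j' 1) j) = 0
    rw [Finsupp.single_eq_of_ne (Ne.symm hj), mul_zero, mul_zero]
  · intro h; exact absurd (Finset.mem_univ _) h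

/-- The tensor with the two arguments exchanged. -/
def sw {K : Type} (t : (Fin 2 → ι) → K) : (Fin 2 → ι) → K :=
  fun J => t (J ∘ Equiv.swap (0 : Fin 2) 1)

lemma mat2_sw {K : Type} [Field K] (t : (Fin 2 → ι) → K) : mat2 (sw t) = (mat2 t)ᵀ := by
  ext i j
  change t (![i, j] ∘ Equiv.swap (0 : Fin 2) 1) = t ![j, i]
  congr 1
  funext k
  fin_cases k <;> rfl

lemma sw_TK (he : ∀ j, e j ∈ W.gr X (a j)) {t : (Fin 2 → ι) → W.K}
    (hpar : par (W.isInternal X) ∈ (tatePred G).sys.Op X X)
    (ht : t ∈ TK (toM G e he) 2) : sw t ∈ TK (toM G e he) 2 := by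
  rw [TK_eq] at ht ⊢
  exact crdK_perm e (fun j => PH.of (he j)) hpar _ ht

/-- The condition on the centre in terms of tensors. -/
theorem cenK (he : ∀ j, e j ∈ W.gr X (a j))
    (hpar : par (W.isInternal X) ∈ (tatePred G).sys.Op X X) (hc : TateCentre G X) :
    ∀ c : Matrix ι ι W.K, tv (QW e) c ∈ TK (toM G e he) 2 →
      (∀ a', tv (QW e) a' ∈ TK (toM G e he) 2 → a' * c = c * a') →
      (∀ s ∈ TK (toM G e he) 2, aop c s = 0) → c = 0 := by
  intro c hcT hcom hk
  have hQ := (toM_pres G he).det
  have hu := isUnit_iff_ne_zero.2 hQ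
  have hvec : ∀ M : Matrix ι ι W.K, mat2 (NP.vec M) = M := fun M => by
    ext i j
    rfl
  have hQQ : (QW e)⁻¹ᵀ * (QW e)ᵀ = 1 := by
    rw [← transpose_mul, mul_nonsing_inv _ hu, transpose_one]
  have hQQ' : (QW e)ᵀ * (QW e)⁻¹ᵀ = 1 := mul_eq_one_comm.1 hQQ
  -- the class
  have ht := sw_TK G he hpar hcT
  have hF := mat_corr G he ht
  rw [mat2_sw, transpose_transpose, tv, hvec, Matrix.mul_assoc, hQQ, Matrix.mul_one] at hF
  obtain ⟨z, hz⟩ : ∃ z : W.H (X.prod X), z = clsK e (prj X 1) (sw (tv (QW e) c)) := ⟨_, rfl⟩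
  replace hF : LinearMap.toMatrix e e (cor1 W X z) = c := by
    rw [hz]
    exact hF
  have hzS : z ∈ Submodule.span W.K (tateSet G (X.prod X)) := by
    have h1 := ht
    rw [TK_eq, mem_crdK_succ, ← hz] at h1
    exact h1
  have hzop : ∀ x, W.push (snd X X) (z * W.map (fst X X) x) = cor1 W X z x := fun x => rfl
  have key : ∀ x, W.push (snd X X) (z * W.map (fst X X) x) = 0 := by
    refine hc z hzS ?_ ?_
    · rintro d ⟨j, hd⟩ x
      have hd' : tn e 1 d ∈ TK (toM G e he) 2 := tn_mem_TK G he (n := 1) hd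
      have h1 := mat_corr G he hd'
      rw [show clsK e (prj X 1) (tn e 1 d) = d from clsK_tn e 1 d] at h1
      have h2 : tv (QW e) (LinearMap.toMatrix e e (cor1 W X d)) ∈ TK (toM G e he) 2 := by
        have h3 : tv (QW e) (LinearMap.toMatrix e e (cor1 W X d)) = sw (tn e 1 d) := by
          apply Pool.Agent.Q55.Ke.mat2_inj
          rw [tv, hvec, h1, Matrix.mul_assoc, hQQ', Matrix.mul_one, mat2_sw]
        rw [h3]
        exact sw_TK G he hpar hd'
      have h3 := hcom _ h2
      rw [← hF, ← LinearMap.toMatrix_comp, ← LinearMap.toMatrix_comp] at h3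
      have h4 := (LinearMap.toMatrix e e).injective h3
      exact (LinearMap.congr_fun h4 x).symm
    · have h1 := hk (Pool.Agent.Q55.Ke.om (QW e)) (by
        rw [TK_eq]
        exact (cs (S := (tatePred G).sys) e (fun j => PH.of (he j)) hpar).om)
      have h2 : Pool.Agent.Q55.Ke.om (QW e) = NP.vec (QW e)⁻¹ := rfl
      rw [h2, aop_vec] at h1
      have h3 : c * (QW e)⁻¹ + (QW e)⁻¹ * cᵀ = 0 := NP.vec_inj (h1.trans rfl)
      have h4 : cᵀ * QW e = - (QW e * c) := by
        have h5 := congrArg (fun M => QW e * M * QW e) h3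
        simp only [Matrix.mul_add, Matrix.add_mul, Matrix.mul_zero, Matrix.zero_mul] at h5
        have h6 : QW e * ((QW e)⁻¹ * cᵀ) * QW e = cᵀ * QW e := by
          rw [← Matrix.mul_assoc, mul_nonsing_inv _ hu, Matrix.one_mul]
        have h7 : QW e * (c * (QW e)⁻¹) * QW e = QW e * c := by
          rw [← Matrix.mul_assoc, Matrix.mul_assoc _ (QW e)⁻¹, nonsing_inv_mul _ hu,
            Matrix.mul_one]
        rw [h6, h7] at h5
        exact eq_neg_of_add_eq_zero_right h5
      have hFe : ∀ j, cor1 W X z (e j) = ∑ i, c i j • e i := by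
        intro j
        conv_lhs => rw [← e.sum_repr (cor1 W X z (e j))]
        refine Finset.sum_congr rfl fun i _ => ?_
        rw [← hF, LinearMap.toMatrix_apply]
      have h5 : ∀ i j, W.tr X (cor1 W X z (e i) * e j) = - W.tr X (e i * cor1 W X z (e j)) := by
        intro i j
        have h6 := congrFun (congrFun h4 i) j
        rw [Matrix.neg_apply, Matrix.mul_apply, Matrix.mul_apply] at h6
        rw [hFe i, hFe j, Finset.sum_mul, Finset.mul_sum, map_sum, map_sum]
        refine Eq.trans ?_ (h6.trans (congrArg Neg.neg ?_))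
        · refine Finset.sum_congr rfl fun k _ => ?_
          rw [smul_mul_assoc, map_smul, smul_eq_mul, transpose_apply, QW_apply]
        · refine Finset.sum_congr rfl fun k _ => ?_
          rw [mul_smul_comm, map_smul, smul_eq_mul, QW_apply, mul_comm]
      intro x y
      change W.tr X (cor1 W X z x * y) = - W.tr X (x * cor1 W X z y)
      rw [← e.sum_repr x, ← e.sum_repr y]
      simp only [map_sum, map_smul, Finset.sum_mul_sum, smul_mul_smul_comm, h5, smul_neg,
        Finset.sum_neg_distrib]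
  have h0 : cor1 W X z = 0 := LinearMap.ext key
  rw [← hF, h0, map_zero]

end Pool.Agent.Q60.TP
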