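import Pool.Agent.Q60.TP.Core
import Mathlib.Analysis.InnerProductSpace.PiL2
import Mathlib.Analysis.InnerProductSpace.Projection.Submodule

/-!
# Orthogonal projections onto subspaces which are stable under the infinitesimal stabiliser
-/

set_option linter.unusedSectionVars false

namespace Pool.Agent.Q60.TP

open Matrix Pool.Agent.Q60.ED Pool.Agent.Q60.TD Pool.Agent.Q60.NP Pool.Agent.Q60.FI
open Pool.Agent.Q60.PB
open Pool.Agent.Q55.Ke (Aut mem_Aut om J0 ip ip_self eq_zero_of_nsq ip_add_right ip_smul_right)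

open scoped ComplexOrder

variable {ι : Type} [Fintype ι] [DecidableEq ι]

lemma sum_flip {M : Type} [AddCommMonoid M] {n : ℕ} (k : Fin n) (F : (Fin n → ι) → ι → M) :
    ∑ I, ∑ j, F I j = ∑ I, ∑ j, F (Function.update I k j) (I k) := by
  classical
  have hinv : Function.Involutive
      fun p : (Fin n → ι) × ι => (Function.update p.1 k p.2, p.1 k) := by
    rintro ⟨I, j⟩
    simp
  rw [← Fintype.sum_prod_type', ← Fintype.sum_prod_type',
    ← Equiv.sum_comp (hinv.toPerm _) fun p : (Fin n → ι) × ι => F p.1 p.2]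
  rfl

/-- The adjoint of the infinitesimal action. -/
lemma ip_aop (X : Matrix ι ι ℂ) {n : ℕ} (v w : (Fin n → ι) → ℂ) :
    ip (aop X v) w = ip v (aop Xᴴ w) := by
  have h1 : ip (aop X v) w = ∑ k, ∑ I, ∑ j,
      starRingEnd ℂ (X (I k) j) * starRingEnd ℂ (v (Function.update I k j)) * w I := by
    rw [ip, Finset.sum_comm]
    refine Finset.sum_congr rfl fun I _ => ?_
    rw [aop_apply, map_sum, Finset.sum_mul]
    refine Finset.sum_congr rfl fun k _ => ?_
    rw [map_sum, Finset.sum_mul]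
    exact Finset.sum_congr rfl fun j _ => by rw [map_mul]
  have h2 : ip v (aop Xᴴ w) = ∑ k, ∑ I, ∑ j,
      starRingEnd ℂ (X j (I k)) * starRingEnd ℂ (v I) * w (Function.update I k j) := by
    rw [ip, Finset.sum_comm]
    refine Finset.sum_congr rfl fun I _ => ?_
    rw [aop_apply, Finset.mul_sum]
    refine Finset.sum_congr rfl fun k _ => ?_
    rw [Finset.mul_sum]
    refine Finset.sum_congr rfl fun j _ => ?_
    rw [conjTranspose_apply]
    change _ * (starRingEnd ℂ (X j (I k)) * _) = _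
    ring
  rw [h1, h2]
  refine Finset.sum_congr rfl fun k _ => ?_
  rw [sum_flip k]
  refine Finset.sum_congr rfl fun I _ => Finset.sum_congr rfl fun j _ => ?_
  rw [Function.update_self, Function.update_idem, Function.update_eq_self]

/-- The orthogonal complement. -/
noncomputable def orth {n : ℕ} (W : Submodule ℂ ((Fin n → ι) → ℂ)) :
    Submodule ℂ ((Fin n → ι) → ℂ) where
  carrier := {v | ∀ w ∈ W, ip w v = 0}
  add_mem' {a b} ha hb w hw := by rw [ip_add_right, ha w hw, hb w hw, add_zero]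
  zero_mem' w _ := Pool.Agent.Q55.Ke.ip_zero_right w
  smul_mem' c a ha w hw := by rw [ip_smul_right, ha w hw, mul_zero]

lemma mem_orth {n : ℕ} {W : Submodule ℂ ((Fin n → ι) → ℂ)} {v : (Fin n → ι) → ℂ} :
    v ∈ orth W ↔ ∀ w ∈ W, ip w v = 0 := Iff.rfl

lemma orth_inf {n : ℕ} (W : Submodule ℂ ((Fin n → ι) → ℂ)) : W ⊓ orth W = ⊥ := by
  rw [eq_bot_iff]
  rintro v ⟨hv, hv'⟩
  rw [Submodule.mem_bot]
  have h1 := hv' v hv
  rw [ip_self] at h1
  apply eq_zero_of_nsq
  have h2 : Pool.Agent.Q55.Ke.nsq v = 0 := by exact_mod_cast h1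
  exact h2.le

lemma orth_sup {n : ℕ} (W : Submodule ℂ ((Fin n → ι) → ℂ)) (v : (Fin n → ι) → ℂ) :
    ∃ w ∈ W, v - w ∈ orth W := by
  classical
  let E := WithLp.linearEquiv 2 ℂ ((Fin n → ι) → ℂ)
  let W' : Submodule ℂ (EuclideanSpace ℂ (Fin n → ι)) := W.comap E.toLinearMap
  have h1 : E.symm v ∈ W' ⊔ W'ᗮ := by
    rw [Submodule.sup_orthogonal_of_hasOrthogonalProjection]
    trivial
  obtain ⟨a, ha, c, hc, hac⟩ := Submodule.mem_sup.1 h1
  refine ⟨E a, ha, ?_⟩
  have h2 : v - E a = E c := by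
    rw [sub_eq_iff_eq_add, add_comm, ← map_add, hac, LinearEquiv.apply_symm_apply]
  rw [h2]
  intro w hw
  have h3 := (Submodule.mem_orthogonal W' c).1 hc (E.symm w) (by
    change E (E.symm w) ∈ W
    rw [LinearEquiv.apply_symm_apply]
    exact hw)
  rw [EuclideanSpace.inner_eq_star_dotProduct] at h3
  rw [ip, ← h3, dotProduct]
  refine Finset.sum_congr rfl fun I _ => ?_
  rw [mul_comm]
  rfl

namespace CData

variable {B σ : Matrix ι ι ℂ} {S : TSys ℂ ι} {T : ∀ n : ℕ, Submodule ℂ ((Fin n → ι) → ℂ)}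
  (D : CData B σ S T)

include D

/-- **Projections onto stable subspaces.** -/
theorem exists_proj {n : ℕ} {W : Submodule ℂ ((Fin n → ι) → ℂ)}
    (hW : ∀ X, Lie T X → ∀ w ∈ W, aop X w ∈ W) :
    ∃ p : ((Fin n → ι) → ℂ) →ₗ[ℂ] ((Fin n → ι) → ℂ), (∀ w ∈ W, p w = w) ∧ (∀ v, p v ∈ W) ∧
      ∀ X, Lie T X → ∀ v, p (aop X v) = aop X (p v) := by
  obtain ⟨p, hp1, hp2, hp3⟩ := exists_pr (orth_inf W)
  refine ⟨p, hp1, hp3, fun X hX v => ?_⟩
  have hO : ∀ c ∈ orth W, aop X c ∈ orth W := by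
    intro c hc w hw
    have h1 := ip_aop Xᴴ w c
    rw [conjTranspose_conjTranspose] at h1
    rw [← h1]
    exact hc _ (hW _ (D.lie_star hX) w hw)
  obtain ⟨w, hw, hvw⟩ := orth_sup W v
  have h1 : v = w + (v - w) := by abel
  rw [h1, aop_addL, map_add, map_add, hp1 w hw, hp2 _ hvw, hp1 _ (hW X hX w hw),
    hp2 _ (hO _ hvw), add_zero, add_zero]

/-- The tensors are stable under the antilinear structure. -/
lemma J0T {n : ℕ} {v : (Fin n → ι) → ℂ} (hv : v ∈ T n) : J0 B n v ∈ T n := by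
  have h1 : J0 B n (J0 B n v) = v := by rw [J0_J0 D.uni D.symm, D.even n v hv]
  apply D.mem
  · rw [← J0_J0 D.uni D.symm, h1]
  · intro X hX
    have hX' := D.lie_star hX
    have h2 := aop_J0 (n := n) (skew_of D.hBd (D.le 2 D.om) (hX' 2)) v
    rw [conjTranspose_conjTranspose, hX' n v hv] at h2
    have h3 : J0 B n (0 : (Fin n → ι) → ℂ) = 0 := by
      have h4 := Pool.Agent.Q55.Ke.J0_smul B (n := n) 0 (0 : (Fin n → ι) → ℂ)
      rw [map_zero, zero_smul, zero_smul] at h4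
      exact h4
    rw [h2, h3, neg_zero]

/-- The form is nondegenerate on the tensors. -/
theorem T_nd {n : ℕ} {v : (Fin n → ι) → ℂ} (hv : v ∈ T n)
    (h : ∀ w ∈ T n, bf (TP B n) v w = 0) : v = 0 := by
  have h1 := h _ (D.J0T hv)
  rw [← Pool.Agent.Q55.Ke.ip_J0, ip_self] at h1
  have h2 : J0 B n v = 0 := by
    apply eq_zero_of_nsq
    have h2 : Pool.Agent.Q55.Ke.nsq (J0 B n v) = 0 := by exact_mod_cast h1
    exact h2.le
  have h3 : J0 B n (J0 B n v) = v := by rw [J0_J0 D.uni D.symm, D.even n v hv]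
  rw [← h3, h2]
  have h4 := Pool.Agent.Q55.Ke.J0_smul B (n := n) 0 (0 : (Fin n → ι) → ℂ)
  rw [map_zero, zero_smul, zero_smul] at h4
  exact h4

end CData

end Pool.Agent.Q60.TP
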