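import Pool.Agent.Q60.PB.Main
import Pool.Agent.Q55.Ke.Sq

/-!
# The polar decomposition of the elements of a stabiliser, with complex coefficients
-/

set_option linter.unusedSectionVars false

namespace Pool.Agent.Q60.TP

open Matrix Pool.Agent.Q60.ED Pool.Agent.Q60.TD Pool.Agent.Q60.NP Pool.Agent.Q60.FI
open Pool.Agent.Q60.PB
open Pool.Agent.Q55.Ke (Aut mem_Aut om J0)

open scoped ComplexOrder

variable {ι : Type} [Fintype ι] [DecidableEq ι]
  {S : ∀ n : ℕ, Submodule ℂ ((Fin n → ι) → ℂ)}

lemma fixC_mul {g h : Matrix ι ι ℂ} (hg : Fix S g) (hh : Fix S h) : Fix S (g * h) := by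
  intro n t ht
  rw [tpow_mul, hh n t ht, hg n t ht]

lemma fixC_inv {g : Matrix ι ι ℂ} (hg : Fix S g) (hd : g.det ≠ 0) : Fix S g⁻¹ := by
  intro n t ht
  conv_lhs => rw [← hg n t ht]
  rw [← tpow_mul, Matrix.nonsing_inv_mul _ (isUnit_iff_ne_zero.2 hd), tpow_one]

/-- **The polar decomposition.** -/
theorem polarC {g : Matrix ι ι ℂ} (hg : Fix S g) (hgd : g.det ≠ 0) (hadj : Fix S gᴴ) {n : ℕ}
    {t : (Fin n → ι) → ℂ}
    (ht : ∀ x, Fix S x → x ∈ Matrix.unitaryGroup ι ℂ → tpow x n t = t) :
    tpow g n t = t := by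
  have hpd : (gᴴ * g).PosDef := by
    refine Matrix.PosDef.conjTranspose_mul_self g ?_
    exact Matrix.mulVec_injective_of_isUnit ((Matrix.isUnit_iff_isUnit_det g).2
      (isUnit_iff_ne_zero.2 hgd))
  obtain ⟨U, hU, hspec⟩ := spec hpd.1
  set d : ι → ℝ := hpd.1.eigenvalues with hd
  have hd0 : ∀ i, 0 < d i := fun i => hpd.eigenvalues_pos i
  have hUU : star U * U = 1 := Matrix.mem_unitaryGroup_iff'.1 hU
  have hUU' : U * star U = 1 := Matrix.mem_unitaryGroup_iff.1 hU
  have hUi : U⁻¹ = star U := Matrix.inv_eq_left_inv hUU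
  have hUd : U.det ≠ 0 := by
    intro h
    have h1 := congrArg Matrix.det hUU
    rw [Matrix.det_mul, h, mul_zero, Matrix.det_one] at h1
    exact zero_ne_one h1
  have hconj : ∀ e : ι → ℂ, dm U e = U * diagonal e * star U := by
    intro e
    rw [dm, hUi]
  have hdm : dm U (fun i => (d i : ℂ)) = gᴴ * g := by
    rw [hconj]
    exact hspec.symm
  have hfd : Fix S (dm U fun i => (d i : ℂ)) := by
    rw [hdm]
    exact fixC_mul hadj hg
  have hfix : ∀ e : ι → ℂ, (∀ (n : ℕ) (w : Fin n → ι), ∏ k, (d (w k) : ℂ) = 1 →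
      ∏ k, e (w k) = 1) → Fix S (dm U e) := fun e he n t ht =>
    dm_fix hUd (he n) (hfd n t ht)
  -- square roots
  have hprod : ∀ {n : ℕ} {w : Fin n → ι}, ∏ k, (d (w k) : ℂ) = 1 →
      ∑ k, Real.log (d (w k)) = 0 := by
    intro n w h
    have h1 : ∏ k, d (w k) = 1 := by exact_mod_cast h
    rw [← Real.log_prod fun k _ => (hd0 (w k)).ne', h1, Real.log_one]
  let r1 : ι → ℂ := fun i => ((Real.exp (Real.log (d i) / 2) : ℝ) : ℂ)
  let r2 : ι → ℂ := fun i => ((Real.exp (-(Real.log (d i) / 2)) : ℝ) : ℂ)
  have hr12 : ∀ i, r2 i * r1 i = 1 := by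
    intro i
    change ((Real.exp (-(Real.log (d i) / 2)) : ℝ) : ℂ) * ((Real.exp (Real.log (d i) / 2) : ℝ) : ℂ)
      = 1
    rw [← Complex.ofReal_mul, ← Real.exp_add]
    simp
  have hr2 : Fix S (dm U r2) := by
    refine hfix r2 fun n w h => ?_
    have h1 := hprod h
    change ∏ k, ((Real.exp (-(Real.log (d (w k)) / 2)) : ℝ) : ℂ) = 1
    rw [← Complex.ofReal_prod, ← Real.exp_sum, Finset.sum_neg_distrib, ← Finset.sum_div, h1]
    simp
  set x := g * dm U r2 with hx
  have hxF : Fix S x := fixC_mul hg hr2
  have hxg : x * dm U r1 = g := by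
    rw [hx, Matrix.mul_assoc, dm_mul hUd]
    have h1 : (fun i => r2 i * r1 i) = fun _ => 1 := funext hr12
    rw [h1, dm_one hUd, Matrix.mul_one]
  have hxU : x ∈ Matrix.unitaryGroup ι ℂ := by
    have h1 : x = g * (U * diagonal r2 * star U) := by
      rw [← hconj]
    rw [Matrix.mem_unitaryGroup_iff', h1, Matrix.star_eq_conjTranspose,
      Matrix.conjTranspose_mul, Matrix.conjTranspose_mul, Matrix.conjTranspose_mul,
      Matrix.diagonal_conjTranspose, ← Matrix.star_eq_conjTranspose (star U), star_star,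
      ← Matrix.star_eq_conjTranspose U]
    have h2 : star r2 = r2 := by
      funext i
      exact Complex.conj_ofReal _
    rw [h2]
    calc U * (diagonal r2 * star U) * gᴴ * (g * (U * diagonal r2 * star U))
        = U * diagonal r2 * (star U * (gᴴ * g) * U) * diagonal r2 * star U := by
          simp only [Matrix.mul_assoc]
      _ = U * diagonal r2 * diagonal (fun i => (d i : ℂ)) * diagonal r2 * star U := by
          congr 3
          rw [hspec]
          calc star U * (U * diagonal (fun i => (d i : ℂ)) * star U) * U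
              = (star U * U) * diagonal (fun i => (d i : ℂ)) * (star U * U) := by
                simp only [Matrix.mul_assoc]
            _ = _ := by rw [hUU, Matrix.one_mul, Matrix.mul_one]
      _ = 1 := by
          rw [Matrix.mul_assoc U, Matrix.diagonal_mul_diagonal, Matrix.mul_assoc U,
            Matrix.diagonal_mul_diagonal]
          have h3 : (fun i => r2 i * (d i : ℂ) * r2 i) = fun _ => 1 := by
            funext i
            have h4 : (d i : ℂ) = r1 i * r1 i := by
              change (d i : ℂ) = ((Real.exp (Real.log (d i) / 2) : ℝ) : ℂ) *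
                ((Real.exp (Real.log (d i) / 2) : ℝ) : ℂ)
              rw [← Complex.ofReal_mul, ← Real.exp_add, add_halves, Real.exp_log (hd0 i)]
            rw [h4]
            have h5 := hr12 i
            calc r2 i * (r1 i * r1 i) * r2 i = (r2 i * r1 i) * (r2 i * r1 i) := by ring
              _ = 1 := by rw [h5, mul_one]
          rw [h3]
          have h5 : (diagonal (fun _ => (1 : ℂ)) : Matrix ι ι ℂ) = 1 := Matrix.diagonal_one
          rw [h5, Matrix.mul_one, hUU']
  -- the one-parameter group
  have hr1 : tpow (dm U r1) n t = t := by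
    rw [dm_fix_iff hUd]
    intro w hw
    have h1 : ∀ s : ℝ, ∏ k, Complex.exp (s * Real.log (d (w k)) * Complex.I) = 1 := by
      intro s
      let e : ι → ℂ := fun i => Complex.exp (s * Real.log (d i) * Complex.I)
      have he : Fix S (dm U e) := by
        refine hfix e fun n w h => ?_
        have h1 := hprod h
        change ∏ k, Complex.exp (s * Real.log (d (w k)) * Complex.I) = 1
        rw [← Complex.exp_sum, ← Finset.sum_mul, ← Finset.mul_sum, ← Complex.ofReal_sum, h1]
        simp
      have heU : dm U e ∈ Matrix.unitaryGroup ι ℂ := by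
        rw [hconj, Matrix.mem_unitaryGroup_iff', Matrix.star_eq_conjTranspose,
          Matrix.conjTranspose_mul, Matrix.conjTranspose_mul, Matrix.diagonal_conjTranspose,
          ← Matrix.star_eq_conjTranspose (star U), star_star, ← Matrix.star_eq_conjTranspose U]
        calc U * (diagonal (star e) * star U) * (U * diagonal e * star U)
            = U * diagonal (star e) * (star U * U) * diagonal e * star U := by
              simp only [Matrix.mul_assoc]
          _ = 1 := by
              rw [hUU, Matrix.mul_one, Matrix.mul_assoc U, Matrix.diagonal_mul_diagonal]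
              have h3 : (fun i => star e i * e i) = fun _ => 1 := by
                funext i
                change (starRingEnd ℂ) (Complex.exp (s * Real.log (d i) * Complex.I)) *
                  Complex.exp (s * Real.log (d i) * Complex.I) = 1
                rw [← Complex.exp_conj, ← Complex.exp_add]
                simp
              rw [h3]
              have h5 : (diagonal (fun _ => (1 : ℂ)) : Matrix ι ι ℂ) = 1 := Matrix.diagonal_one
              rw [h5, Matrix.mul_one, hUU']
      exact (dm_fix_iff hUd).1 (ht _ he heU) w hw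
    have h2 : ∑ k, Real.log (d (w k)) = 0 := by
      by_contra hne
      have h3 := h1 (Real.pi / ∑ k, Real.log (d (w k)))
      rw [← Complex.exp_sum, ← Finset.sum_mul, ← Finset.mul_sum, ← Complex.ofReal_sum,
        ← Complex.ofReal_mul, div_mul_cancel₀ _ hne, Complex.exp_pi_mul_I] at h3
      norm_num at h3
    change ∏ k, ((Real.exp (Real.log (d (w k)) / 2) : ℝ) : ℂ) = 1
    rw [← Complex.ofReal_prod, ← Real.exp_sum, ← Finset.sum_div, h2]
    simp
  rw [← hxg, tpow_mul, hr1]
  exact ht x hxF hxU

/-- **The elements with eigenvalues in the right half-plane.** -/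
theorem goodC {T : ∀ n : ℕ, Submodule ℂ ((Fin n → ι) → ℂ)} (h4 : ∀ m ≤ 4, T m ≤ S m)
    (key : ∀ X : Matrix ι ι ℂ, (∀ m ≤ 4, ∀ s ∈ T m, aop X s = 0) → Lie T X)
    {x : Matrix ι ι ℂ} (hx : Fix S x) (hu : x ∈ Matrix.unitaryGroup ι ℂ)
    (hpd : (x + xᴴ).PosDef) : Fix T x := by
  obtain ⟨W, hW, l, hl, hlp⟩ := unitary_diag hu hpd
  have hWW : star W * W = 1 := Matrix.mem_unitaryGroup_iff'.1 hW
  have hWi : W⁻¹ = star W := Matrix.inv_eq_left_inv hWW
  have hWd : W.det ≠ 0 := by
    intro h
    have h1 := congrArg Matrix.det hWW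
    rw [Matrix.det_mul, h, mul_zero, Matrix.det_one] at h1
    exact zero_ne_one h1
  have hxd : x = dm W l := by
    rw [dm, hWi]
    exact hl
  -- the arguments of the eigenvalues
  set θ : ι → ℝ := fun j => Complex.arg (l j) with hθ
  have hθl : ∀ j, l j = Complex.exp (θ j * Complex.I) := by
    intro j
    have h1 := Complex.norm_mul_exp_arg_mul_I (l j)
    rw [(hlp j).1, Complex.ofReal_one, one_mul] at h1
    exact h1.symm
  have hθp : ∀ j, |θ j| < Real.pi / 2 := fun j =>
    Complex.abs_arg_lt_pi_div_two_iff.2 (Or.inl (hlp j).2)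
  have hprod : ∀ {n : ℕ} (w : Fin n → ι), ∏ k, l (w k) =
      Complex.exp (((∑ k, θ (w k) : ℝ) : ℂ) * Complex.I) := by
    intro n w
    rw [Complex.ofReal_sum, Finset.sum_mul, Complex.exp_sum]
    exact Finset.prod_congr rfl fun k _ => hθl (w k)
  -- the logarithm kills the tensors of degree at most four
  have hkill : ∀ m ≤ 4, ∀ s ∈ T m, aop (dm W fun j => (θ j : ℂ) * Complex.I) s = 0 := by
    intro m hm s hs
    rw [aop_dm_iff hWd]
    intro w hw
    have h1 := hx m s (h4 m hm hs)
    rw [hxd, dm_fix_iff hWd] at h1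
    have h2 := h1 w hw
    rw [hprod, Complex.exp_eq_one_iff] at h2
    obtain ⟨z, hz⟩ := h2
    have h3 : ∑ k, θ (w k) = z * (2 * Real.pi) := by
      have h5 : (((∑ k, θ (w k) : ℝ) : ℂ)) * Complex.I = ((z * (2 * Real.pi) : ℝ) : ℂ) *
          Complex.I := by
        rw [hz]
        push_cast
        ring
      have h6 := mul_right_cancel₀ Complex.I_ne_zero h5
      exact_mod_cast h6
    have h5 : |∑ k, θ (w k)| < 2 * Real.pi := by
      rcases Nat.eq_zero_or_pos m with h0 | h0
      · subst h0
        simp [Real.pi_pos]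
      · calc |∑ k, θ (w k)| ≤ ∑ k, |θ (w k)| := Finset.abs_sum_le_sum_abs _ _
          _ < ∑ _k : Fin m, Real.pi / 2 := by
              apply Finset.sum_lt_sum_of_nonempty
              · exact ⟨⟨0, h0⟩, Finset.mem_univ _⟩
              · intro k _
                exact hθp _
          _ = m * (Real.pi / 2) := by simp
          _ ≤ 4 * (Real.pi / 2) := by
              have : (m : ℝ) ≤ 4 := by exact_mod_cast hm
              have := Real.pi_pos
              nlinarith
          _ = 2 * Real.pi := by ring
    have h6 : z = 0 := by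
      rw [h3, abs_mul, abs_of_pos (by positivity : (0 : ℝ) < 2 * Real.pi)] at h5
      have h7 : |(z : ℝ)| < 1 := by
        by_contra hcon
        push Not at hcon
        have := Real.pi_pos
        nlinarith
      rw [← Int.cast_abs] at h7
      have h8 : |z| < 1 := by exact_mod_cast h7
      exact Int.abs_lt_one_iff.1 h8
    rw [h6] at h3
    have h7 : ∑ k, (θ (w k) : ℂ) * Complex.I = ((∑ k, θ (w k) : ℝ) : ℂ) * Complex.I := by
      rw [Complex.ofReal_sum, Finset.sum_mul]
    rw [h7, h3]
    simp
  have hkill' := key _ hkill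
  intro n t ht
  rw [hxd, dm_fix_iff hWd]
  intro w hw
  have h1 := (aop_dm_iff hWd _ _).1 (hkill' n t ht) w hw
  have h2 : ((∑ k, θ (w k) : ℝ) : ℂ) * Complex.I = 0 := by
    rw [Complex.ofReal_sum, Finset.sum_mul]
    exact h1
  rw [hprod, h2, Complex.exp_zero]

end Pool.Agent.Q60.TP
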