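import Pool.Agent.Q60.TP.Lie
import Pool.Agent.Q60.FI.LieEq
import Pool.Agent.Q60.FI.Loc
import Pool.Agent.Q60.TD.ThmT
import Pool.Agent.Q55.Ke.Aut

/-!
# Virtually invariant tensors and the Lie algebra

An even tensor is fixed by a subgroup of finite index if and only if it is annihilated by the Lie
algebra of the Zariski closure of the group.
-/

set_option linter.unusedSectionVars false

namespace Pool.Agent.Q60.TP

open MvPolynomial Module Matrix Pool.Agent.Q60.ED Pool.Agent.Q60.TD Pool.Agent.Q60.NP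
open Pool.Agent.Q60.FI
open Pool.Agent.Q55.Ke (Aut mem_Aut om)

variable {L : Type} [Field L] {ι : Type} [Fintype ι] [DecidableEq ι] {G : Type*} [Group G]
  {R : TRep L ι G}

/-- The Lie algebra annihilates the virtually invariant tensors. -/
theorem lie_T {n : ℕ} {t : (Fin n → ι) → L} (ht : t ∈ R.T n) {A : Matrix ι ι L}
    (hA : A ∈ LieG R.ρ) : aop A t = 0 := by
  classical
  obtain ⟨-, Δ, hΔ, hfix⟩ := ht
  have hfin : Fintype (G ⧸ Δ) := Fintype.ofFinite _
  have hval : ∀ g : G, tpow (R.ρ g) n t = tpow (R.ρ ((g : G ⧸ Δ)).out) n t := by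
    intro g
    have h1 : ((g : G ⧸ Δ)).out⁻¹ * g ∈ Δ := by
      rw [← QuotientGroup.eq, QuotientGroup.out_eq']
    have h2 : g = ((g : G ⧸ Δ)).out * (((g : G ⧸ Δ)).out⁻¹ * g) := by group
    conv_lhs => rw [h2, map_mul, tpow_mul, hfix _ h1]
  have hne : ∀ q : {q : G ⧸ Δ // tpow (R.ρ q.out) n t ≠ t}, ∃ J, tpow (R.ρ q.1.out) n t J ≠ t J := by
    rintro ⟨q, hq⟩
    by_contra hcon
    push Not at hcon
    exact hq (funext hcon)
  choose J hJ using hne
  funext I
  let F : MvPolynomial (ι × ι) L := ∏ q : {q : G ⧸ Δ // tpow (R.ρ q.out) n t ≠ t},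
    (xt t (J q) - C (tpow (R.ρ q.1.out) n t (J q)))
  have hF1 : evM (1 : Matrix ι ι L) F ≠ 0 := by
    rw [map_prod, Finset.prod_ne_zero_iff]
    intro q _
    rw [map_sub, evM_one_xt, evM_C, sub_ne_zero]
    exact (hJ q).symm
  have hVI : (xt t I - C (t I)) * F ∈ VI R.ρ := by
    intro g
    rw [map_mul]
    by_cases h : tpow (R.ρ ((g : G ⧸ Δ)).out) n t = t
    · rw [map_sub, evM_xt, evM_C, hval g, h, sub_self, zero_mul]
    · have h1 : evM (R.ρ g) F = 0 := by
        rw [map_prod]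
        refine Finset.prod_eq_zero (Finset.mem_univ ⟨(g : G ⧸ Δ), h⟩) ?_
        rw [map_sub, evM_xt, evM_C, hval g, sub_self]
      rw [h1, mul_zero]
  have h1 := hA _ hVI 1
  rw [map_one, Derivation.leibniz, smul_eq_mul, smul_eq_mul, map_add, map_mul, map_mul, map_sub,
    map_sub, evM_one_xt, evM_C, sub_self, zero_mul, zero_add, dA_C, sub_zero, dA_xt,
    evM_one_xt] at h1
  exact (mul_eq_zero.1 h1).resolve_left hF1

variable [IsAlgClosed L] [CharZero L]

/-- An even tensor which is annihilated by the Lie algebra is virtually invariant. -/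
theorem T_of_lie {n : ℕ} {t : (Fin n → ι) → L} (hte : t ∈ R.Ev n)
    (h : ∀ A ∈ LieG R.ρ, aop A t = 0) : t ∈ R.T n := by
  classical
  refine ⟨hte, ?_⟩
  have h1 : ∀ I, (Set.range fun g => tpow (R.ρ g) n t I).Finite := by
    intro I
    have h2 := fin_vals (ρ := R.ρ) (f := xt t I) fun A hA g => by
      rw [dA_xt, h A hA, xt_zero, map_zero]
    simpa only [evM_xt] using h2
  have h2 : (Set.range fun g => tpow (R.ρ g) n t).Finite := by
    refine (Set.Finite.pi' h1).subset ?_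
    rintro _ ⟨g, rfl⟩ I
    exact ⟨g, rfl⟩
  let Δ : Subgroup G :=
    { carrier := {g | tpow (R.ρ g) n t = t}
      one_mem' := by
        change tpow (R.ρ 1) n t = t
        rw [map_one, tpow_one]
      mul_mem' := fun {a b} ha hb => by
        change tpow (R.ρ (a * b)) n t = t
        rw [map_mul, tpow_mul, hb, ha]
      inv_mem' := fun {a} ha => by
        change tpow (R.ρ a⁻¹) n t = t
        conv_lhs => rw [← (show tpow (R.ρ a) n t = t from ha)]
        rw [← tpow_mul, ← map_mul, inv_mul_cancel, map_one, tpow_one] }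
  refine ⟨Δ, ?_, fun g hg => hg⟩
  have h3 : Finite (Set.range fun g => tpow (R.ρ g) n t) := h2.to_subtype
  have h4 : ∀ g g' : G, tpow (R.ρ g) n t = tpow (R.ρ g') n t → g⁻¹ * g' ∈ Δ := by
    intro g g' hgg
    change tpow (R.ρ (g⁻¹ * g')) n t = t
    rw [map_mul, tpow_mul, ← hgg, ← tpow_mul, ← map_mul, inv_mul_cancel, map_one, tpow_one]
  have h5 : Finite (G ⧸ Δ) := by
    refine Finite.of_injective
      (fun q : G ⧸ Δ => (⟨tpow (R.ρ q.out) n t, q.out, rfl⟩ :
        Set.range fun g => tpow (R.ρ g) n t)) ?_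
    intro q q' hqq
    have h6 := h4 _ _ (congrArg Subtype.val hqq)
    rw [← QuotientGroup.eq, QuotientGroup.out_eq', QuotientGroup.out_eq'] at h6
    exact h6
  exact Subgroup.finiteIndex_of_finite_quotient

theorem T_iff {n : ℕ} {t : (Fin n → ι) → L} :
    t ∈ R.T n ↔ t ∈ R.Ev n ∧ ∀ A ∈ LieG R.ρ, aop A t = 0 :=
  ⟨fun h => ⟨h.1, fun _ hA => lie_T h hA⟩, fun h => T_of_lie h.1 h.2⟩

omit [IsAlgClosed L] [CharZero L]

/-- The Lie algebra commutes with the signs. -/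
lemma lie_s {A : Matrix ι ι L} (hA : A ∈ LieG R.ρ) : A * diagonal R.s = diagonal R.s * A := by
  ext i j
  rw [mul_diagonal, diagonal_mul]
  have h1 : C (R.s j - R.s i) * X (i, j) ∈ VI R.ρ := by
    intro g
    have h2 := congrFun (congrFun (R.cent g) i) j
    rw [mul_diagonal, diagonal_mul] at h2
    rw [map_mul, evM_C, evM_X]
    linear_combination h2
  have h2 := hA _ h1 1
  rw [map_one, Derivation.leibniz, smul_eq_mul, smul_eq_mul, dA_C, mul_zero, add_zero, dA_X,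
    map_mul, evM_C, map_sum] at h2
  have h3 : ∑ x, evM (1 : Matrix ι ι L) (X ((i, j).1, x) * C (A x (i, j).2)) = A i j := by
    rw [Finset.sum_eq_single i]
    · rw [map_mul, evM_X, evM_C]
      simp
    · intro x _ hx
      rw [map_mul, evM_X, evM_C]
      change (1 : Matrix ι ι L) i x * _ = 0
      rw [Matrix.one_apply_ne (Ne.symm hx), zero_mul]
    · intro h; exact absurd (Finset.mem_univ _) h
  rw [h3] at h2
  linear_combination h2

/-- The Lie algebra is stable under conjugation. -/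
lemma lie_conjG {A : Matrix ι ι L} (hA : A ∈ LieG R.ρ) (g : G) :
    R.ρ g * A * R.ρ g⁻¹ ∈ LieG R.ρ := by
  intro f hf g'
  have h1 : R.ρ g⁻¹ * (R.ρ g * A * R.ρ g⁻¹) = A * R.ρ g⁻¹ := by
    rw [← Matrix.mul_assoc, ← Matrix.mul_assoc, ← map_mul, inv_mul_cancel, map_one,
      Matrix.one_mul]
  have h2 := dA_rho h1 f
  have h3 : g' = (g' * g) * g⁻¹ := by group
  rw [h3, map_mul, ← evM_rho, h2]
  exact hA _ (rho_VI hf _) _

/-- A stable subspace of the tensors is stable under the Lie algebra. -/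
lemma lie_stab {n : ℕ} {W : Submodule L ((Fin n → ι) → L)}
    (hW : ∀ g, ∀ w ∈ W, tpow (R.ρ g) n w ∈ W) {A : Matrix ι ι L} (hA : A ∈ LieG R.ρ) :
    ∀ w ∈ W, aop A w ∈ W := by
  intro w hw
  rw [← Subspace.forall_mem_dualAnnihilator_apply_eq_zero_iff]
  intro φ hφ
  rw [Submodule.mem_dualAnnihilator] at hφ
  have hφs : ∀ x : (Fin n → ι) → L, φ x = ∑ I, φ (Pi.single I 1) * x I := by
    intro x
    conv_lhs => rw [← TSys.sum_single x, map_sum]
    exact Finset.sum_congr rfl fun I _ => by rw [map_smul, smul_eq_mul, mul_comm]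
  have h1 : ∑ I, C (φ (Pi.single I 1)) * xt w I ∈ VI R.ρ := by
    intro g
    rw [map_sum, ← hφ _ (hW g w hw), hφs]
    exact Finset.sum_congr rfl fun I _ => by rw [map_mul, evM_C, evM_xt]
  have h2 := hA _ h1 1
  rw [map_one, map_sum, map_sum] at h2
  rw [hφs, ← h2]
  refine Finset.sum_congr rfl fun I _ => ?_
  rw [Derivation.leibniz, smul_eq_mul, smul_eq_mul, dA_C, mul_zero, add_zero, dA_xt, map_mul,
    evM_C, evM_one_xt]

section sys

variable {Q : Matrix ι ι L}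

/-- The representation preserves the form and the form is symmetric up to the signs. -/
structure Pres (R : TRep L ι G) (Q : Matrix ι ι L) : Prop where
  det : Q.det ≠ 0
  aut : ∀ g, R.ρ g ∈ Aut Q
  symm : Qᵀ = Q * diagonal R.s
  comm : diagonal R.s * Q = Q * diagonal R.s

lemma Pres.s_aut (h : Pres R Q) : diagonal R.s ∈ Aut Q := by
  rw [← R.ρz]
  exact h.aut _

/-- The system of the virtually invariant tensors. -/
noncomputable def tS (h : Pres R Q) : CSys Q where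
  S := R.T
  one := ⟨Pool.Agent.Q55.Ke.tpow_zero _ _, ⊤, inferInstance,
    fun g _ => Pool.Agent.Q55.Ke.tpow_zero _ _⟩
  mul := by
    rintro m n s t ⟨hs, Δ, hΔ, h1⟩ ⟨ht, Δ', hΔ', h2⟩
    refine ⟨?_, Δ ⊓ Δ', inferInstance, fun g hg => ?_⟩
    · rw [TRep.mem_Ev] at hs ht ⊢
      rw [Pool.Agent.Q55.Ke.tpow_tmul, hs, ht]
    · rw [Pool.Agent.Q55.Ke.tpow_tmul, h1 g hg.1, h2 g hg.2]
  perm := by
    rintro n σ t ⟨ht, Δ, hΔ, h1⟩
    refine ⟨?_, Δ, hΔ, fun g hg => ?_⟩
    · rw [TRep.mem_Ev] at ht ⊢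
      rw [Pool.Agent.Q55.Ke.tpow_perm, ht]
    · rw [Pool.Agent.Q55.Ke.tpow_perm, h1 g hg]
  contr := by
    rintro m n s t ⟨hs, Δ, hΔ, h1⟩ ⟨ht, Δ', hΔ', h2⟩
    refine ⟨?_, Δ ⊓ Δ', inferInstance, fun g hg => ?_⟩
    · rw [TRep.mem_Ev] at hs ht ⊢
      have h3 := Pool.Agent.Q55.Ke.tpow_ctr h.det h.s_aut s t
      rw [hs, ht] at h3
      exact h3
    · have h3 := Pool.Agent.Q55.Ke.tpow_ctr h.det (h.aut g) s t
      rw [h1 g hg.1, h2 g hg.2] at h3
      exact h3
  om := ⟨(Pool.Agent.Q55.Ke.Aut_om h.det).1 h.s_aut, ⊤, inferInstance,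
    fun g _ => (Pool.Agent.Q55.Ke.Aut_om h.det).1 (h.aut g)⟩

/-- A matrix which commutes with the group gives an invariant tensor. -/
lemma mem_T_of_comm (h : Pres R Q) {j i : ℕ} {M : Matrix (Fin j → ι) (Fin i → ι) L}
    {Δ : Subgroup G} (hΔ : Δ.FiniteIndex)
    (hM : ∀ g ∈ Δ, TP (R.ρ g) j * M = M * TP (R.ρ g) i)
    (hs : TP (diagonal R.s) j * M = M * TP (diagonal R.s) i) :
    tenM (M * TP Q⁻¹ i) ∈ R.T (j + i) := by
  have hQ' : (Q⁻¹).det ≠ 0 :=
    (Matrix.isUnit_nonsing_inv_det _ (isUnit_iff_ne_zero.2 h.det)).ne_zero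
  refine ⟨?_, Δ, hΔ, fun g hg => ?_⟩
  · rw [TRep.mem_Ev]
    exact (inv_iff (Pool.Agent.Q55.Ke.det_Aut h.det h.s_aut) hQ'
      ((Pool.Agent.Q55.Ke.Aut_dual h.det).1 h.s_aut) _).2 hs
  · exact (inv_iff (Pool.Agent.Q55.Ke.det_Aut h.det (h.aut g)) hQ'
      ((Pool.Agent.Q55.Ke.Aut_dual h.det).1 (h.aut g)) _).2 (hM g hg)

/-- The tensor of an endomorphism and the action of the group. -/
lemma tpow_tv (hQ : Q.det ≠ 0) {g g' : Matrix ι ι L} (hg : g ∈ Aut Q) (hgg : g * g' = 1)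
    (A : Matrix ι ι L) : tpow g 2 (tv Q A) = tv Q (g * A * g') := by
  have h1 : g * (Q⁻¹)ᵀ * gᵀ = (Q⁻¹)ᵀ := by
    have h2 := congrArg Matrix.transpose ((Pool.Agent.Q55.Ke.Aut_dual hQ).1 hg)
    rw [transpose_mul, transpose_mul, transpose_transpose, ← Matrix.mul_assoc] at h2
    exact h2
  have h2 : g' * g = 1 := mul_eq_one_comm.1 hgg
  apply Pool.Agent.Q55.Ke.mat2_inj
  rw [tpow_two]
  have h3 : ∀ Y : Matrix ι ι L, mat2 (NP.vec Y) = Y := fun Y => by
    ext i j
    rfl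
  rw [tv, h3, tv, h3]
  calc g * (A * (Q⁻¹)ᵀ) * gᵀ = g * A * (g' * g) * (Q⁻¹)ᵀ * gᵀ := by
        rw [h2, Matrix.mul_one]
        simp only [Matrix.mul_assoc]
    _ = g * A * g' * (g * (Q⁻¹)ᵀ * gᵀ) := by simp only [Matrix.mul_assoc]
    _ = _ := by rw [h1]

end sys

end Pool.Agent.Q60.TP
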