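import Pool.Agent.Q60.TP.Orth
import Pool.Agent.Q60.TP.KN
import Pool.Agent.Q55.Ke.Uni

/-!
# Changes of bases and extensions of scalars for systems of tensors
-/

set_option linter.unusedSectionVars false

namespace Pool.Agent.Q60.TP

open Module Matrix Pool.Agent.Q60.ED Pool.Agent.Q60.TD Pool.Agent.Q60.NP Pool.Agent.Q60.FI
open Pool.Agent.Q55.Ke (Aut mem_Aut om tpow_zero tpow_tmul tpow_perm mat2_inj mat2_om)

section conj

variable {K : Type} [Field K] {ι : Type} [Fintype ι] [DecidableEq ι] {Q : Matrix ι ι K}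
  {k : Matrix ι ι K}

lemma tp_inv_tp (hk : k.det ≠ 0) {n : ℕ} (v : (Fin n → ι) → K) :
    tpow k⁻¹ n (tpow k n v) = v := by
  rw [← tpow_mul, nonsing_inv_mul _ (isUnit_iff_ne_zero.2 hk), tpow_one]

lemma tp_tp_inv (hk : k.det ≠ 0) {n : ℕ} (v : (Fin n → ι) → K) :
    tpow k n (tpow k⁻¹ n v) = v := by
  rw [← tpow_mul, mul_nonsing_inv _ (isUnit_iff_ne_zero.2 hk), tpow_one]

/-- The translate of a subspace. -/
noncomputable def mv (k : Matrix ι ι K) {n : ℕ} (U : Submodule K ((Fin n → ι) → K)) :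
    Submodule K ((Fin n → ι) → K) := U.map (tpow k n)

lemma mem_mv (hk : k.det ≠ 0) {n : ℕ} {U : Submodule K ((Fin n → ι) → K)}
    {t : (Fin n → ι) → K} : t ∈ mv k U ↔ tpow k⁻¹ n t ∈ U := by
  constructor
  · rintro ⟨u, hu, rfl⟩
    rw [tp_inv_tp hk]
    exact hu
  · intro h
    exact ⟨_, h, tp_tp_inv hk _⟩

lemma tp_mem_mv (hk : k.det ≠ 0) {n : ℕ} {U : Submodule K ((Fin n → ι) → K)}
    {t : (Fin n → ι) → K} : tpow k n t ∈ mv k U ↔ t ∈ U := by
  rw [mem_mv hk, tp_inv_tp hk]

/-- The translate of a closed system. -/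
noncomputable def conjS (C : CSys Q) (hk : k.det ≠ 0) : CSys ((k⁻¹)ᵀ * Q * k⁻¹) where
  S n := mv k (C.S n)
  one := ⟨_, C.one, tpow_zero _ _⟩
  mul := by
    rintro m n _ _ ⟨s, hs, rfl⟩ ⟨t, ht, rfl⟩
    exact ⟨_, C.mul hs ht, tpow_tmul k s t⟩
  perm := by
    rintro n σ _ ⟨t, ht, rfl⟩
    exact ⟨_, C.perm σ ht, tpow_perm k σ t⟩
  contr := by
    rintro m n _ _ ⟨s, hs, rfl⟩ ⟨t, ht, rfl⟩
    refine ⟨_, C.contr hs ht, ?_⟩
    funext L
    exact tpow_contr hk Q s t L
  om := by
    refine ⟨_, C.om, ?_⟩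
    apply mat2_inj
    rw [tpow_two]
    change k * mat2 (om Q) * kᵀ = mat2 (om _)
    rw [mat2_om, mat2_om, Matrix.mul_inv_rev, Matrix.mul_inv_rev, ← transpose_nonsing_inv,
      nonsing_inv_nonsing_inv _ (isUnit_iff_ne_zero.2 hk), Matrix.mul_assoc]

lemma bf_conj (hk : k.det ≠ 0) {n : ℕ} (v w : (Fin n → ι) → K) :
    bf (TP ((k⁻¹)ᵀ * Q * k⁻¹) n) (tpow k n v) (tpow k n w) = bf (TP Q n) v w := by
  have hu := isUnit_iff_ne_zero.2 hk
  have h1 : (TP k n).transpose * TP ((k⁻¹)ᵀ * Q * k⁻¹) n * TP k n = TP Q n := by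
    rw [← TP_transpose, ← TP_mul, ← TP_mul]
    congr 1
    calc kᵀ * ((k⁻¹)ᵀ * Q * k⁻¹) * k = (kᵀ * (k⁻¹)ᵀ) * Q * (k⁻¹ * k) := by
          simp only [Matrix.mul_assoc]
      _ = Q := by
          rw [← transpose_mul, nonsing_inv_mul _ hu, transpose_one, Matrix.one_mul,
            Matrix.mul_one]
  rw [bf_eq, bf_eq, tpow_eq, tpow_eq]
  conv_rhs => rw [← h1]
  rw [← Matrix.mulVec_mulVec, ← Matrix.mulVec_mulVec, Matrix.dotProduct_mulVec v,
    Matrix.vecMul_transpose]

lemma conjS_nd {C : CSys Q} (hk : k.det ≠ 0) {n : ℕ}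
    (h : ∀ v ∈ C.S n, (∀ w ∈ C.S n, bf (TP Q n) v w = 0) → v = 0) :
    ∀ v ∈ (conjS C hk).S n, (∀ w ∈ (conjS C hk).S n,
      bf (TP ((k⁻¹)ᵀ * Q * k⁻¹) n) v w = 0) → v = 0 := by
  rintro _ ⟨v, hv, rfl⟩ hw
  rw [h v hv fun w hwC => ?_, map_zero]
  have h1 := hw (tpow k n w) ⟨w, hwC, rfl⟩
  rwa [bf_conj hk] at h1

/-- The translate of a system with projections. -/
noncomputable def conjT (T : TSys K ι) (hk : k.det ≠ 0) : TSys K ι where
  S n := mv k (T.S n)
  p n := tpow k n ∘ₗ T.p n ∘ₗ tpow k⁻¹ n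
  p_mem n t := ⟨_, T.p_mem n _, rfl⟩
  p_id := by
    rintro n _ ⟨t, ht, rfl⟩
    change tpow k n (T.p n (tpow k⁻¹ n (tpow k n t))) = _
    rw [tp_inv_tp hk, T.p_id n t ht]
  p_perm n σ t I := by
    change tpow k n (T.p n (tpow k⁻¹ n _)) I = tpow k n (T.p n (tpow k⁻¹ n t)) (I ∘ σ)
    rw [tpow_perm]
    have h1 : T.p n (fun I => tpow k⁻¹ n t (I ∘ σ)) = fun I => T.p n (tpow k⁻¹ n t) (I ∘ σ) :=
      funext fun I => T.p_perm n σ _ I
    rw [h1, tpow_perm]
  p_tmul := by
    rintro m n _ t ⟨s, hs, rfl⟩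
    change tpow k (m + n) (T.p (m + n) (tpow k⁻¹ (m + n) _)) =
      tmul _ (tpow k n (T.p n (tpow k⁻¹ n t)))
    rw [tpow_tmul, tp_inv_tp hk, T.p_tmul m n s _ hs, tpow_tmul]
  one := ⟨_, T.one, tpow_zero _ _⟩

lemma conjT_S (T : TSys K ι) (hk : k.det ≠ 0) (n : ℕ) : (conjT T hk).S n = mv k (T.S n) := rfl

/-- Infinitesimal stabilisers and translation. -/
lemma aop_conjk (hk : k.det ≠ 0) (X : Matrix ι ι K) {n : ℕ} (t : (Fin n → ι) → K) :
    aop X (tpow k n t) = tpow k n (aop (k⁻¹ * X * k) t) := by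
  have h1 : k * (k⁻¹ * X * k) = X * k := by
    rw [← Matrix.mul_assoc, ← Matrix.mul_assoc, mul_nonsing_inv _ (isUnit_iff_ne_zero.2 hk),
      Matrix.one_mul]
  exact (tpow_aop h1 t).symm

lemma tp_inj (hk : k.det ≠ 0) {n : ℕ} {s t : (Fin n → ι) → K} (h : tpow k n s = tpow k n t) :
    s = t := by
  rw [← tp_inv_tp hk s, h, tp_inv_tp hk]

end conj

section ext

variable {K : Type} [Field K] {ι : Type} [Fintype ι] [DecidableEq ι] {Q : Matrix ι ι K}
  (F : Type) [Field F] [Algebra K F]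

lemma tmul_bc {m n : ℕ} (s : (Fin m → ι) → K) (t : (Fin n → ι) → K) :
    tmul (bc F s) (bc F t) = bc F (tmul s t) := by
  funext I
  exact (map_mul _ _ _).symm

lemma ctr_bc {m n : ℕ} (s : (Fin m → ι) → K) (t : (Fin (m + n) → ι) → K) :
    (fun J => ∑ I, ∑ I', bc F s I * TP (Q.map (algebraMap K F)) m I I' *
      bc F t (Fin.append I' J)) =
      bc F fun J => ∑ I, ∑ I', s I * TP Q m I I' * t (Fin.append I' J) := by
  funext J
  rw [bc, map_sum]
  refine Finset.sum_congr rfl fun I _ => ?_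
  rw [map_sum]
  refine Finset.sum_congr rfl fun I' _ => ?_
  rw [TP_map, map_mul, map_mul]
  rfl

variable (Q) in
lemma map_inv_mat : (Q.map (algebraMap K F))⁻¹ = Q⁻¹.map (algebraMap K F) := by
  by_cases h : IsUnit Q.det
  · apply Matrix.inv_eq_left_inv
    rw [← Matrix.map_mul, nonsing_inv_mul _ h]
    exact Matrix.map_one _ (map_zero _) (map_one _)
  · rw [nonsing_inv_apply_not_isUnit _ h, nonsing_inv_apply_not_isUnit]
    · ext i j
      simp
    · intro h1
      have h2 : (Q.map (algebraMap K F)).det = algebraMap K F Q.det :=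
        ((algebraMap K F).map_det _).symm
      rw [h2, isUnit_iff_ne_zero, Ne, map_eq_zero, ← Ne, ← isUnit_iff_ne_zero] at h1
      exact h h1

/-- The extension of scalars of a closed system. -/
noncomputable def exC (C : CSys Q) : CSys (Q.map (algebraMap K F)) where
  S n := bcS F (C.S n)
  one := by
    have h1 : (fun _ => 1 : (Fin 0 → ι) → F) = bc F (fun _ => 1 : (Fin 0 → ι) → K) := by
      funext I
      exact (map_one _).symm
    rw [h1]
    exact bc_mem C.one
  mul := by
    intro m n s t hs ht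
    refine Submodule.span_induction (p := fun s _ => tmul s t ∈ bcS F (C.S (m + n))) ?_ ?_ ?_ ?_
      hs
    · rintro _ ⟨s, hs, rfl⟩
      refine Submodule.span_induction
        (p := fun t _ => tmul (bc F s) t ∈ bcS F (C.S (m + n))) ?_ ?_ ?_ ?_ ht
      · rintro _ ⟨t, ht, rfl⟩
        rw [tmul_bc]
        exact bc_mem (C.mul hs ht)
      · have h1 : tmul (bc F s) (0 : (Fin n → ι) → F) = 0 := by
          funext I
          exact mul_zero _
        rw [h1]
        exact Submodule.zero_mem _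
      · intro x y _ _ hx hy
        have h1 : tmul (bc F s) (x + y) = tmul (bc F s) x + tmul (bc F s) y := by
          funext I
          exact mul_add _ _ _
        rw [h1]
        exact Submodule.add_mem _ hx hy
      · intro c x _ hx
        have h1 : tmul (bc F s) (c • x) = c • tmul (bc F s) x := by
          funext I
          exact mul_left_comm _ _ _
        rw [h1]
        exact Submodule.smul_mem _ _ hx
    · have h1 : tmul (0 : (Fin m → ι) → F) t = 0 := by
        funext I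
        exact zero_mul _
      rw [h1]
      exact Submodule.zero_mem _
    · intro x y _ _ hx hy
      have h1 : tmul (x + y) t = tmul x t + tmul y t := by
        funext I
        exact add_mul _ _ _
      rw [h1]
      exact Submodule.add_mem _ hx hy
    · intro c x _ hx
      have h1 : tmul (c • x) t = c • tmul x t := by
        funext I
        exact mul_assoc _ _ _
      rw [h1]
      exact Submodule.smul_mem _ _ hx
  perm := by
    intro n σ t ht
    let φ : ((Fin n → ι) → F) →ₗ[F] ((Fin n → ι) → F) :=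
      { toFun := fun t J => t (J ∘ σ)
        map_add' := fun _ _ => rfl
        map_smul' := fun _ _ => rfl }
    have h1 : bcS F (C.S n) ≤ (bcS F (C.S n)).comap φ := by
      rw [bcS, Submodule.span_le]
      rintro _ ⟨t, ht, rfl⟩
      exact bc_mem (C.perm σ ht)
    exact h1 ht
  contr := by
    intro m n s t hs ht
    let φ : ((Fin m → ι) → F) →ₗ[F] ((Fin (m + n) → ι) → F) →ₗ[F] ((Fin n → ι) → F) :=
      LinearMap.mk₂ F (fun s t J => ∑ I, ∑ I', s I * TP (Q.map (algebraMap K F)) m I I' *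
        t (Fin.append I' J))
        (fun s s' t => by
          funext J
          simp only [Pi.add_apply, add_mul, Finset.sum_add_distrib])
        (fun c s t => by
          funext J
          simp only [Pi.smul_apply, smul_eq_mul, Finset.mul_sum, mul_assoc])
        (fun s t t' => by
          funext J
          simp only [Pi.add_apply, mul_add, Finset.sum_add_distrib])
        (fun c s t => by
          funext J
          simp only [Pi.smul_apply, smul_eq_mul, Finset.mul_sum]
          exact Finset.sum_congr rfl fun I _ => Finset.sum_congr rfl fun I' _ => by ring)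
    have h2 : ∀ s ∈ C.S m, ∀ t ∈ bcS F (C.S (m + n)), φ (bc F s) t ∈ bcS F (C.S n) := by
      intro s hs t ht
      have h3 : bcS F (C.S (m + n)) ≤ (bcS F (C.S n)).comap (φ (bc F s)) := by
        rw [bcS, Submodule.span_le]
        rintro _ ⟨t, ht, rfl⟩
        change (fun J => ∑ I, ∑ I', bc F s I * TP (Q.map (algebraMap K F)) m I I' *
          bc F t (Fin.append I' J)) ∈ bcS F (C.S n)
        rw [ctr_bc]
        exact bc_mem (C.contr hs ht)
      exact h3 ht
    have h4 : bcS F (C.S m) ≤ (bcS F (C.S n)).comap (φ.flip t) := by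
      rw [bcS, Submodule.span_le]
      rintro _ ⟨s, hs, rfl⟩
      exact h2 s hs t ht
    exact h4 hs
  om := by
    have h1 : (fun w : Fin 2 → ι => (Q.map (algebraMap K F))⁻¹ (w 0) (w 1)) =
        bc F fun w : Fin 2 → ι => Q⁻¹ (w 0) (w 1) := by
      funext w
      rw [bc, map_inv_mat Q F]
      rfl
    rw [h1]
    exact bc_mem C.om

variable {F} in
lemma bf_form (l : F →ₗ[K] K) {n : ℕ} (v : (Fin n → ι) → F) (w : (Fin n → ι) → K) :
    bf (TP Q n) (fun I => l (v I)) w =
      l (bf (TP (Q.map (algebraMap K F)) n) v (bc F w)) := by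
  rw [bf, bf, map_sum]
  refine Finset.sum_congr rfl fun I _ => ?_
  rw [map_sum]
  refine Finset.sum_congr rfl fun J _ => ?_
  rw [TP_map, Matrix.map_apply, bc]
  have h1 : v I * algebraMap K F (TP Q n I J) * algebraMap K F (w J) =
      (TP Q n I J * w J) • v I := by
    rw [Algebra.smul_def, map_mul]
    ring
  rw [h1, map_smul, smul_eq_mul]
  ring

variable {F} in
/-- Nondegeneracy after extension of scalars. -/
lemma exC_nd {C : CSys Q} {n : ℕ}
    (h : ∀ v ∈ C.S n, (∀ w ∈ C.S n, bf (TP Q n) v w = 0) → v = 0) :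
    ∀ v ∈ (exC F C).S n, (∀ w ∈ (exC F C).S n,
      bf (TP (Q.map (algebraMap K F)) n) v w = 0) → v = 0 := by
  intro v hv hw
  funext I
  apply eq_zero_of_forms (K := K)
  intro l
  have h1 := h (fun I => l (v I)) (lam_mem l hv) fun w hwC => by
    rw [bf_form, hw _ (bc_mem hwC), map_zero]
  exact congrFun h1 I

/-- Infinitesimal actions and linear forms. -/
lemma aop_form' {F : Type} [Field F] [Algebra K F] (l : F →ₗ[K] K) (A : Matrix ι ι K) {n : ℕ}
    (t : (Fin n → ι) → F) :
    (fun I => l (aop (A.map (algebraMap K F)) t I)) = aop A fun I => l (t I) := by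
  funext I
  rw [aop_apply, aop_apply, map_sum]
  refine Finset.sum_congr rfl fun k _ => ?_
  rw [map_sum]
  refine Finset.sum_congr rfl fun j _ => ?_
  rw [Matrix.map_apply, ← Algebra.smul_def, map_smul, smul_eq_mul]

lemma tpow_form' {F : Type} [Field F] [Algebra K F] (l : F →ₗ[K] K) (A : Matrix ι ι K) {n : ℕ}
    (t : (Fin n → ι) → F) :
    (fun I => l (tpow (A.map (algebraMap K F)) n t I)) = tpow A n fun I => l (t I) := by
  funext I
  rw [tpow_apply, tpow_apply, map_sum]
  refine Finset.sum_congr rfl fun J _ => ?_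
  have h1 : ∏ k, (A.map (algebraMap K F)) (I k) (J k) = algebraMap K F (∏ k, A (I k) (J k)) := by
    rw [map_prod]
    rfl
  rw [h1, ← Algebra.smul_def, map_smul, smul_eq_mul]

end ext

end Pool.Agent.Q60.TP
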